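import Pool.Agent.Work.MP_a2bf38_gt.Fu.I.Defs
import Pool.Agent.Work.MP_a2bf38_gt.Fu.K.Setup
import Pool.Agent.Work.MP_a2bf38_gt.Fu.H.Gen
import Pool.Agent.Work.MP_a2bf38_gt.Fu.I.NatDefs

section

/-!
# Fibrations over a smooth base with a semistable model over a modification of the base

`f : M → Y` is a holomorphic map from a compact complex manifold of dimension `n` onto a complex
manifold of dimension `m`.  Over the coordinate balls `b j` of `Y` there is a modification
`σ : Y' → Y` and `f` has semistable models over the charts `z a` of `Y'`.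
-/

open scoped ContDiff ENNReal ComplexOrder
open Set Pool.Agent.ToricKRF Pool.Agent.ToricKRF.G Pool.Agent.KRFS Pool.Agent.KRFF
  Pool.Agent.KRFG

namespace Pool.Agent.KRFX

/-- The map `σ` in the charts. -/
noncomputable def sgm {Y Y' : Type} [TopologicalSpace Y] [TopologicalSpace Y'] {m : ℕ}
    {P P' : Type} (b : P → OpenPartialHomeomorph Y (Cn m))
    (z : P' → OpenPartialHomeomorph Y' (Cn m)) (σ : Y' → Y) (la : P' → P) (a : P') (x : Cn m) :
    Cn m := b (la a) (σ ((z a).symm x))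

/-- Modifications of the balls `nsq y ≤ 49` of the charts `b j` of `Y`: the space `Y'` is the disjoint
union of the parts `lb y' = j`, with the charts `z a`, `la a = j`, and `σ : Y' → Y` is a map, with
values in the chart `b j`.  It is injective and has invertible derivative off the zero set of
`g j`, `g j` and the derivative are bounded from below by powers of the coordinates of `Y'`, and
`|v|^2 ≤ A (i ∂ ∂bar log |g j ∘ σ|^2 + |dσ|^2)`. -/
structure IsModif {Y Y' : Type} [TopologicalSpace Y] [TopologicalSpace Y'] {m l : ℕ}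
    {P P' : Type} (b : P → OpenPartialHomeomorph Y (Cn m))
    (z : P' → OpenPartialHomeomorph Y' (Cn m)) (σ : Y' → Y) (lb : Y' → P) (la : P' → P)
    (g : P → Cn m → Cn l) : Prop where
  mem : ∀ y', σ y' ∈ (b (lb y')).source ∧ nsq (b (lb y') (σ y')) < 100
  target : ∀ a, {x | nsq x < 100} ⊆ (z a).target
  lb_eq : ∀ a, ∀ y' ∈ (z a).source, lb y' = la a
  cover : ∀ y', nsq (b (lb y') (σ y')) ≤ 49 → ∃ a, y' ∈ (z a).source ∧ nsq (z a y') ≤ 1
  holo : ∀ a, HolOn (sgm b z σ la a) {x | nsq x < 100}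
  surj : ∀ j, ∀ y ∈ (b j).source, nsq (b j y) ≤ 49 → ∃ y', lb y' = j ∧ σ y' = y
  g_holo : ∀ j, HolOn (g j) {y | nsq y < 100}
  inj : ∀ y₁ y₂, lb y₁ = lb y₂ → σ y₁ = σ y₂ → g (lb y₁) (b (lb y₁) (σ y₁)) ≠ 0 → y₁ = y₂
  dinj : ∀ a, ∀ x, nsq x < 100 → g (la a) (sgm b z σ la a x) ≠ 0 →
    Function.Injective (fderiv ℝ (sgm b z σ la a) x)
  pos : ∃ A : ℝ, 0 ≤ A ∧ ∀ a, ∀ x, nsq x < 100 → g (la a) (sgm b z σ la a x) ≠ 0 → ∀ v,
    nsq v ≤ A * (levz (fun x => Real.log (nsq (g (la a) (sgm b z σ la a x)))) v x +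
      nsq (fderiv ℝ (sgm b z σ la a) x v))
  low : ∃ (c : ℝ) (A : ℕ), 0 < c ∧ ∀ a, ∀ x, nsq x < 100 →
    c * (∏ i, ‖cc x i‖) ^ A ≤ nsq (g (la a) (sgm b z σ la a x)) ∧
    c * (∏ i, ‖cc x i‖) ^ A ≤ |(fderiv ℝ (sgm b z σ la a) x).det|

/-- Semistable models over the balls `nsq x ≤ 25` of the charts `z a` of `Y'`: a space `W`, the
disjoint union of the parts `lab w = a`, with maps `π : W → M`, `h : W → Y'` over `Y` and
`τ : W → ℂ^m` such that `z a (h w)_i = τ(w)_i ^ N_i`.  In the charts `a c` of `W`, with the polydisc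
of radius `10` as target, `π` is holomorphic, with values in the chart `e (al c)`, and `τ_i` is a
positive constant times the product of the coordinates `x_l` with `row c l = i`. -/
structure IsModel {M Y Y' W : Type} [TopologicalSpace M] [TopologicalSpace Y]
    [TopologicalSpace Y'] [TopologicalSpace W]
    {n m l : ℕ} {κ P P' ι : Type} (e : κ → OpenPartialHomeomorph M (Cn n))
    (b : P → OpenPartialHomeomorph Y (Cn m)) (f : M → Y)
    (z : P' → OpenPartialHomeomorph Y' (Cn m)) (σ : Y' → Y) (lb : Y' → P) (g : P → Cn m → Cn l)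
    (a : ι → OpenPartialHomeomorph W (Cn n))
    (al : ι → κ) (lab : W → P') (π : W → M) (h : W → Y') (τ : W → Cn m) (N : P' → Fin m → ℕ)
    (pc : ι → P') (s : ι → Fin m → ℝ) (row : ι → Fin n → Option (Fin m)) : Prop where
  base : ∀ w, h w ∈ (z (lab w)).source ∧ ∀ i, cc (z (lab w) (h w)) i = cc (τ w) i ^ N (lab w) i
  comm : ∀ w, σ (h w) = f (π w)
  N_pos : ∀ j i, 0 < N j i
  target : ∀ c, (a c).target = opd 10
  lab_eq : ∀ c, ∀ w ∈ (a c).source, lab w = pc c
  s_pos : ∀ c i, 0 < s c i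
  row_ne : ∀ c i, ∃ l, row c l = some i
  mono : ∀ c, ∀ w ∈ (a c).source, ∀ i, cc (τ w) i = s c i * prow (row c) i (a c w)
  mem : ∀ c, ∀ w ∈ (a c).source, π w ∈ (e (al c)).source
  holo : ∀ c, HolOn (fun x => e (al c) (π ((a c).symm x))) (opd 10)
  cover : ∀ w, nsq (z (lab w) (h w)) ≤ 25 → ∃ c, w ∈ (a c).source ∧ a c w ∈ cpd 1
  surj : ∀ a, ∀ t : Cn m, (∃ y' ∈ (z a).source, nsq (z a y') ≤ 25 ∧
    ∀ i, cc t i ^ N a i = cc (z a y') i) → ∃ w, lab w = a ∧ τ w = t
  onto : ∀ a w₀, h w₀ ∈ (z a).source → nsq (z a (h w₀)) ≤ 25 → ∀ t : Cn m,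
    (∀ i, cc t i ^ N a i = cc (z a (h w₀)) i) → ∃ w, lab w = a ∧ τ w = t ∧ π w = π w₀
  full : ∀ p y', σ y' = f p → nsq (b (lb y') (f p)) ≤ 49 → g (lb y') (b (lb y') (f p)) ≠ 0 →
    ∃ w, h w = y' ∧ π w = p
  all : ∀ j p, f p ∈ (b j).source → nsq (b j (f p)) ≤ 49 → ∃ w, lb (h w) = j ∧ π w = p
  connected : ∀ a t, (∀ i, cc t i ≠ 0) → IsPreconnected {w | lab w = a ∧ τ w = t}

end Pool.Agent.KRFX

end

section

/-!
# The setup of a Kähler-Ricci flow on a fibration with semistable models over a modification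
-/

open scoped ContDiff ENNReal ComplexOrder
open Set Pool.Agent.ToricKRF Pool.Agent.ToricKRF.G Pool.Agent.KRFS Pool.Agent.KRFF
  Pool.Agent.KRFG

namespace Pool.Agent.KRFX

/-- A Kähler-Ricci flow on a fibration with semistable models over a modification of the base. -/
structure Mod (n m l : ℕ) (M Y Y' W : Type) [TopologicalSpace M] [TopologicalSpace Y]
    [TopologicalSpace Y'] [TopologicalSpace W] (κ P P' ι : Type) (T : ℝ) extends Flow n M κ T where
  b : P → OpenPartialHomeomorph Y (Cn m)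
  f : M → Y
  z : P' → OpenPartialHomeomorph Y' (Cn m)
  σ : Y' → Y
  lb : Y' → P
  la : P' → P
  g : P → Cn m → Cn l
  a : ι → OpenPartialHomeomorph W (Cn n)
  al : ι → κ
  lab : W → P'
  π : W → M
  h : W → Y'
  τ : W → Cn m
  N : P' → Fin m → ℕ
  pc : ι → P'
  s : ι → Fin m → ℝ
  row : ι → Fin n → Option (Fin m)
  K : P → Cn m → ℝ
  atlasY : IsAtlas b
  hol : IsHolMap e b f
  modif : IsModif b z σ lb la g
  model : IsModel e b f z σ lb g a al lab π h τ N pc s row
  lim : IsLimit e b f T ψ Ω K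
  Θ_eq : ∀ c z, Θ c z = ψ c (0, z) + T * Real.log (Ω c z)

section

variable {n m l : ℕ} {M Y Y' W : Type} [TopologicalSpace M] [TopologicalSpace Y]
  [TopologicalSpace Y'] [TopologicalSpace W] {κ P P' ι : Type} {T : ℝ}
  (F : Mod n m l M Y Y' W κ P P' ι T)

/-- the maximum of `φ(t)` on the image in `M` of the fibre of `W` over `y'` -/
noncomputable def Mod.Mx (t : ℝ) (y' : Y') : ℝ := sSup (F.Phi t '' (F.π '' (F.h ⁻¹' {y'})))

/-- the coordinates in `Y'` of the point `x` of the chart `c` of `W` -/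
noncomputable def Mod.zc (c : ι) (x : Cn n) : Cn m := F.z (F.pc c) (F.h ((F.a c).symm x))

/-- the coordinates in `Y` of the point `x` of the chart `c` of `W` -/
noncomputable def Mod.yc (c : ι) (x : Cn n) : Cn m :=
  F.b (F.la (F.pc c)) (F.f (F.π ((F.a c).symm x)))

/-- `φ - max ≤ 0` in the chart `c` of `W` -/
noncomputable def Mod.gc (t : ℝ) (c : ι) (x : Cn n) : ℝ :=
  F.Phi t (F.π ((F.a c).symm x)) - F.Mx t (F.h ((F.a c).symm x))

/-- the map `σ` in the chart `a` of `Y'` and the chart `la a` of `Y` -/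
noncomputable def Mod.sg (a : P') (x : Cn m) : Cn m := F.b (F.la a) (F.σ ((F.z a).symm x))

/-- the coordinates of the point `σ y'` of `Y` -/
noncomputable def Mod.yb (y' : Y') : Cn m := F.b (F.lb y') (F.σ y')

end

end Pool.Agent.KRFX

end

section

/-!
# The sub-mean value property is local
-/

open scoped ContDiff ENNReal ComplexOrder Topology
open Set MeasureTheory Filter Pool.Agent.ToricKRF Pool.Agent.ToricKRF.G Pool.Agent.KRFS
  Pool.Agent.KRFF Pool.Agent.KRFG

namespace Pool.Agent.KRFX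

namespace Loc

open Polynomial

/-- continuous functions on the circle are approximated by real parts of polynomials -/
theorem exists_poly_re {G : ℂ → ℝ} (hG : ContinuousOn G (Metric.sphere 0 1)) {ε : ℝ}
    (hε : 0 < ε) : ∃ P : ℂ[X], ∀ z : ℂ, ‖z‖ = 1 → |G z - (P.eval z).re| < ε := by
  haveI : Fact ((0 : ℝ) < 2 * Real.pi) := ⟨Real.two_pi_pos⟩
  have hc : Continuous fun x : AddCircle (2 * Real.pi) => G ((x.toCircle : Circle) : ℂ) :=
    hG.comp_continuous (continuous_subtype_val.comp AddCircle.continuous_toCircle) fun x => by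
      simp
  let g : C(AddCircle (2 * Real.pi), ℂ) :=
    ⟨fun x => ((G ((x.toCircle : Circle) : ℂ) : ℝ) : ℂ), Complex.continuous_ofReal.comp hc⟩
  have hspan : ∀ p ∈ Submodule.span ℂ (range (@fourier (2 * Real.pi))), ∃ P Q : ℂ[X],
      ∀ x : AddCircle (2 * Real.pi), p x = P.eval ((x.toCircle : Circle) : ℂ) +
        (starRingEnd ℂ) (Q.eval ((x.toCircle : Circle) : ℂ)) := by
    intro p hp
    induction hp using Submodule.span_induction with
    | mem p hp =>
      obtain ⟨n, rfl⟩ := hp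
      have hnat : ∀ (k : ℕ) (x : AddCircle (2 * Real.pi)),
          fourier (k : ℤ) x = ((x.toCircle : Circle) : ℂ) ^ k := by
        intro k x
        rw [fourier_apply, AddCircle.toCircle_zsmul]
        simp
      rcases Int.eq_nat_or_neg n with ⟨k, rfl | rfl⟩
      · refine ⟨X ^ k, 0, fun x => ?_⟩
        rw [hnat]
        simp
      · refine ⟨0, X ^ k, fun x => ?_⟩
        rw [fourier_neg, hnat]
        simp
    | zero => exact ⟨0, 0, fun x => by simp⟩
    | add p q _ _ hp hq =>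
      obtain ⟨P, Q, h⟩ := hp
      obtain ⟨P', Q', h'⟩ := hq
      refine ⟨P + P', Q + Q', fun x => ?_⟩
      rw [ContinuousMap.add_apply, h, h', eval_add, eval_add, map_add]
      ring
    | smul a p _ hp =>
      obtain ⟨P, Q, h⟩ := hp
      refine ⟨C a * P, C ((starRingEnd ℂ) a) * Q, fun x => ?_⟩
      rw [ContinuousMap.smul_apply, h, eval_mul, eval_mul, eval_C, eval_C, map_mul,
        Complex.conj_conj, smul_eq_mul]
      ring
  have hg : g ∈ closure ((Submodule.span ℂ (range (@fourier (2 * Real.pi)))) :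
      Set C(AddCircle (2 * Real.pi), ℂ)) := by
    have h1 : g ∈ (Submodule.span ℂ (range (@fourier (2 * Real.pi)))).topologicalClosure := by
      rw [span_fourier_closure_eq_top]
      exact Submodule.mem_top
    exact h1
  obtain ⟨p, hp, hpd⟩ := Metric.mem_closure_iff.1 hg ε hε
  obtain ⟨P, Q, hPQ⟩ := hspan p hp
  refine ⟨P + Q, fun z hz => ?_⟩
  obtain ⟨x, hx⟩ : ∃ x : AddCircle (2 * Real.pi), ((AddCircle.toCircle x : Circle) : ℂ) = z := by
    refine ⟨((z.arg : ℝ) : AddCircle (2 * Real.pi)), ?_⟩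
    rw [AddCircle.toCircle_apply_mk, Circle.coe_exp]
    have h2 := Complex.norm_mul_exp_arg_mul_I z
    rw [hz, Complex.ofReal_one, one_mul] at h2
    rw [div_self Real.two_pi_pos.ne', one_mul, h2]
  have h3 : ‖g x - p x‖ < ε := lt_of_le_of_lt (by
        rw [← dist_eq_norm]
        exact ContinuousMap.dist_apply_le_dist _) hpd
  have h4 := Complex.abs_re_le_norm (g x - p x)
  refine lt_of_le_of_lt ?_ h3
  refine le_trans (le_of_eq ?_) h4
  rw [hPQ, hx]
  change _ = |(((G ((AddCircle.toCircle x : Circle) : ℂ) : ℝ) : ℂ) - _).re|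
  rw [hx, Complex.sub_re, Complex.add_re, Complex.conj_re, Complex.ofReal_re, eval_add,
    Complex.add_re]

theorem cavg_eq (G : ℂ → ℝ) (r : ℝ) : cavg G r = Real.circleAverage G 0 r := by
  unfold cavg Real.circleAverage
  rw [smul_eq_mul]
  congr 1
  refine intervalIntegral.integral_congr fun θ _ => ?_
  simp only [circleMap, zero_add]

theorem cavg_poly (P : ℂ[X]) (a : ℂ) (r : ℝ) :
    cavg (fun ξ => (P.eval (a + ξ)).re) r = (P.eval a).re := by
  have hd : Differentiable ℂ fun ξ : ℂ => P.eval (a + ξ) :=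
    P.differentiable.comp ((differentiable_const a).add differentiable_id)
  have h1 : Real.circleAverage (fun ξ : ℂ => P.eval (a + ξ)) 0 r = P.eval (a + 0) :=
    DiffContOnCl.circleAverage hd.diffContOnCl
  rw [cavg_eq]
  have h2 := ContinuousLinearMap.circleAverage_comp_comm (c := (0 : ℂ)) (R := r)
    (f := fun ξ : ℂ => P.eval (a + ξ)) Complex.reCLM
    (hd.continuous.continuousOn.circleIntegrable')
  have h3 : (fun ξ : ℂ => (P.eval (a + ξ)).re) = Complex.reCLM ∘ fun ξ : ℂ => P.eval (a + ξ) := rfl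
  rw [h3, h2, h1, add_zero]
  rfl

/-- some angle in `[0, 2π]` -/
theorem exists_angle (a : ℂ) : ∃ θ ∈ Icc (0 : ℝ) (2 * Real.pi),
    (‖a‖ : ℂ) * Complex.exp (θ * Complex.I) = a := by
  have h2 := Complex.norm_mul_exp_arg_mul_I a
  rcases le_or_gt 0 a.arg with h | h
  · exact ⟨a.arg, ⟨h, by linarith [Complex.arg_le_pi a, Real.pi_pos]⟩, h2⟩
  · refine ⟨a.arg + 2 * Real.pi, ⟨by linarith [Complex.neg_pi_lt_arg a], by linarith⟩, ?_⟩
    rw [Complex.ofReal_add, add_mul]
    have h3 : Complex.exp ((a.arg : ℂ) * Complex.I + ((2 * Real.pi : ℝ) : ℂ) * Complex.I) =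
        Complex.exp (a.arg * Complex.I) := by
      have := Complex.exp_periodic ((a.arg : ℂ) * Complex.I)
      rw [← this]
      congr 1
      push_cast
      ring
    rw [h3, h2]

/-- the maximum of a function with the local sub-mean value property is attained on the circle -/
theorem max_le {D : ℂ → ℝ} (hD : ContinuousOn D (Metric.closedBall 0 1))
    (h : ∀ a ∈ Metric.ball (0 : ℂ) 1, ∀ᶠ r in 𝓝[>] (0 : ℝ), D a ≤ cavg (fun ξ => D (a + ξ)) r)
    {c : ℝ} (hc : ∀ z : ℂ, ‖z‖ = 1 → D z ≤ c) : ∀ z ∈ Metric.closedBall (0 : ℂ) 1, D z ≤ c := by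
  have hK : IsCompact (Metric.closedBall (0 : ℂ) 1) := isCompact_closedBall 0 1
  obtain ⟨a, ha, hmax⟩ := hK.exists_isMaxOn ⟨0, by simp⟩ hD
  have hmax' : ∀ z ∈ Metric.closedBall (0 : ℂ) 1, D z ≤ D a := fun z hz => hmax hz
  have hS : IsCompact (Metric.closedBall (0 : ℂ) 1 ∩ D ⁻¹' {D a}) :=
    hK.of_isClosed_subset (hD.preimage_isClosed_of_isClosed Metric.isClosed_closedBall
      isClosed_singleton) inter_subset_left
  obtain ⟨b, ⟨hb, hba⟩, hbmax⟩ := hS.exists_isMaxOn ⟨a, ha, rfl⟩ continuous_norm.continuousOn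
  have hba' : D b = D a := hba
  have hbmax' : ∀ z ∈ Metric.closedBall (0 : ℂ) 1, D z = D a → ‖z‖ ≤ ‖b‖ :=
    fun z hz hz' => hbmax ⟨hz, hz'⟩
  have hb1 : ‖b‖ ≤ 1 := by simpa using hb
  rcases hb1.eq_or_lt with h1 | h1
  · intro z hz
    exact (hmax' z hz).trans (hba' ▸ hc b h1)
  · exfalso
    have hb2 : b ∈ Metric.ball (0 : ℂ) 1 := by simpa using h1
    have hr1 : ∀ᶠ r in 𝓝[>] (0 : ℝ), r < 1 - ‖b‖ :=
      (eventually_lt_nhds (sub_pos.2 h1)).filter_mono nhdsWithin_le_nhds
    obtain ⟨r, ⟨hr, hrb⟩, hr0⟩ := (((h b hb2).and hr1).and self_mem_nhdsWithin).exists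
    have hr0' : 0 < r := hr0
    have hin : ∀ θ : ℝ, b + (r : ℂ) * Complex.exp (θ * Complex.I) ∈
        Metric.closedBall (0 : ℂ) 1 := by
      intro θ
      rw [mem_closedBall_zero_iff]
      refine (norm_add_le _ _).trans ?_
      rw [norm_mul, Complex.norm_exp_ofReal_mul_I, mul_one, Complex.norm_real, Real.norm_eq_abs,
        abs_of_pos hr0']
      linarith
    have hcont : Continuous fun θ : ℝ => D (b + (r : ℂ) * Complex.exp (θ * Complex.I)) :=
      hD.comp_continuous (by fun_prop) hin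
    obtain ⟨θ, hθ, hθb⟩ := exists_angle b
    have hpos : 0 < ∫ θ in (0 : ℝ)..2 * Real.pi,
        (D a - D (b + (r : ℂ) * Complex.exp (θ * Complex.I))) := by
      refine intervalIntegral.integral_pos Real.two_pi_pos
        (continuous_const.sub hcont).continuousOn
        (fun θ _ => sub_nonneg.2 (hmax' _ (hin θ))) ⟨θ, hθ, sub_pos.2 ?_⟩
      refine lt_of_le_of_ne (hmax' _ (hin θ)) fun hne => ?_
      have h2 := hbmax' _ (hin θ) hne
      have h3 : b + (r : ℂ) * Complex.exp (θ * Complex.I) =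
          ((‖b‖ + r : ℝ) : ℂ) * Complex.exp (θ * Complex.I) := by
        nth_rewrite 1 [← hθb]
        push_cast
        ring
      rw [h3, norm_mul, Complex.norm_exp_ofReal_mul_I, mul_one, Complex.norm_real,
        Real.norm_eq_abs, abs_of_nonneg (by positivity)] at h2
      linarith
    rw [intervalIntegral.integral_sub (by simp) (hcont.intervalIntegrable _ _),
      intervalIntegral.integral_const, sub_zero, smul_eq_mul] at hpos
    unfold cavg at hr
    rw [hba'] at hr
    have h4 : 2 * Real.pi * D a ≤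
        ∫ θ in (0 : ℝ)..2 * Real.pi, D (b + (r : ℂ) * Complex.exp (θ * Complex.I)) := by
      calc 2 * Real.pi * D a ≤ 2 * Real.pi * ((2 * Real.pi)⁻¹ *
          ∫ θ in (0 : ℝ)..2 * Real.pi, D (b + (r : ℂ) * Complex.exp (θ * Complex.I))) :=
            mul_le_mul_of_nonneg_left hr Real.two_pi_pos.le
        _ = _ := by rw [← mul_assoc, mul_inv_cancel₀ Real.two_pi_pos.ne', one_mul]
    linarith

/-- the one variable statement -/
theorem disc_le {G : ℂ → ℝ} (hG : ContinuousOn G (Metric.closedBall 0 1))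
    (h : ∀ a ∈ Metric.ball (0 : ℂ) 1, ∀ᶠ r in 𝓝[>] (0 : ℝ), G a ≤ cavg (fun ξ => G (a + ξ)) r) :
    G 0 ≤ cavg G 1 := by
  refine le_of_forall_pos_le_add fun ε hε => ?_
  obtain ⟨P, hP⟩ := exists_poly_re (hG.mono Metric.sphere_subset_closedBall)
    (half_pos hε)
  have hPc : Continuous fun z : ℂ => (P.eval z).re := Complex.continuous_re.comp P.continuous
  have hcirc : ∀ θ : ℝ, (((1 : ℝ) : ℂ) * Complex.exp (θ * Complex.I)) ∈
      Metric.closedBall (0 : ℂ) 1 := by
    intro θ
    rw [mem_closedBall_zero_iff, norm_mul, Complex.norm_exp_ofReal_mul_I]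
    simp
  have h1 := max_le (D := fun z => G z - (P.eval z).re) (hG.sub hPc.continuousOn) (by
    intro a ha
    have hr1 : ∀ᶠ r in 𝓝[>] (0 : ℝ), r < 1 - ‖a‖ :=
      (eventually_lt_nhds (sub_pos.2 (by simpa using ha))).filter_mono nhdsWithin_le_nhds
    filter_upwards [h a ha, hr1, self_mem_nhdsWithin] with r hr hra hr0
    have hr0' : 0 < r := hr0
    have hin : ∀ θ : ℝ, a + (r : ℂ) * Complex.exp (θ * Complex.I) ∈
        Metric.closedBall (0 : ℂ) 1 := by
      intro θ
      rw [mem_closedBall_zero_iff]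
      refine (norm_add_le _ _).trans ?_
      rw [norm_mul, Complex.norm_exp_ofReal_mul_I, mul_one, Complex.norm_real, Real.norm_eq_abs,
        abs_of_pos hr0']
      linarith
    have hc1 : Continuous fun θ : ℝ => G (a + (r : ℂ) * Complex.exp (θ * Complex.I)) :=
      hG.comp_continuous (by fun_prop) hin
    have hc2 : Continuous fun θ : ℝ => (P.eval (a + (r : ℂ) * Complex.exp (θ * Complex.I))).re :=
      hPc.comp (by fun_prop)
    have h2 := cavg_poly P a r
    have h3 : cavg (fun ξ => G (a + ξ) - (P.eval (a + ξ)).re) r =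
        cavg (fun ξ => G (a + ξ)) r - cavg (fun ξ => (P.eval (a + ξ)).re) r := by
      unfold cavg
      rw [intervalIntegral.integral_sub (hc1.intervalIntegrable _ _)
        (hc2.intervalIntegrable _ _), mul_sub]
    rw [h3, h2]
    linarith) (c := ε / 2) (fun z hz => (le_abs_self _).trans (hP z hz).le) 0 (by simp)
  have h2 := cavg_poly P 0 1
  simp only [zero_add] at h2
  have h3 : cavg (fun ξ => (P.eval ξ).re) 1 ≤ cavg G 1 + ε / 2 := by
    have hc1 : Continuous fun θ : ℝ => G (((1 : ℝ) : ℂ) * Complex.exp (θ * Complex.I)) :=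
      hG.comp_continuous (by fun_prop) hcirc
    have hc2 : Continuous fun θ : ℝ =>
        (P.eval (((1 : ℝ) : ℂ) * Complex.exp (θ * Complex.I))).re :=
      hPc.comp (by fun_prop)
    unfold cavg
    have h4 : ∫ θ in (0 : ℝ)..2 * Real.pi,
        (P.eval (((1 : ℝ) : ℂ) * Complex.exp (θ * Complex.I))).re ≤
        ∫ θ in (0 : ℝ)..2 * Real.pi,
          (G (((1 : ℝ) : ℂ) * Complex.exp (θ * Complex.I)) + ε / 2) := by
      refine intervalIntegral.integral_mono_on Real.two_pi_pos.le (hc2.intervalIntegrable _ _)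
        ((hc1.add continuous_const).intervalIntegrable _ _) fun θ _ => ?_
      have h5 := hP (((1 : ℝ) : ℂ) * Complex.exp (θ * Complex.I)) (by
        rw [norm_mul, Complex.norm_exp_ofReal_mul_I]
        simp)
      have h6 := neg_abs_le (G (((1 : ℝ) : ℂ) * Complex.exp (θ * Complex.I)) -
        (P.eval (((1 : ℝ) : ℂ) * Complex.exp (θ * Complex.I))).re)
      linarith
    rw [intervalIntegral.integral_add (hc1.intervalIntegrable _ _) (by simp),
      intervalIntegral.integral_const, sub_zero, smul_eq_mul] at h4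
    calc _ ≤ (2 * Real.pi)⁻¹ * ((∫ θ in (0 : ℝ)..2 * Real.pi,
          G (((1 : ℝ) : ℂ) * Complex.exp (θ * Complex.I))) + 2 * Real.pi * (ε / 2)) :=
            mul_le_mul_of_nonneg_left h4 (inv_nonneg.2 Real.two_pi_pos.le)
      _ = _ := by
        rw [mul_add, ← mul_assoc, inv_mul_cancel₀ Real.two_pi_pos.ne', one_mul]
  have h5 : G 0 - (P.eval 0).re ≤ ε / 2 := h1
  linarith

end Loc

/-- the sub-mean value property is local -/
theorem pshC_of_local {m : ℕ} {u : Cn m → ℝ} {V : Set (Cn m)} (hV : IsOpen V)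
    (hu : ContinuousOn u V)
    (h : ∀ z ∈ V, ∀ v : Cn m, ∀ᶠ r in 𝓝[>] (0 : ℝ), u z ≤ cavg (fun ζ => u (line z v ζ)) r) :
    PshC u V := by
  refine ⟨hu, fun z v hz => ?_⟩
  have h1 := Loc.disc_le (G := fun ζ => u (line z v ζ))
    (hu.comp (contDiff_line z v).continuous.continuousOn fun ζ hζ => hz ζ (by simpa using hζ)) (by
      intro a ha
      have h2 := h (line z v a) (hz a (by
        have : ‖a‖ < 1 := by simpa using ha
        exact this.le)) v
      have h3 : (fun ζ => u (line (line z v a) v ζ)) = fun ξ => u (line z v (a + ξ)) := by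
        funext ξ
        rw [line_add, line_eq (line z v a) v ξ]
      rw [h3] at h2
      exact h2)
  rw [line_zero] at h1
  exact h1

end Pool.Agent.KRFX

end

section

/-!
# The three circles inequality for continuous functions with the sub-mean value property
-/

open scoped ContDiff ENNReal ComplexOrder Topology
open Set MeasureTheory Filter Pool.Agent.ToricKRF Pool.Agent.ToricKRF.G Pool.Agent.KRFS
  Pool.Agent.KRFF Pool.Agent.KRFG

namespace Pool.Agent.KRFX

namespace Loc

variable {m : ℕ}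

/-- a maximum principle on compact sets -/
theorem max_le_compact {K : Set ℂ} (hK : IsCompact K) {D : ℂ → ℝ} (hD : ContinuousOn D K) {c : ℝ}
    (h : ∀ a ∈ K, D a ≤ c ∨ ∃ r > (0 : ℝ), (∀ θ : ℝ, a + (r : ℂ) * Complex.exp (θ * Complex.I) ∈ K)
      ∧ D a ≤ cavg (fun ξ => D (a + ξ)) r) : ∀ z ∈ K, D z ≤ c := by
  intro z hz
  obtain ⟨a, ha, hmax⟩ := hK.exists_isMaxOn ⟨z, hz⟩ hD
  have hmax' : ∀ z ∈ K, D z ≤ D a := fun z hz => hmax hz
  have hS : IsCompact (K ∩ D ⁻¹' {D a}) :=
    hK.of_isClosed_subset (hD.preimage_isClosed_of_isClosed hK.isClosed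
      isClosed_singleton) inter_subset_left
  obtain ⟨b, ⟨hb, hba⟩, hbmax⟩ := hS.exists_isMaxOn ⟨a, ha, rfl⟩ continuous_norm.continuousOn
  have hba' : D b = D a := hba
  have hbmax' : ∀ z ∈ K, D z = D a → ‖z‖ ≤ ‖b‖ :=
    fun z hz hz' => hbmax ⟨hz, hz'⟩
  rcases h b hb with h1 | ⟨r, hr0', hin, hr⟩
  · exact (hmax' z hz).trans (hba' ▸ h1)
  · exfalso
    have hcont : Continuous fun θ : ℝ => D (b + (r : ℂ) * Complex.exp (θ * Complex.I)) :=
      hD.comp_continuous (by fun_prop) hin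
    obtain ⟨θ, hθ, hθb⟩ := exists_angle b
    have hpos : 0 < ∫ θ in (0 : ℝ)..2 * Real.pi,
        (D a - D (b + (r : ℂ) * Complex.exp (θ * Complex.I))) := by
      refine intervalIntegral.integral_pos Real.two_pi_pos
        (continuous_const.sub hcont).continuousOn
        (fun θ _ => sub_nonneg.2 (hmax' _ (hin θ))) ⟨θ, hθ, sub_pos.2 ?_⟩
      refine lt_of_le_of_ne (hmax' _ (hin θ)) fun hne => ?_
      have h2 := hbmax' _ (hin θ) hne
      have h3 : b + (r : ℂ) * Complex.exp (θ * Complex.I) =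
          ((‖b‖ + r : ℝ) : ℂ) * Complex.exp (θ * Complex.I) := by
        nth_rewrite 1 [← hθb]
        push_cast
        ring
      rw [h3, norm_mul, Complex.norm_exp_ofReal_mul_I, mul_one, Complex.norm_real,
        Real.norm_eq_abs, abs_of_nonneg (by positivity)] at h2
      linarith
    rw [intervalIntegral.integral_sub (by simp) (hcont.intervalIntegrable _ _),
      intervalIntegral.integral_const, sub_zero, smul_eq_mul] at hpos
    unfold cavg at hr
    rw [hba'] at hr
    have h4 : 2 * Real.pi * D a ≤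
        ∫ θ in (0 : ℝ)..2 * Real.pi, D (b + (r : ℂ) * Complex.exp (θ * Complex.I)) := by
      calc 2 * Real.pi * D a ≤ 2 * Real.pi * ((2 * Real.pi)⁻¹ *
          ∫ θ in (0 : ℝ)..2 * Real.pi, D (b + (r : ℂ) * Complex.exp (θ * Complex.I))) :=
            mul_le_mul_of_nonneg_left hr Real.two_pi_pos.le
        _ = _ := by rw [← mul_assoc, mul_inv_cancel₀ Real.two_pi_pos.ne', one_mul]
    linarith

/-- the mean value of the logarithm -/
theorem cavg_log_norm {a : ℂ} {r : ℝ} (hr : 0 < r) (hra : r ≤ ‖a‖) :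
    cavg (fun ξ => Real.log ‖a + ξ‖) r = Real.log ‖a‖ := by
  have ha : 0 < ‖a‖ := hr.trans_le hra
  rw [cavg_eq]
  have h1 := circleAverage_log_norm_sub_const_eq_log_radius_add_posLog (c := (0 : ℂ)) (a := -a)
    hr.ne'
  have h2 : (fun ξ : ℂ => Real.log ‖a + ξ‖) = fun ξ => Real.log ‖ξ - -a‖ := by
    funext ξ
    rw [sub_neg_eq_add, add_comm]
  rw [h2, h1, zero_sub, neg_neg, Real.posLog_eq_log, Real.log_mul (inv_ne_zero hr.ne') ha.ne',
    Real.log_inv]
  · ring
  · rw [abs_of_nonneg (by positivity)]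
    rw [inv_mul_eq_div, le_div_iff₀ hr, one_mul]
    exact hra

/-- the Euclidean length -/
noncomputable def toE (z : Cn m) : EuclideanSpace ℝ (Fin m ⊕ Fin m) :=
  WithLp.toLp 2 (Sum.elim z.1 z.2)

theorem toE_add (a b : Cn m) : toE (a + b) = toE a + toE b := by
  unfold toE
  ext i
  rcases i with i | i <;> simp

theorem nsq_eq_norm (z : Cn m) : nsq z = ‖toE z‖ ^ 2 := by
  rw [EuclideanSpace.norm_eq, Real.sq_sqrt (by positivity), Fintype.sum_sum_type]
  unfold nsq toE
  simp [dotProduct, sq]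

theorem nsq_add_lt {a b : Cn m} {r s : ℝ} (hr : 0 ≤ r) (hs : 0 ≤ s) (ha : nsq a < r ^ 2)
    (hb : nsq b ≤ s ^ 2) : nsq (a + b) < (r + s) ^ 2 := by
  rw [nsq_eq_norm] at ha hb ⊢
  have h1 := abs_lt_of_sq_lt_sq ha hr
  have h2 := abs_le_of_sq_le_sq hb hs
  rw [abs_of_nonneg (norm_nonneg _)] at h1 h2
  have h3 := norm_add_le (toE a) (toE b)
  rw [← toE_add] at h3
  exact pow_lt_pow_left₀ (by linarith) (norm_nonneg _) two_ne_zero

theorem nsq_lineL (v : Cn m) (ζ : ℂ) : nsq (lineL v ζ) = ‖ζ‖ ^ 2 * nsq v := by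
  rw [← Complex.normSq_eq_norm_sq, Complex.normSq_apply, lineL_apply]
  unfold nsq J
  simp only [Prod.fst_add, Prod.snd_add, Prod.smul_fst, Prod.smul_snd, dotProduct_add,
    add_dotProduct, smul_dotProduct, dotProduct_smul, smul_eq_mul, neg_dotProduct, dotProduct_neg]
  rw [dotProduct_comm v.2 v.1]
  ring

/-- small discs -/
theorem PshC.small {u : Cn m → ℝ} {V : Set (Cn m)} (hu : PshC u V) {z v : Cn m} {r : ℝ}
    (hr : 0 ≤ r) (hz : ∀ ζ : ℂ, ‖ζ‖ ≤ r → line z v ζ ∈ V) :
    u z ≤ cavg (fun ζ => u (line z v ζ)) r := by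
  have h1 : ∀ ζ : ℂ, line z (r • v) ζ = line z v (r * ζ) := by
    intro ζ
    rw [line_eq, line_eq, lineL_apply, lineL_apply]
    have h2 : J (r • v) = r • J v := by
      unfold J
      ext i <;> simp
    rw [h2, smul_smul, smul_smul, Complex.re_ofReal_mul, Complex.im_ofReal_mul, mul_comm ζ.re,
      mul_comm ζ.im]
  have h2 := hu.2 z (r • v) fun ζ hζ => by
    rw [h1]
    refine hz _ ?_
    rw [norm_mul, Complex.norm_real, Real.norm_eq_abs, abs_of_nonneg hr]
    exact mul_le_of_le_one_right hr hζ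
  refine h2.trans (le_of_eq ?_)
  unfold cavg
  congr 1
  refine intervalIntegral.integral_congr fun θ _ => ?_
  simp only [h1, Complex.ofReal_one, one_mul]

theorem cont_nsq : Continuous (nsq : Cn m → ℝ) := by
  unfold nsq dotProduct
  fun_prop

theorem isCompact_ball (y : Cn m) (r : ℝ) : IsCompact {x : Cn m | nsq (x - y) ≤ r ^ 2} := by
  refine Metric.isCompact_of_isClosed_isBounded
    (isClosed_le (cont_nsq.comp (continuous_id.sub continuous_const)) continuous_const) ?_
  refine (Metric.isBounded_closedBall (x := y) (r := |r|)).subset fun x hx => ?_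
  have hx' : nsq (x - y) ≤ r ^ 2 := hx
  rw [mem_closedBall_iff_norm, Prod.norm_def, sup_le_iff]
  have hi : ∀ i, ((x - y).1 i) ^ 2 ≤ r ^ 2 ∧ ((x - y).2 i) ^ 2 ≤ r ^ 2 := by
    intro i
    have h1 : ((x - y).1 i) ^ 2 ≤ (x - y).1 ⬝ᵥ (x - y).1 := by
      unfold dotProduct
      rw [sq]
      exact Finset.single_le_sum (f := fun i => (x - y).1 i * (x - y).1 i)
        (fun j _ => mul_self_nonneg _) (Finset.mem_univ i)
    have h2 : ((x - y).2 i) ^ 2 ≤ (x - y).2 ⬝ᵥ (x - y).2 := by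
      unfold dotProduct
      rw [sq]
      exact Finset.single_le_sum (f := fun i => (x - y).2 i * (x - y).2 i)
        (fun j _ => mul_self_nonneg _) (Finset.mem_univ i)
    have h3 : 0 ≤ (x - y).1 ⬝ᵥ (x - y).1 := Finset.sum_nonneg fun j _ => mul_self_nonneg _
    have h4 : 0 ≤ (x - y).2 ⬝ᵥ (x - y).2 := Finset.sum_nonneg fun j _ => mul_self_nonneg _
    unfold nsq at hx'
    constructor <;> linarith
  constructor
  · rw [pi_norm_le_iff_of_nonneg (abs_nonneg _)]
    intro i
    rw [Real.norm_eq_abs]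
    exact sq_le_sq.1 (hi i).1
  · rw [pi_norm_le_iff_of_nonneg (abs_nonneg _)]
    intro i
    rw [Real.norm_eq_abs]
    exact sq_le_sq.1 (hi i).2

end Loc

/-- Hadamard three circles: the maximum over a ball is attained, up to `C S / log (1 / ρ)`, already
on the ball of radius `ρ / 2`. -/
theorem hadamard (m : ℕ) {L : ℝ} (hL : 1 ≤ L) : ∃ C : ℝ, 0 ≤ C ∧ ∀ (u : Cn m → ℝ) (S ρ : ℝ),
    PshC u {y : Cn m | nsq y < 49} → (∀ y, nsq y < 49 → |u y| ≤ S) → 0 < ρ → L * ρ ≤ 1 / 10 →
    ∀ y, nsq y < 36 → ∃ x, nsq (x - y) ≤ (ρ / 2) ^ 2 ∧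
      ∀ y', nsq (y' - y) ≤ (2 * L * ρ) ^ 2 → u y' ≤ u x + C * S / Real.log (1 / ρ) := by
  have hL4 : 0 ≤ Real.log (4 * L) := Real.log_nonneg (by linarith)
  refine ⟨2 * Real.log (4 * L), by positivity, fun u S ρ hu hS hρ hLρ y hy => ?_⟩
  have hρ1 : ρ ≤ 1 / 10 := by nlinarith
  have hinV : ∀ w : Cn m, nsq (w - y) ≤ 1 → nsq w < 49 := by
    intro w hw
    have h1 := Loc.nsq_add_lt (a := y) (b := w - y) (r := 6) (s := 1) (by norm_num) (by norm_num)
      (by norm_num; exact hy) (by norm_num; exact hw)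
    rw [add_sub_cancel] at h1
    norm_num at h1
    exact h1
  have hS0 : 0 ≤ S := (abs_nonneg _).trans (hS y (by linarith))
  have hlog1 : 0 < Real.log (1 / ρ) := Real.log_pos (by
    rw [lt_div_iff₀ hρ]
    linarith)
  have hlog2 : Real.log (1 / ρ) ≤ -Real.log (ρ / 2) := by
    rw [← Real.log_inv]
    refine Real.log_le_log (by positivity) ?_
    rw [inv_div]
    gcongr
    norm_num
  have hline : ∀ (w : Cn m) (ζ : ℂ), nsq w = 1 → nsq (line y w ζ - y) = ‖ζ‖ ^ 2 := by
    intro w ζ hw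
    rw [line_eq, add_sub_cancel_left, Loc.nsq_lineL, hw, mul_one]
  obtain ⟨x, hx, hmax⟩ := (Loc.isCompact_ball y (ρ / 2)).exists_isMaxOn ⟨y, by
    change nsq (y - y) ≤ _
    rw [sub_self, Loc.nsq_eq_norm]
    have : Loc.toE (0 : Cn m) = 0 := by
      unfold Loc.toE
      ext i
      rcases i with i | i <;> simp
    rw [this, norm_zero, zero_pow two_ne_zero]
    exact sq_nonneg _⟩ (hu.1.mono fun w hw => hinV w (by
      have hw' : nsq (w - y) ≤ (ρ / 2) ^ 2 := hw
      nlinarith))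
  have hx' : nsq (x - y) ≤ (ρ / 2) ^ 2 := hx
  have hmax' : ∀ w, nsq (w - y) ≤ (ρ / 2) ^ 2 → u w ≤ u x := fun w hw => hmax hw
  have hux : |u x| ≤ S := hS x (hinV x (by nlinarith))
  refine ⟨x, hx', fun y' hy' => ?_⟩
  rcases le_or_gt (nsq (y' - y)) ((ρ / 2) ^ 2) with hc | hc
  · exact (hmax' y' hc).trans (le_add_of_nonneg_right (by positivity))
  set r := √(nsq (y' - y)) with hr
  have hr2 : r ^ 2 = nsq (y' - y) := Real.sq_sqrt (by
    rw [Loc.nsq_eq_norm]
    positivity)
  have hr0 : ρ / 2 < r := by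
    have h1 : (ρ / 2) ^ 2 < r ^ 2 := by rw [hr2]; exact hc
    exact lt_of_pow_lt_pow_left₀ 2 (Real.sqrt_nonneg _) h1
  have hr1 : r ≤ 2 * L * ρ := by
    have h1 : r ^ 2 ≤ (2 * L * ρ) ^ 2 := by rw [hr2]; exact hy'
    exact le_of_sq_le_sq h1 (by positivity)
  have hrpos : 0 < r := by linarith [half_pos hρ]
  set w : Cn m := r⁻¹ • (y' - y) with hw
  have hw1 : nsq w = 1 := by
    have h1 : nsq w = (r⁻¹) ^ 2 * nsq (y' - y) := by
      rw [hw]
      unfold nsq
      simp only [Prod.smul_fst, Prod.smul_snd, smul_dotProduct, dotProduct_smul, smul_eq_mul]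
      ring
    rw [h1, ← hr2]
    field_simp
  have hyw : line y w (r : ℂ) = y' := by
    rw [line_eq, lineL_apply, Complex.ofReal_re, Complex.ofReal_im, zero_smul, add_zero, hw,
      smul_smul, mul_inv_cancel₀ hrpos.ne', one_smul, add_sub_cancel]
  set β := (S - u x) / (-Real.log (ρ / 2)) with hβ
  have hlog3 : 0 < -Real.log (ρ / 2) := hlog1.trans_le hlog2
  have hβ0 : 0 ≤ β := div_nonneg (by linarith [(abs_le.1 hux).2]) hlog3.le
  have hβ1 : β ≤ 2 * S / Real.log (1 / ρ) := by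
    refine (div_le_div_of_nonneg_right (c := -Real.log (ρ / 2)) (b := 2 * S) ?_ hlog3.le).trans ?_
    · linarith [(abs_le.1 hux).1]
    · exact div_le_div_of_nonneg_left (by positivity) hlog1 hlog2
  set K : Set ℂ := {ζ : ℂ | ρ / 2 ≤ ‖ζ‖ ∧ ‖ζ‖ ≤ 1} with hK
  have hKc : IsCompact K := by
    refine (isCompact_closedBall (0 : ℂ) 1).of_isClosed_subset ?_ ?_
    · exact (isClosed_le continuous_const continuous_norm).inter
        (isClosed_le continuous_norm continuous_const)
    · intro ζ hζ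
      simpa using hζ.2
  have hKV : ∀ ζ : ℂ, ‖ζ‖ ≤ 1 → line y w ζ ∈ {y : Cn m | nsq y < 49} := by
    intro ζ hζ
    refine hinV _ ?_
    rw [hline w ζ hw1]
    exact pow_le_one₀ (norm_nonneg _) hζ
  have hne : ∀ ζ ∈ K, ‖ζ‖ ≠ 0 := fun ζ hζ => (lt_of_lt_of_le (half_pos hρ) hζ.1).ne'
  have huK : ContinuousOn (fun ζ : ℂ => u (line y w ζ)) (Metric.closedBall 0 1) :=
    hu.1.comp (contDiff_line y w).continuous.continuousOn fun ζ hζ => hKV ζ (by simpa using hζ)
  have hlK : ContinuousOn (fun ζ : ℂ => Real.log ‖ζ‖) K :=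
    continuous_norm.continuousOn.log hne
  have hmain := Loc.max_le_compact hKc
    (D := fun ζ => u (line y w ζ) - β * (Real.log ‖ζ‖ - Real.log (ρ / 2))) (c := u x)
    ((huK.mono fun ζ hζ => by simpa using hζ.2).sub
      (continuousOn_const.mul (hlK.sub continuousOn_const))) (by
    intro a ha
    rcases ha.1.eq_or_lt with h1 | h1
    · left
      change u (line y w a) - β * (Real.log ‖a‖ - Real.log (ρ / 2)) ≤ u x
      rw [← h1, sub_self, mul_zero, sub_zero]
      refine hmax' _ ?_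
      rw [hline w a hw1, ← h1]
    rcases ha.2.eq_or_lt with h2 | h2
    · left
      change u (line y w a) - β * (Real.log ‖a‖ - Real.log (ρ / 2)) ≤ u x
      have h3 : β * (Real.log ‖a‖ - Real.log (ρ / 2)) = S - u x := by
        rw [h2, Real.log_one, zero_sub, hβ, div_mul_cancel₀ _ hlog3.ne']
      rw [h3]
      have h4 := (abs_le.1 (hS (line y w a) (hKV a ha.2))).2
      linarith
    · right
      set r' := min (‖a‖ - ρ / 2) (1 - ‖a‖) with hr'
      have hr'0 : 0 < r' := lt_min (sub_pos.2 h1) (sub_pos.2 h2)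
      have hr'1 : r' ≤ ‖a‖ - ρ / 2 := min_le_left _ _
      have hr'2 : r' ≤ 1 - ‖a‖ := min_le_right _ _
      have hnr : ∀ θ : ℝ, ‖(r' : ℂ) * Complex.exp (θ * Complex.I)‖ = r' := by
        intro θ
        rw [norm_mul, Complex.norm_exp_ofReal_mul_I, mul_one, Complex.norm_real,
          Real.norm_eq_abs, abs_of_pos hr'0]
      have hin : ∀ θ : ℝ, a + (r' : ℂ) * Complex.exp (θ * Complex.I) ∈ K := by
        intro θ
        have h3 := norm_add_le a ((r' : ℂ) * Complex.exp (θ * Complex.I))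
        have h4 := norm_sub_le (a + (r' : ℂ) * Complex.exp (θ * Complex.I))
          ((r' : ℂ) * Complex.exp (θ * Complex.I))
        rw [add_sub_cancel_right] at h4
        rw [hnr] at h3 h4
        exact ⟨by linarith, by linarith⟩
      refine ⟨r', hr'0, hin, ?_⟩
      have hc1 : Continuous fun θ : ℝ =>
          u (line y w (a + (r' : ℂ) * Complex.exp (θ * Complex.I))) :=
        huK.comp_continuous (by fun_prop) fun θ => by simpa using (hin θ).2
      have hc2 : Continuous fun θ : ℝ =>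
          Real.log ‖a + (r' : ℂ) * Complex.exp (θ * Complex.I)‖ :=
        hlK.comp_continuous (by fun_prop) hin
      have h3 : cavg (fun ξ => u (line y w (a + ξ)) -
          β * (Real.log ‖a + ξ‖ - Real.log (ρ / 2))) r' =
          cavg (fun ξ => u (line y w (a + ξ))) r' -
            β * (cavg (fun ξ => Real.log ‖a + ξ‖) r' - Real.log (ρ / 2)) := by
        unfold cavg
        have hc3 : Continuous fun θ : ℝ =>
            β * (Real.log ‖a + (r' : ℂ) * Complex.exp (θ * Complex.I)‖ - Real.log (ρ / 2)) :=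
          continuous_const.mul (hc2.sub continuous_const)
        rw [intervalIntegral.integral_sub (hc1.intervalIntegrable _ _)
          (hc3.intervalIntegrable _ _),
          intervalIntegral.integral_const_mul,
          intervalIntegral.integral_sub (hc2.intervalIntegrable _ _) (by simp),
          intervalIntegral.integral_const, sub_zero, smul_eq_mul]
        have hpi : (2 * Real.pi)⁻¹ * (2 * Real.pi) = 1 := inv_mul_cancel₀ Real.two_pi_pos.ne'
        linear_combination (β * Real.log (ρ / 2)) * hpi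
      rw [h3, Loc.cavg_log_norm hr'0 (by linarith [half_pos hρ])]
      have h4 := Loc.PshC.small hu (z := line y w a) (v := w) hr'0.le (by
        intro ζ hζ
        have h5 : line (line y w a) w ζ = line y w (a + ζ) := by
          rw [line_add, line_eq (line y w a) w ζ]
        rw [h5]
        refine hKV _ ?_
        have := norm_add_le a ζ
        linarith)
      have h6 : (fun ζ => u (line (line y w a) w ζ)) = fun ξ => u (line y w (a + ξ)) := by
        funext ξ
        rw [line_add, line_eq (line y w a) w ξ]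
      rw [h6] at h4
      exact sub_le_sub_right h4 _) (r : ℂ) (by
    have h1 : ‖(r : ℂ)‖ = r := by rw [Complex.norm_real, Real.norm_eq_abs, abs_of_pos hrpos]
    exact ⟨by rw [h1]; exact hr0.le, by rw [h1]; linarith⟩)
  have hmain' : u y' - β * (Real.log r - Real.log (ρ / 2)) ≤ u x := by
    have h1 : ‖(r : ℂ)‖ = r := by rw [Complex.norm_real, Real.norm_eq_abs, abs_of_pos hrpos]
    have h2 : u (line y w (r : ℂ)) - β * (Real.log ‖(r : ℂ)‖ - Real.log (ρ / 2)) ≤ u x := hmain
    rw [hyw, h1] at h2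
    exact h2
  have hlr : Real.log r - Real.log (ρ / 2) ≤ Real.log (4 * L) := by
    rw [← Real.log_div hrpos.ne' (half_pos hρ).ne']
    refine Real.log_le_log (by positivity) ?_
    rw [div_le_iff₀ (half_pos hρ)]
    linarith
  have h5 : β * (Real.log r - Real.log (ρ / 2)) ≤ β * Real.log (4 * L) :=
    mul_le_mul_of_nonneg_left hlr hβ0
  have h6 : β * Real.log (4 * L) ≤ 2 * S / Real.log (1 / ρ) * Real.log (4 * L) :=
    mul_le_mul_of_nonneg_right hβ1 hL4
  have h7 : 2 * S / Real.log (1 / ρ) * Real.log (4 * L) =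
      2 * Real.log (4 * L) * S / Real.log (1 / ρ) := by ring
  linarith

end Pool.Agent.KRFX

end

section

/-!
# The oscillation of entire functions of logarithmic growth

A continuous bounded function on `ℂ` which is subharmonic up to `A log (1 + |s|²)`, outside of a
discrete set, and which is almost constant on a disc of radius `r'`, is bounded by its value there plus
`2 A log (1 / r')`.
-/

open scoped ContDiff ENNReal ComplexOrder Topology
open Set MeasureTheory Filter Pool.Agent.ToricKRF Pool.Agent.ToricKRF.G Pool.Agent.KRFS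
  Pool.Agent.KRFF Pool.Agent.KRFG

namespace Pool.Agent.KRFHk

theorem cavg_add {F G : ℂ → ℝ} {ρ : ℝ}
    (hF : Continuous fun θ : ℝ => F ((ρ : ℂ) * Complex.exp (θ * Complex.I)))
    (hG : Continuous fun θ : ℝ => G ((ρ : ℂ) * Complex.exp (θ * Complex.I))) :
    cavg (fun ζ => F ζ + G ζ) ρ = cavg F ρ + cavg G ρ := by
  unfold cavg
  rw [intervalIntegral.integral_add (hF.intervalIntegrable _ _) (hG.intervalIntegrable _ _), mul_add]

theorem cavg_mul_left (c : ℝ) (F : ℂ → ℝ) (ρ : ℝ) :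
    cavg (fun ζ => c * F ζ) ρ = c * cavg F ρ := by
  unfold cavg
  rw [intervalIntegral.integral_const_mul]
  ring

theorem cavg_const' (c : ℝ) (ρ : ℝ) : cavg (fun _ => c) ρ = c := by
  unfold cavg
  rw [intervalIntegral.integral_const, sub_zero, smul_eq_mul, ← mul_assoc,
    inv_mul_cancel₀ Real.two_pi_pos.ne', one_mul]

theorem cavg_mono' {F G : ℂ → ℝ} {ρ : ℝ}
    (hF : Continuous fun θ : ℝ => F ((ρ : ℂ) * Complex.exp (θ * Complex.I)))
    (hG : Continuous fun θ : ℝ => G ((ρ : ℂ) * Complex.exp (θ * Complex.I)))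
    (h : ∀ θ : ℝ, F ((ρ : ℂ) * Complex.exp (θ * Complex.I)) ≤
      G ((ρ : ℂ) * Complex.exp (θ * Complex.I))) : cavg F ρ ≤ cavg G ρ := by
  unfold cavg
  refine mul_le_mul_of_nonneg_left ?_ (inv_nonneg.2 Real.two_pi_pos.le)
  exact intervalIntegral.integral_mono_on Real.two_pi_pos.le (hF.intervalIntegrable _ _)
    (hG.intervalIntegrable _ _) fun θ _ => h θ

theorem cavg_sum {ι : Type*} (T : Finset ι) {F : ι → ℂ → ℝ} {ρ : ℝ}
    (hF : ∀ i ∈ T, Continuous fun θ : ℝ => F i ((ρ : ℂ) * Complex.exp (θ * Complex.I))) :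
    cavg (fun ζ => ∑ i ∈ T, F i ζ) ρ = ∑ i ∈ T, cavg (F i) ρ := by
  unfold cavg
  rw [intervalIntegral.integral_finsetSum fun i hi => (hF i hi).intervalIntegrable _ _,
    Finset.mul_sum]

theorem norm_circle {ρ : ℝ} (hρ : 0 ≤ ρ) (θ : ℝ) :
    ‖(ρ : ℂ) * Complex.exp (θ * Complex.I)‖ = ρ := by
  rw [norm_mul, Complex.norm_exp_ofReal_mul_I, mul_one, Complex.norm_real, Real.norm_of_nonneg hρ]

/-- the mean value property of `log (|ζ - e| / b)` -/
theorem cavg_log_div {a e : ℂ} {ρ b : ℝ} (hρ : 0 < ρ) (h : ρ < ‖a - e‖) (hb : 0 < b) :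
    cavg (fun ξ => Real.log (‖a + ξ - e‖ / b)) ρ = Real.log (‖a - e‖ / b) := by
  have h0 : 0 < ‖a - e‖ := hρ.trans h
  have hne : ∀ θ : ℝ, ‖a - e + (ρ : ℂ) * Complex.exp (θ * Complex.I)‖ ≠ 0 := fun θ h1 => by
    have h2 := norm_sub_norm_le (a - e) (-((ρ : ℂ) * Complex.exp (θ * Complex.I)))
    rw [norm_neg, sub_neg_eq_add, h1, norm_circle hρ.le] at h2
    linarith
  have h3 : cavg (fun ξ => Real.log (‖a + ξ - e‖ / b)) ρ =
      cavg (fun ξ => Real.log ‖a - e + ξ‖ + -Real.log b) ρ := by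
    unfold cavg
    congr 1
    refine intervalIntegral.integral_congr fun θ _ => ?_
    have h4 : a + (ρ : ℂ) * Complex.exp (θ * Complex.I) - e =
        a - e + (ρ : ℂ) * Complex.exp (θ * Complex.I) := by ring
    show Real.log (‖a + (ρ : ℂ) * Complex.exp (θ * Complex.I) - e‖ / b) = _
    rw [h4, Real.log_div (hne θ) hb.ne']
    rfl
  have h5 : Continuous fun θ : ℝ =>
      Real.log ‖a - e + (ρ : ℂ) * Complex.exp (θ * Complex.I)‖ :=
    Continuous.log (by fun_prop) hne
  rw [h3, cavg_add (F := fun ξ => Real.log ‖a - e + ξ‖) (G := fun _ => -Real.log b) h5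
    continuous_const, KRFX.Loc.cavg_log_norm hρ h.le, cavg_const', Real.log_div h0.ne' hb.ne']
  ring

/-- The maximum principle on an annulus for a continuous function which is subharmonic outside of a
finite set. -/
theorem max_annulus {w : ℂ → ℝ} {r R : ℝ} (hr : 0 < r) (hrR : r ≤ R)
    (hw : ContinuousOn w {ζ | r ≤ ‖ζ‖ ∧ ‖ζ‖ ≤ R})
    {S : Set ℂ} (hS : (S ∩ Metric.closedBall 0 R).Finite)
    (hs : ∀ ζ₀, r < ‖ζ₀‖ → ‖ζ₀‖ < R → ζ₀ ∉ S → ∀ᶠ s in 𝓝[>] (0 : ℝ),
      w ζ₀ ≤ cavg (fun ζ => w (ζ₀ + ζ)) s)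
    (hA : ∀ ζ, ‖ζ‖ = r → w ζ ≤ 0) (hB : ∀ ζ, ‖ζ‖ = R → w ζ ≤ 0) {ζ : ℂ} (h1 : r ≤ ‖ζ‖)
    (h2 : ‖ζ‖ ≤ R) : w ζ ≤ 0 := by
  classical
  have hR : 0 < R := hr.trans_le hrR
  have hAcl : IsClosed {ζ : ℂ | r ≤ ‖ζ‖ ∧ ‖ζ‖ ≤ R} :=
    (isClosed_le continuous_const continuous_norm).inter
      (isClosed_le continuous_norm continuous_const)
  have hAc : IsCompact {ζ : ℂ | r ≤ ‖ζ‖ ∧ ‖ζ‖ ≤ R} :=
    (isCompact_closedBall (0 : ℂ) R).of_isClosed_subset hAcl fun a ha =>
      mem_closedBall_zero_iff.2 ha.2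
  obtain ⟨M₀, hM₀⟩ := hAc.bddAbove_image hw
  have hM : ∀ a : ℂ, r ≤ ‖a‖ → ‖a‖ ≤ R → w a ≤ max M₀ 0 := fun a ha ha' =>
    (hM₀ (mem_image_of_mem _ (show a ∈ {ζ : ℂ | r ≤ ‖ζ‖ ∧ ‖ζ‖ ≤ R} from ⟨ha, ha'⟩))).trans
      (le_max_left _ _)
  set M := max M₀ 0 with hMdef
  have hM0 : 0 ≤ M := le_max_right _ _
  set T := hS.toFinset with hT
  have hmemT : ∀ e, e ∈ T ↔ e ∈ S ∧ ‖e‖ ≤ R := fun e => by
    rw [hT, Set.Finite.mem_toFinset, Set.mem_inter_iff, mem_closedBall_zero_iff]
  -- the barrier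
  set Lg : ℂ → ℝ := fun a => ∑ e ∈ T, Real.log (‖a - e‖ / (2 * R)) with hLg
  have h2R : 0 < 2 * R := by linarith
  have hterm : ∀ a : ℂ, ‖a‖ ≤ R → ∀ e ∈ T, Real.log (‖a - e‖ / (2 * R)) ≤ 0 := fun a ha e he => by
    refine Real.log_nonpos (by positivity) ?_
    rw [div_le_one h2R]
    calc ‖a - e‖ ≤ ‖a‖ + ‖e‖ := norm_sub_le _ _
      _ ≤ 2 * R := by linarith [((hmemT e).1 he).2]
  have hLg0 : ∀ a : ℂ, ‖a‖ ≤ R → Lg a ≤ 0 := fun a ha => Finset.sum_nonpos (hterm a ha)
  -- points outside of the exceptional set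
  have key : ∀ ζ : ℂ, r ≤ ‖ζ‖ → ‖ζ‖ ≤ R → ζ ∉ S → ∀ ε > (0 : ℝ), w ζ + ε * Lg ζ ≤ 0 := by
    intro ζ h1 h2 hζS ε hε
    obtain ⟨η₀, hη₀, hη₀'⟩ : ∃ η₀ > (0 : ℝ), ∀ e ∈ T, η₀ ≤ ‖ζ - e‖ := by
      have hfin : ∀ T' : Finset ℂ, (∀ e ∈ T', ζ ≠ e) → ∃ η₀ > (0 : ℝ), ∀ e ∈ T', η₀ ≤ ‖ζ - e‖ := by
        intro T'
        induction T' using Finset.induction with
        | empty => exact fun _ => ⟨1, one_pos, by simp⟩
        | insert a T' ha ih =>
          intro h
          obtain ⟨η, hη, hη'⟩ := ih fun e he => h e (Finset.mem_insert_of_mem he)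
          refine ⟨min η ‖ζ - a‖, lt_min hη (norm_pos_iff.2 (sub_ne_zero.2
            (h a (Finset.mem_insert_self _ _)))), fun e he => ?_⟩
          rcases Finset.mem_insert.1 he with rfl | he
          · exact min_le_right _ _
          · exact (min_le_left _ _).trans (hη' e he)
      exact hfin T fun e he h => hζS (h ▸ ((hmemT e).1 he).1)
    set η : ℝ := min η₀ (2 * R * Real.exp (-(M / ε))) with hη
    have hηpos : 0 < η := lt_min hη₀ (by positivity)
    set K : Set ℂ := {a | (r ≤ ‖a‖ ∧ ‖a‖ ≤ R) ∧ ∀ e ∈ T, η / 2 ≤ ‖a - e‖} with hK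
    have hKcl : IsClosed K := by
      have h3 : K = ({a | r ≤ ‖a‖} ∩ {a | ‖a‖ ≤ R}) ∩ ⋂ e ∈ T, {a | η / 2 ≤ ‖a - e‖} := by
        ext a
        simp [hK]
      rw [h3]
      refine ((isClosed_le continuous_const continuous_norm).inter
        (isClosed_le continuous_norm continuous_const)).inter ?_
      exact isClosed_biInter fun e _ => isClosed_le continuous_const (by fun_prop)
    have hKc : IsCompact K := (isCompact_closedBall (0 : ℂ) R).of_isClosed_subset hKcl fun a ha =>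
      mem_closedBall_zero_iff.2 ha.1.2
    have hpos : ∀ a ∈ K, ∀ e ∈ T, 0 < ‖a - e‖ := fun a ha e he =>
      (half_pos hηpos).trans_le (ha.2 e he)
    have hDc : ContinuousOn (fun a => w a + ε * Lg a) K := by
      refine (hw.mono fun a ha => ha.1).add (continuousOn_const.mul ?_)
      refine continuousOn_finsetSum _ fun e he => ?_
      refine ContinuousOn.log (by fun_prop) fun a ha => ?_
      exact (div_pos (hpos a ha e he) h2R).ne'
    refine KRFX.Loc.max_le_compact hKc hDc (c := 0) ?_ ζ ⟨⟨h1, h2⟩, fun e he => ?_⟩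
    · intro a ha
      by_cases hnear : ∃ e ∈ T, ‖a - e‖ < η
      · obtain ⟨e, he, hae⟩ := hnear
        left
        have h4 : Lg a ≤ Real.log (‖a - e‖ / (2 * R)) := by
          rw [hLg]
          show ∑ e ∈ T, Real.log (‖a - e‖ / (2 * R)) ≤ _
          rw [← Finset.add_sum_erase T _ he]
          have := Finset.sum_nonpos (s := T.erase e)
            (f := fun e => Real.log (‖a - e‖ / (2 * R)))
            fun e' he' => hterm a ha.1.2 e' (Finset.mem_of_mem_erase he')
          linarith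
        have h5 : Real.log (‖a - e‖ / (2 * R)) ≤ -(M / ε) := by
          rw [Real.log_le_iff_le_exp (div_pos (hpos a ha e he) h2R), div_le_iff₀ h2R]
          calc ‖a - e‖ ≤ η := hae.le
            _ ≤ 2 * R * Real.exp (-(M / ε)) := min_le_right _ _
            _ = _ := by ring
        have h6 : ε * Lg a ≤ -M := by
          calc ε * Lg a ≤ ε * (-(M / ε)) := mul_le_mul_of_nonneg_left (h4.trans h5) hε.le
            _ = -M := by field_simp
        have h7 := hM a ha.1.1 ha.1.2
        show w a + ε * Lg a ≤ 0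
        linarith
      · push Not at hnear
        by_cases hra : ‖a‖ = r
        · left
          show w a + ε * Lg a ≤ 0
          nlinarith [hA a hra, hLg0 a ha.1.2]
        by_cases hRa : ‖a‖ = R
        · left
          show w a + ε * Lg a ≤ 0
          nlinarith [hB a hRa, hLg0 a ha.1.2]
        right
        have h3 : r < ‖a‖ := lt_of_le_of_ne ha.1.1 (Ne.symm hra)
        have h4 : ‖a‖ < R := lt_of_le_of_ne ha.1.2 hRa
        have haS : a ∉ S := fun h => by
          have h5 := hnear a ((hmemT a).2 ⟨h, h4.le⟩)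
          rw [sub_self, norm_zero] at h5
          linarith
        have hev : ∀ᶠ s in 𝓝[>] (0 : ℝ), s < min (min (‖a‖ - r) (R - ‖a‖)) (η / 2) :=
          (eventually_lt_nhds (lt_min (lt_min (by linarith) (by linarith))
            (half_pos hηpos))).filter_mono nhdsWithin_le_nhds
        obtain ⟨s, ⟨hs1, hs2⟩, hs3⟩ := ((hs a h3 h4 haS).and hev |>.and self_mem_nhdsWithin).exists
        have hs3' : 0 < s := hs3
        have hs4 : s < ‖a‖ - r := hs2.trans_le ((min_le_left _ _).trans (min_le_left _ _))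
        have hs5 : s < R - ‖a‖ := hs2.trans_le ((min_le_left _ _).trans (min_le_right _ _))
        have hs6 : s < η / 2 := hs2.trans_le (min_le_right _ _)
        have hin : ∀ θ : ℝ, a + (s : ℂ) * Complex.exp (θ * Complex.I) ∈ K := by
          intro θ
          have h5 := norm_circle hs3'.le θ
          refine ⟨⟨?_, ?_⟩, fun e he => ?_⟩
          · have h6 := norm_sub_norm_le a (-((s : ℂ) * Complex.exp (θ * Complex.I)))
            rw [norm_neg, sub_neg_eq_add, h5] at h6
            linarith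
          · have h6 := norm_add_le a ((s : ℂ) * Complex.exp (θ * Complex.I))
            rw [h5] at h6
            linarith
          · have h6 := norm_sub_norm_le (a - e) (-((s : ℂ) * Complex.exp (θ * Complex.I)))
            rw [norm_neg, sub_neg_eq_add, h5] at h6
            have h7 := hnear e he
            have h8 : a + (s : ℂ) * Complex.exp (θ * Complex.I) - e =
              a - e + (s : ℂ) * Complex.exp (θ * Complex.I) := by ring
            rw [h8]
            linarith
        refine ⟨s, hs3', hin, ?_⟩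
        have hcw : Continuous fun θ : ℝ => w (a + (s : ℂ) * Complex.exp (θ * Complex.I)) :=
          hw.comp_continuous (by fun_prop) fun θ => (hin θ).1
        have hce : ∀ e ∈ T, Continuous fun θ : ℝ =>
            Real.log (‖a + (s : ℂ) * Complex.exp (θ * Complex.I) - e‖ / (2 * R)) := fun e he =>
          Continuous.log (by fun_prop) fun θ => (div_pos (hpos _ (hin θ) e he) h2R).ne'
        have hcL : Continuous fun θ : ℝ =>
            ε * Lg (a + (s : ℂ) * Complex.exp (θ * Complex.I)) :=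
          continuous_const.mul (continuous_finsetSum _ hce)
        rw [cavg_add (F := fun ξ => w (a + ξ)) (G := fun ξ => ε * Lg (a + ξ)) hcw hcL,
          cavg_mul_left]
        have h9 : cavg (fun ξ => Lg (a + ξ)) s = Lg a := by
          rw [hLg]
          rw [cavg_sum T (F := fun e ξ => Real.log (‖a + ξ - e‖ / (2 * R))) hce]
          refine Finset.sum_congr rfl fun e he => ?_
          exact cavg_log_div hs3' (by linarith [hnear e he]) h2R
        rw [h9]
        linarith
    · exact (half_le_self hηpos.le).trans ((min_le_left _ _).trans (hη₀' e he))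
  have key2 : ∀ ζ : ℂ, r ≤ ‖ζ‖ → ‖ζ‖ ≤ R → ζ ∉ S → w ζ ≤ 0 := by
    intro ζ h1 h2 hζS
    have h3 := hLg0 ζ h2
    by_contra h4
    push Not at h4
    have h5 := key ζ h1 h2 hζS (w ζ / (2 * (1 - Lg ζ))) (by apply div_pos h4; linarith)
    have h6 : w ζ / (2 * (1 - Lg ζ)) * Lg ζ ≥ -(w ζ / 2) := by
      rw [ge_iff_le, neg_le_iff_add_nonneg]
      have h7 : w ζ / (2 * (1 - Lg ζ)) * Lg ζ + w ζ / 2 = w ζ / (2 * (1 - Lg ζ)) := by
        have : (1 - Lg ζ) ≠ 0 := by linarith
        field_simp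
        ring
      rw [h7]
      apply div_nonneg h4.le
      linarith
    linarith
  by_cases hζS : ζ ∈ S
  · by_contra h4
    push Not at h4
    by_cases hra : ‖ζ‖ = r
    · exact absurd (hA ζ hra) (not_le.2 h4)
    by_cases hRa : ‖ζ‖ = R
    · exact absurd (hB ζ hRa) (not_le.2 h4)
    have h3 : r < ‖ζ‖ := lt_of_le_of_ne h1 (Ne.symm hra)
    have h5 : ‖ζ‖ < R := lt_of_le_of_ne h2 hRa
    have hU : {a : ℂ | r < ‖a‖ ∧ ‖a‖ < R ∧ 0 < w a} ∈ 𝓝 ζ := by
      have ho : IsOpen {a : ℂ | r < ‖a‖ ∧ ‖a‖ < R} :=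
        (isOpen_lt continuous_const continuous_norm).inter
          (isOpen_lt continuous_norm continuous_const)
      have hsubs : {a : ℂ | r < ‖a‖ ∧ ‖a‖ < R} ⊆ {ζ : ℂ | r ≤ ‖ζ‖ ∧ ‖ζ‖ ≤ R} := fun a ha =>
        ⟨ha.1.le, ha.2.le⟩
      have h6 := (hw.mono hsubs).isOpen_inter_preimage ho (isOpen_Ioi (a := (0 : ℝ)))
      exact Filter.mem_of_superset (h6.mem_nhds ⟨⟨h3, h5⟩, h4⟩) fun a ha => ⟨ha.1.1, ha.1.2, ha.2⟩
    have hinf : {a : ℂ | r < ‖a‖ ∧ ‖a‖ < R ∧ 0 < w a}.Infinite := infinite_of_mem_nhds ζ hU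
    refine hinf (hS.subset fun a ha => ⟨?_, mem_closedBall_zero_iff.2 ha.2.1.le⟩)
    by_contra haS
    exact absurd (key2 a ha.1.le ha.2.1.le haS) (not_le.2 ha.2.2)
  · exact key2 ζ h1 h2 hζS

/-- three circles, with an exceptional set -/
theorem three_circles_off {g : ℂ → ℝ} {r R A B : ℝ} (hr : 0 < r) (hrR : r < R)
    (hg : Continuous g) {S : Set ℂ} (hS : (S ∩ Metric.closedBall 0 R).Finite)
    (hs : ∀ ζ₀ ∉ S, ∀ᶠ s in 𝓝[>] (0 : ℝ), g ζ₀ ≤ cavg (fun ζ => g (ζ₀ + ζ)) s)
    (hA : ∀ ζ, ‖ζ‖ = r → g ζ ≤ A) (hB : ∀ ζ, ‖ζ‖ = R → g ζ ≤ B) {ζ : ℂ} (h1 : r ≤ ‖ζ‖)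
    (h2 : ‖ζ‖ ≤ R) :
    g ζ ≤ A + (B - A) * (Real.log (‖ζ‖ / r) / Real.log (R / r)) := by
  have hR : 0 < R := hr.trans hrR
  have hl : 0 < Real.log (R / r) := Real.log_pos (by rw [one_lt_div hr]; exact hrR)
  set κ := (B - A) / Real.log (R / r) with hκ
  have hlogc : ContinuousOn (fun ζ : ℂ => Real.log (‖ζ‖ / r)) {ζ | r ≤ ‖ζ‖ ∧ ‖ζ‖ ≤ R} := by
    refine ContinuousOn.log (by fun_prop) fun a ha => ?_
    exact (div_pos (hr.trans_le ha.1) hr).ne'
  have key := max_annulus (w := fun ζ => g ζ + (-κ) * Real.log (‖ζ‖ / r) + (-A)) hr hrR.le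
    ((hg.continuousOn.add (continuousOn_const.mul hlogc)).add continuousOn_const) hS
    (fun ζ₀ hr0 hR0 hζS => ?_) (fun ζ hζ => ?_) (fun ζ hζ => ?_) h1 h2
  · have e : (B - A) * (Real.log (‖ζ‖ / r) / Real.log (R / r)) =
        κ * Real.log (‖ζ‖ / r) := by rw [hκ]; ring
    rw [e]
    have : g ζ + (-κ) * Real.log (‖ζ‖ / r) + (-A) ≤ 0 := key
    linarith
  · have hev : ∀ᶠ s in 𝓝[>] (0 : ℝ), s < ‖ζ₀‖ - r :=
      (eventually_lt_nhds (by linarith)).filter_mono nhdsWithin_le_nhds
    filter_upwards [hs ζ₀ hζS, hev, self_mem_nhdsWithin] with s hs1 hs2 hs3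
    have hs3' : 0 < s := hs3
    have hζ0 : s < ‖ζ₀ - 0‖ := by rw [sub_zero]; linarith
    have hne : ∀ θ : ℝ, ‖ζ₀ + (s : ℂ) * Complex.exp (θ * Complex.I)‖ / r ≠ 0 := fun θ => by
      have h6 := norm_sub_norm_le ζ₀ (-((s : ℂ) * Complex.exp (θ * Complex.I)))
      rw [norm_neg, sub_neg_eq_add, norm_circle hs3'.le] at h6
      exact (div_pos (by linarith) hr).ne'
    have hlc : Continuous fun θ : ℝ =>
        (-κ) * Real.log (‖ζ₀ + (s : ℂ) * Complex.exp (θ * Complex.I)‖ / r) :=
      continuous_const.mul (Continuous.log (by fun_prop) hne)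
    have hgc : Continuous fun θ : ℝ => g (ζ₀ + (s : ℂ) * Complex.exp (θ * Complex.I)) := by
      fun_prop
    have h7 := cavg_log_div (a := ζ₀) (e := 0) (b := r) hs3' hζ0 hr
    simp only [sub_zero] at h7
    rw [cavg_add (F := fun ξ => g (ζ₀ + ξ) + (-κ) * Real.log (‖ζ₀ + ξ‖ / r)) (G := fun _ => -A)
      (hgc.add hlc) continuous_const, cavg_add (F := fun ξ => g (ζ₀ + ξ))
      (G := fun ξ => (-κ) * Real.log (‖ζ₀ + ξ‖ / r)) hgc hlc, cavg_const', cavg_mul_left, h7]
    linarith
  · show g ζ + (-κ) * Real.log (‖ζ‖ / r) + (-A) ≤ 0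
    rw [hζ, div_self hr.ne', Real.log_one]
    linarith [hA ζ hζ]
  · show g ζ + (-κ) * Real.log (‖ζ‖ / r) + (-A) ≤ 0
    rw [hζ]
    have : κ * Real.log (R / r) = B - A := by rw [hκ]; field_simp
    have e := hB ζ hζ
    linarith

/-- **Growth**: helper86's lemma with an exceptional set. -/
theorem growth_off {U : ℂ → ℝ} {A S : ℝ} (hU : Continuous U) (hA : 0 ≤ A) (hS : ∀ s, U s ≤ S)
    {E : Set ℂ} (hE : ∀ R : ℝ, (E ∩ Metric.closedBall 0 R).Finite)
    (hsub : ∀ z ∉ E, ∀ᶠ s in 𝓝[>] (0 : ℝ), U z + A * Real.log (1 + ‖z‖ ^ 2) ≤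
      cavg (fun ζ => U (z + ζ) + A * Real.log (1 + ‖z + ζ‖ ^ 2)) s)
    {a : ℂ} (ha : ‖a‖ ≤ 1) {r B : ℝ} (hr : 0 < r) (hr1 : r ≤ 1)
    (hB : ∀ s, ‖s - a‖ = r → U s ≤ B) {s : ℂ} (hs1 : r ≤ ‖s - a‖) (hs : ‖s - a‖ ≤ 2) :
    U s ≤ B + A * (4 + 2 * Real.log (1 / r)) := by
  have h5 : Real.log 5 ≤ 2 := by
    have h := Real.exp_one_gt_d9
    have h1 : (5 : ℝ) ≤ Real.exp 2 := by
      have : Real.exp 2 = Real.exp 1 * Real.exp 1 := by rw [← Real.exp_add]; norm_num
      rw [this]
      nlinarith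
    calc Real.log 5 ≤ Real.log (Real.exp 2) := Real.log_le_log (by norm_num) h1
      _ = 2 := Real.log_exp 2
  have h2 : Real.log 2 ≤ 1 := by
    have := Real.log_two_lt_d9
    linarith
  have hlr : 0 ≤ Real.log (1 / r) := Real.log_nonneg (by rw [one_le_div hr]; exact hr1)
  have hcont : Continuous fun z : ℂ => U z + A * Real.log (1 + ‖z‖ ^ 2) := by
    refine hU.add (continuous_const.mul ?_)
    refine Continuous.log (by fun_prop) fun z => ?_
    positivity
  set ζ := s - a with hζ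
  have hEa : ∀ R : ℝ, ({z : ℂ | a + z ∈ E} ∩ Metric.closedBall 0 R).Finite := fun R => by
    refine Set.Finite.of_finite_image ((hE (R + 1)).subset ?_)
      (f := fun z => a + z) (fun x _ y _ h => add_left_cancel h)
    rintro _ ⟨z, ⟨hz, hz'⟩, rfl⟩
    refine ⟨hz, mem_closedBall_zero_iff.2 ?_⟩
    have := mem_closedBall_zero_iff.1 hz'
    exact (norm_add_le _ _).trans (by linarith)
  -- the bound with the outer radius `R`
  have hR : ∀ R : ℝ, 2 < R → U s ≤ B + 2 * A +
      ((|S - B| / Real.log R + 2 * A) * (Real.log 2 + Real.log (1 / r))) := by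
    intro R hR
    have hR0 : 0 < R := by linarith
    have hlR : 0 < Real.log R := Real.log_pos (by linarith)
    have hrR : r < R := by linarith
    have hk := three_circles_off (g := fun ξ => U (a + ξ) + A * Real.log (1 + ‖a + ξ‖ ^ 2))
      (r := r) (R := R) (A := B + 2 * A) (B := S + A * (2 + 2 * Real.log R)) hr hrR
      (hcont.comp (continuous_const.add continuous_id)) (hEa R) ?_ ?_ ?_ (ζ := ζ) hs1
      (by linarith)
    · have hlog1 : Real.log (R / r) = Real.log R + Real.log (1 / r) := by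
        rw [Real.log_div hR0.ne' hr.ne', Real.log_div one_ne_zero hr.ne', Real.log_one]
        ring
      have hlog2 : Real.log (‖ζ‖ / r) ≤ Real.log 2 + Real.log (1 / r) := by
        rw [← Real.log_mul (by norm_num) (by positivity)]
        refine Real.log_le_log (div_pos (hr.trans_le hs1) hr) ?_
        rw [mul_one_div]
        gcongr
      have hlog3 : 0 ≤ Real.log (‖ζ‖ / r) := Real.log_nonneg (by rw [one_le_div hr]; exact hs1)
      have hlog4 : 0 < Real.log (R / r) := by rw [hlog1]; linarith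
      have hsa : a + ζ = s := by rw [hζ]; ring
      rw [hsa] at hk
      have h0 : 0 ≤ A * Real.log (1 + ‖s‖ ^ 2) := by
        refine mul_nonneg hA (Real.log_nonneg ?_)
        nlinarith [sq_nonneg ‖s‖]
      have h1 : (S + A * (2 + 2 * Real.log R) - (B + 2 * A)) *
          (Real.log (‖ζ‖ / r) / Real.log (R / r)) ≤
          (|S - B| / Real.log R + 2 * A) * (Real.log 2 + Real.log (1 / r)) := by
        have e1 : (S + A * (2 + 2 * Real.log R) - (B + 2 * A)) *
            (Real.log (‖ζ‖ / r) / Real.log (R / r)) =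
            ((S - B + 2 * A * Real.log R) / Real.log (R / r)) * Real.log (‖ζ‖ / r) := by ring
        have e2 : (S - B + 2 * A * Real.log R) / Real.log (R / r) ≤
            |S - B| / Real.log R + 2 * A := by
          have e3 : (S - B + 2 * A * Real.log R) / Real.log (R / r) ≤
              (|S - B| + 2 * A * Real.log R) / Real.log R := by
            refine (div_le_div_of_nonneg_right ?_ hlog4.le).trans
              (div_le_div_of_nonneg_left (by positivity) hlR (by rw [hlog1]; linarith))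
            linarith [le_abs_self (S - B)]
          have e4 : (|S - B| + 2 * A * Real.log R) / Real.log R =
              |S - B| / Real.log R + 2 * A := by
            field_simp
          linarith
        rw [e1]
        calc _ ≤ (|S - B| / Real.log R + 2 * A) * Real.log (‖ζ‖ / r) :=
              mul_le_mul_of_nonneg_right e2 hlog3
          _ ≤ _ := mul_le_mul_of_nonneg_left hlog2 (by positivity)
      linarith
    · intro z hz
      refine (hsub (a + z) hz).mono fun t ht => ?_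
      have e : (fun ξ => U (a + z + ξ) + A * Real.log (1 + ‖a + z + ξ‖ ^ 2)) =
          fun ξ => U (a + (z + ξ)) + A * Real.log (1 + ‖a + (z + ξ)‖ ^ 2) := by
        funext ξ
        rw [add_assoc]
      rw [← e]
      exact ht
    · intro z hz
      have h1 : U (a + z) ≤ B := hB _ (by rw [add_sub_cancel_left]; exact hz)
      have h3 : ‖a + z‖ ≤ 2 := (norm_add_le _ _).trans (by rw [hz]; linarith)
      have h4 : Real.log (1 + ‖a + z‖ ^ 2) ≤ 2 := by
        refine (Real.log_le_log (by positivity) ?_).trans h5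
        nlinarith [norm_nonneg (a + z)]
      have := mul_le_mul_of_nonneg_left h4 hA
      linarith
    · intro z hz
      have h1 : U (a + z) ≤ S := hS _
      have h3 : ‖a + z‖ ≤ 1 + R := (norm_add_le _ _).trans (by rw [hz]; linarith)
      have h4 : Real.log (1 + ‖a + z‖ ^ 2) ≤ 2 + 2 * Real.log R := by
        have e1 : 1 + ‖a + z‖ ^ 2 ≤ 5 * R ^ 2 := by
          nlinarith [norm_nonneg (a + z)]
        have e2 : Real.log (5 * R ^ 2) = Real.log 5 + 2 * Real.log R := by
          rw [Real.log_mul (by norm_num) (by positivity), Real.log_pow]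
          norm_num
        have e3 := Real.log_le_log (by positivity : 0 < 1 + ‖a + z‖ ^ 2) e1
        linarith
      have := mul_le_mul_of_nonneg_left h4 hA
      linarith
  -- the limit
  have hlim : Tendsto (fun R : ℝ => B + 2 * A +
      ((|S - B| / Real.log R + 2 * A) * (Real.log 2 + Real.log (1 / r)))) atTop
      (𝓝 (B + 2 * A + ((0 + 2 * A) * (Real.log 2 + Real.log (1 / r))))) := by
    refine tendsto_const_nhds.add (Tendsto.mul_const _ (Tendsto.add_const _ ?_))
    exact Real.tendsto_log_atTop.const_div_atTop _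
  have hfin := ge_of_tendsto hlim (eventually_atTop.2 ⟨3, fun R h => hR R (by linarith)⟩)
  have h6 : 2 * A * Real.log 2 ≤ 2 * A := by
    have := mul_le_mul_of_nonneg_left h2 (by positivity : 0 ≤ 2 * A)
    linarith
  nlinarith

end Pool.Agent.KRFHk

end

section

/-!
# Data for the gluing
-/

open scoped ContDiff ENNReal ComplexOrder Topology
open Set MeasureTheory Filter Pool.Agent.ToricKRF Pool.Agent.ToricKRF.G Pool.Agent.KRFS
  Pool.Agent.KRFF Pool.Agent.KRFG

namespace Pool.Agent.KRFX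

/-- `u'` is a regularization of `u` at the scale `ρ` -/
structure IsReg {m : ℕ} (L C S ρ : ℝ) (u u' : Cn m → ℝ) : Prop where
  smooth : ContDiffOn ℝ ∞ u' {y | nsq y < 36}
  lev : ∀ y, nsq y < 36 → ∀ v, 0 ≤ levz u' v y
  le : ∀ y, nsq y < 36 → u y ≤ u' y
  up : ∀ y, nsq y < 36 → ∀ (E : Set (Cn m)) (c : ℝ), -S ≤ c →
    (∀ y', nsq (y' - y) ≤ ρ ^ 2 → y' ∉ E → u y' ≤ c) →
    u' y ≤ c + C * S * (ρ ^ (2 * m))⁻¹ * volume.real (E ∩ {y' | nsq (y' - y) ≤ ρ ^ 2})
  near : ∀ y y', nsq y < 36 → nsq (y' - y) ≤ (L * ρ) ^ 2 →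
    u y' ≤ u' y + C * S / Real.log (1 / ρ)
  diff : ∀ s > 0, volume {y | nsq y < 25 ∧ u y + s < u' y} ≤ ENNReal.ofReal (C * S * ρ / s)

section Mod

variable {n m l : ℕ} {M Y Y' W : Type} [TopologicalSpace M] [TopologicalSpace Y]
  [TopologicalSpace Y'] [TopologicalSpace W] {κ P P' ι : Type} {T : ℝ}
  (F : Mod n m l M Y Y' W κ P P' ι T)

/-- the result of `X/Desc.lean` -/
structure Mod.IsDesc (C S t : ℝ) (q : P → Cn m → ℝ) : Prop where
  psh : ∀ j, PshC (fun y => q j y + t / T * F.K j y) {y | nsq y < 49}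
  bound : ∀ j y, nsq y < 49 → |q j y| ≤ S
  le : ∀ y', nsq (F.yb y') < 49 → q (F.lb y') (F.yb y') ≤ F.Mx t y' + C * (T - t)
  ge : ∀ y', nsq (F.yb y') < 49 → F.g (F.lb y') (F.yb y') ≠ 0 →
    F.Mx t y' - C * (T - t) * (1 + |Real.log (nsq (F.g (F.lb y') (F.yb y')))|) ≤
      q (F.lb y') (F.yb y')

end Mod

end Pool.Agent.KRFX

end

section

/-!
# Semistable models over a modification of the base, local form

`M` and `Y` are complex manifolds with the charts `e c` and `b j`, and `f : M → Y` is a map.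
-/

open scoped ContDiff ENNReal ComplexOrder
open Set Pool.Agent.ToricKRF Pool.Agent.ToricKRF.G Pool.Agent.KRFS Pool.Agent.KRFF
  Pool.Agent.KRFG

namespace Pool.Agent.KRFX

section

variable {M Y : Type} [TopologicalSpace M] [TopologicalSpace Y] {n m : ℕ} {κ P : Type}
  (e : κ → OpenPartialHomeomorph M (Cn n)) (b : P → OpenPartialHomeomorph Y (Cn m)) (f : M → Y)

/-- Let `σ : Y' → Y` be a map with values in the domain of the coordinates `b j`, let `g` be
holomorphic functions of these coordinates, and let `Γ` be a part of the fibre product of `Y'` and `M`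
over `Y`.  This structure consists of coordinates `z` of `Y'` with centre `y'₀` and of a semistable
model of `Γ → Y'` in these coordinates.

The map `σ` is holomorphic in the coordinates `z`, its derivative is injective where `g` is not `0`,
and there are `A`, `c > 0`, `B` with `|v|^2 ≤ A (i ∂ ∂bar log |g ∘ σ|^2 (v) + |dσ v|^2)` where `g` is
not `0`, and `|g ∘ σ|^2` and `|det dσ|` are at least `c |z_1 ⋯ z_m| ^ B`.

The model is a space `W` with maps `π : W → M`, `h : W → Y'` and `τ` from `W` to the polydisc of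
radius `r` in `ℂ^m`, such that `z_i (h w) = τ_i(w) ^ N_i` and `(h w, π w) ∈ Γ`.  The points `(y', p)` of
`Γ` lift to the fibre of `τ` over every `t` with `t_i ^ N_i = z_i(y')`.  The map `τ` is proper, its
fibres over the points `t` with all `t_i ≠ 0` are connected, and at the points `w` with `τ w = 0`
there are coordinates `x` of `W` with centre `w` such that `π` is holomorphic and `τ_i` is the
product of the coordinates `x_l` with `row l = i`. -/
structure SemistableOver (j : P) {q : ℕ} (g : Cn m → Cn q) {Y' : Type} [TopologicalSpace Y']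
    (σ : Y' → Y) (Γ : Set (Y' × M)) (y'₀ : Y') where
  z : OpenPartialHomeomorph Y' (Cn m)
  mem : y'₀ ∈ z.source
  center : z y'₀ = 0
  holo : HolOn (fun x => b j (σ (z.symm x))) z.target
  inj : ∀ x ∈ z.target, g (b j (σ (z.symm x))) ≠ 0 →
    Function.Injective (fderiv ℝ (fun x => b j (σ (z.symm x))) x)
  A : ℝ
  A_nonneg : 0 ≤ A
  pos : ∀ x ∈ z.target, g (b j (σ (z.symm x))) ≠ 0 → ∀ v,
    nsq v ≤ A * (levz (fun x => Real.log (nsq (g (b j (σ (z.symm x)))))) v x +
      nsq (fderiv ℝ (fun x => b j (σ (z.symm x))) x v))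
  c : ℝ
  c_pos : 0 < c
  B : ℕ
  low : ∀ x ∈ z.target, c * (∏ i, ‖cc x i‖) ^ B ≤ nsq (g (b j (σ (z.symm x)))) ∧
    c * (∏ i, ‖cc x i‖) ^ B ≤ |(fderiv ℝ (fun x => b j (σ (z.symm x))) x).det|
  r : ℝ
  r_pos : 0 < r
  W : Type
  top : TopologicalSpace W
  t2 : T2Space W
  π : W → M
  h : W → Y'
  τ : W → Cn m
  N : Fin m → ℕ
  N_pos : ∀ i, 0 < N i
  cont : Continuous τ
  range : ∀ w, τ w ∈ opd r
  base : ∀ w, h w ∈ z.source ∧ ∀ i, cc (z (h w)) i = cc (τ w) i ^ N i
  main : ∀ w, (h w, π w) ∈ Γ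
  lift : ∀ y' p, (y', p) ∈ Γ → y' ∈ z.source → ∀ t ∈ (opd r : Set (Cn m)),
    (∀ i, cc (z y') i = cc t i ^ N i) → ∃ w, τ w = t ∧ π w = p
  proper : ∀ s, 0 ≤ s → s < r → IsCompact {w | τ w ∈ cpd s}
  connected : ∀ t, (∀ i, cc t i ≠ 0) → IsPreconnected {w | τ w = t}
  chart : ∀ w, τ w = 0 → ∃ (a : OpenPartialHomeomorph W (Cn n)) (c : κ)
    (row : Fin n → Option (Fin m)), w ∈ a.source ∧ a w = 0 ∧ (∀ i, ∃ l, row l = some i) ∧
      (∀ w' ∈ a.source, π w' ∈ (e c).source) ∧
      HolOn (fun x => e c (π (a.symm x))) a.target ∧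
      ∀ w' ∈ a.source, ∀ i, cc (τ w') i = prow row i (a w')

/-- A semistable model of `f`, near the point `y₀` of `Y`, over a modification of `Y`.  In the
coordinates `y = b j - b j y₀` of `Y` the modification is a proper map `σ` from a space `Y'` to the
polydisc of radius `r`, which is injective over the points at which the holomorphic functions `g` are
not all `0`.  `Γ` is the main part of the fibre product of `Y'` and `M` over `Y`: it contains all pairs
over the points at which `g` is not `0`, and it is mapped onto `Y'` and onto the part of `M` over the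
polydisc.  At every point of `Y'` there is a semistable model of `Γ → Y'`. -/
structure ModifAt (y₀ : Y) where
  j : P
  mem : y₀ ∈ (b j).source
  r : ℝ
  r_pos : 0 < r
  q : ℕ
  g : Cn m → Cn q
  holo : HolOn g {y | y ∈ (b j).target ∧ y - b j y₀ ∈ opd r}
  Y' : Type
  top : TopologicalSpace Y'
  t2 : T2Space Y'
  σ : Y' → Y
  cont : Continuous σ
  range : ∀ y', σ y' ∈ (b j).source ∧ b j (σ y') - b j y₀ ∈ opd r
  proper : ∀ s, 0 ≤ s → s < r → IsCompact {y' | b j (σ y') - b j y₀ ∈ cpd s}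
  inj : ∀ y₁ y₂, σ y₁ = σ y₂ → g (b j (σ y₁)) ≠ 0 → y₁ = y₂
  Γ : Set (Y' × M)
  comm : ∀ y' p, (y', p) ∈ Γ → σ y' = f p
  full : ∀ y' p, σ y' = f p → g (b j (f p)) ≠ 0 → (y', p) ∈ Γ
  onto_base : ∀ y', ∃ p, (y', p) ∈ Γ
  onto_top : ∀ p, f p ∈ (b j).source → b j (f p) - b j y₀ ∈ opd r → ∃ y', (y', p) ∈ Γ
  model : ∀ y', Nonempty (SemistableOver e b j g σ Γ y')

end

end Pool.Agent.KRFX

end
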