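import Pool.Agent.Work.MP_a2bf38_gt.Fu.K.Mollify
import Pool.Agent.Work.MP_a2bf38_gt.Fu.K.PshCOf
import Pool.Agent.Work.MP_a2bf38_gt.Fu.H.Gen
import Pool.Agent.Work.MP_a2bf38_gt.Fu.X.Defs
import Pool.Agent.Work.MP_a2bf38_gt.Fu.I.ModulusCore
import Pool.Agent.Work.MP_a2bf38_gt.Fu.G.Chart2
import Pool.Agent.Work.MP_a2bf38_gt.Fu.I.DetLin
import Mathlib.Analysis.Complex.AbsMax
import Pool.Agent.Work.MP_a2bf38_gt.Fu.K.Setup
import Pool.Agent.Work.MP_a2bf38_gt.Fu.I.NatDefs

section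

/-!
# Continuous psh functions: composition with holomorphic maps
-/

open scoped ContDiff ENNReal ComplexOrder Topology
open Set MeasureTheory Filter Pool.Agent.ToricKRF Pool.Agent.ToricKRF.G Pool.Agent.KRFS
  Pool.Agent.KRFF Pool.Agent.KRFG

namespace Pool.Agent.KRFX

theorem pshC_comp {n m : ℕ} {u : Cn m → ℝ} {V : Set (Cn m)} (hV : IsOpen V) (hu : PshC u V)
    {H : Cn n → Cn m} {V' : Set (Cn n)} (hV' : IsOpen V') (hH : HolOn H V')
    (hm : MapsTo H V' V) : PshC (fun x => u (H x)) V' := by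
  have hHc : ContinuousOn H V' := hH.1.continuousOn
  have huH : ContinuousOn (fun x => u (H x)) V' := hu.1.comp hHc hm
  refine ⟨huH, fun z v hzv => ?_⟩
  have hlc : Continuous (line z v) := (contDiff_line z v).continuous
  have hmem : ∀ ζ ∈ Metric.closedBall (0 : ℂ) 1, line z v ζ ∈ V' := fun ζ hζ =>
    hzv ζ (by simpa using hζ)
  set A : Set (Cn m) := (fun ζ => H (line z v ζ)) '' Metric.closedBall (0 : ℂ) 1 with hA
  have hcont : ContinuousOn (fun ζ => H (line z v ζ)) (Metric.closedBall (0 : ℂ) 1) :=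
    hHc.comp hlc.continuousOn hmem
  have hAc : IsCompact A := (isCompact_closedBall (0 : ℂ) 1).image_of_continuousOn hcont
  have hAV : A ⊆ V := by
    rintro _ ⟨ζ, hζ, rfl⟩
    exact hm (hmem ζ hζ)
  have hg : ContinuousOn (fun ζ => u (H (line z v ζ))) (Metric.closedBall (0 : ℂ) 1) :=
    huH.comp hlc.continuousOn hmem
  refine le_of_forall_pos_le_add fun ε hε => ?_
  obtain ⟨u', V₁, hV₁, hAV₁, hV₁V, hu's, hu'l, hu'e⟩ := pshC_mollify hV hu hAc hAV (half_pos hε)
  have hcl : ∀ ζ ∈ Metric.closedBall (0 : ℂ) 1, H (line z v ζ) ∈ V₁ := fun ζ hζ =>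
    hAV₁ ⟨ζ, hζ, rfl⟩
  -- the open set on which the composition is smooth
  have hW : IsOpen (V' ∩ H ⁻¹' V₁) := hHc.isOpen_inter_preimage hV' hV₁
  have hcs : ContDiffOn ℝ ∞ (fun x => u' (H x)) (V' ∩ H ⁻¹' V₁) :=
    hu's.comp (hH.1.mono inter_subset_left) fun x hx => hx.2
  have hW2 : IsOpen ((univ : Set ℝ) ×ˢ (V' ∩ H ⁻¹' V₁)) := isOpen_univ.prod hW
  have hcs2 : ContDiffOn ℝ ∞ (fun q : ℝ × Cn n => u' (H q.2)) (univ ×ˢ (V' ∩ H ⁻¹' V₁)) :=
    hcs.comp contDiffOn_snd fun q hq => hq.2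
  have hsub : u' (H (line z v 0)) ≤ cavg (fun ζ => u' (H (line z v ζ))) 1 := by
    refine visc (u := fun ζ => u' (H (line z v ζ))) (r := 1) one_pos ?_ (S := ∅) finite_empty ?_
    · exact (hcs.continuousOn).comp hlc.continuousOn fun ζ hζ => ⟨hmem ζ hζ, hcl ζ hζ⟩
    · intro ζ hζ _
      have hζ' := Metric.ball_subset_closedBall hζ
      have hin : line z v ζ ∈ V' ∩ H ⁻¹' V₁ := ⟨hmem ζ hζ', hcl ζ hζ'⟩
      refine ⟨fun ζ => u' (H (line z v ζ)), ?_, rfl, Filter.Eventually.of_forall fun _ => le_rfl, ?_⟩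
      · have h1 : ContDiffAt ℝ ∞ (fun x => u' (H x)) (line z v ζ) := hcs.contDiffAt (hW.mem_nhds hin)
        exact (h1.comp ζ (contDiff_line z v).contDiffAt).of_le two_le_infty
      · have h2 := lapC_line (f := fun q : ℝ × Cn n => u' (H q.2)) hW2 hcs2 (t := 0) (z := z)
          (v := v) (ζ := ζ) ⟨mem_univ _, hin⟩
        have h3 : lapC (fun ζ => u' (H (line z v ζ))) ζ =
            4 * lev (fun q : ℝ × Cn n => u' (H q.2)) v (0, line z v ζ) := h2
        rw [h3, lev_snd (g := fun x => u' (H x)) hW hcs hin,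
          levz_comp hV₁ hu's hV' hH (hmem ζ hζ') (hcl ζ hζ')]
        exact mul_nonneg (by norm_num) (hu'l _ (hcl ζ hζ') _)
  have h0 : (0 : ℂ) ∈ Metric.closedBall (0 : ℂ) 1 := by simp
  have e1 := abs_le.mp (hu'e _ (hcl 0 h0))
  have e2 : cavg (fun ζ => u' (H (line z v ζ))) 1 ≤
      cavg (fun ζ => u (H (line z v ζ))) 1 + ε / 2 := by
    have hcirc : ∀ θ : ℝ, ((1 : ℝ) : ℂ) * Complex.exp (θ * Complex.I) ∈
        Metric.closedBall (0 : ℂ) 1 := by
      intro θ
      simp [Complex.norm_exp_ofReal_mul_I]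
    have hc0 : Continuous fun θ : ℝ => ((1 : ℝ) : ℂ) * Complex.exp (θ * Complex.I) := by fun_prop
    have hc1 : Continuous fun θ : ℝ => u (H (line z v (((1 : ℝ) : ℂ) *
        Complex.exp (θ * Complex.I)))) := hg.comp_continuous hc0 hcirc
    have hc2 : Continuous fun θ : ℝ => u' (H (line z v (((1 : ℝ) : ℂ) *
        Complex.exp (θ * Complex.I)))) := by
      have : ContinuousOn (fun ζ => u' (H (line z v ζ))) (Metric.closedBall (0 : ℂ) 1) :=
        (hcs.continuousOn).comp hlc.continuousOn fun ζ hζ => ⟨hmem ζ hζ, hcl ζ hζ⟩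
      exact this.comp_continuous hc0 hcirc
    have h5 : ∫ θ in (0 : ℝ)..2 * Real.pi,
          u' (H (line z v (((1 : ℝ) : ℂ) * Complex.exp (θ * Complex.I)))) ≤
        ∫ θ in (0 : ℝ)..2 * Real.pi,
          (u (H (line z v (((1 : ℝ) : ℂ) * Complex.exp (θ * Complex.I)))) + ε / 2) := by
      refine intervalIntegral.integral_mono (by positivity) (hc2.intervalIntegrable _ _)
        ((hc1.add continuous_const).intervalIntegrable _ _) fun θ => ?_
      have := abs_le.mp (hu'e _ (hcl _ (hcirc θ)))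
      simp only
      linarith [this.2]
    rw [intervalIntegral.integral_add (hc1.intervalIntegrable _ _) (by simp)] at h5
    simp only [intervalIntegral.integral_const, sub_zero, smul_eq_mul] at h5
    have hpi : (2 * Real.pi)⁻¹ * (2 * Real.pi) = 1 := inv_mul_cancel₀ (by positivity)
    unfold cavg
    calc (2 * Real.pi)⁻¹ * ∫ θ in (0 : ℝ)..2 * Real.pi,
          u' (H (line z v (((1 : ℝ) : ℂ) * Complex.exp (θ * Complex.I))))
        ≤ (2 * Real.pi)⁻¹ * ((∫ θ in (0 : ℝ)..2 * Real.pi,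
          u (H (line z v (((1 : ℝ) : ℂ) * Complex.exp (θ * Complex.I))))) +
            2 * Real.pi * (ε / 2)) := mul_le_mul_of_nonneg_left h5 (by positivity)
      _ = _ := by rw [mul_add, ← mul_assoc, hpi, one_mul]
  rw [line_zero] at e1 hsub
  linarith [e1.1, e1.2]

end Pool.Agent.KRFX

end

section

/-!
# Suprema over balls whose radius is the exponential of a plurisubharmonic function

If `u` and `χ` are continuous psh functions, then `y ↦ sup_{|w| ≤ 1} u (y + e^{χ(y)} w)` is a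
continuous psh function.
-/

open scoped ContDiff ENNReal ComplexOrder Topology
open Set MeasureTheory Filter Pool.Agent.ToricKRF Pool.Agent.ToricKRF.G Pool.Agent.KRFS
  Pool.Agent.KRFF Pool.Agent.KRFG

namespace Pool.Agent.KRFE

variable {m : ℕ}

/-- the supremum of `u` over the ball of radius `r` -/
noncomputable def supB (u : Cn m → ℝ) (y : Cn m) (r : ℝ) : ℝ :=
  sSup ((fun w => u (y + r • w)) '' {w : Cn m | nsq w ≤ 1})

/-- the closed ball of radius `|r|` -/
def cball (y : Cn m) (r : ℝ) : Set (Cn m) := {y' | nsq (y' - y) ≤ r ^ 2}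

namespace SupReg

theorem continuous_nsq : Continuous (nsq : Cn m → ℝ) := by
  unfold nsq
  simp only [dotProduct]
  fun_prop

theorem isCompact_ball : IsCompact {w : Cn m | nsq w ≤ 1} := ABP.isCompact_nsq

theorem nsq_zero : nsq (0 : Cn m) = 0 := by simp [nsq]

theorem nsq_nonneg (w : Cn m) : 0 ≤ nsq w := by
  unfold nsq
  simp only [dotProduct]
  exact add_nonneg (Finset.sum_nonneg fun i _ => mul_self_nonneg _)
    (Finset.sum_nonneg fun i _ => mul_self_nonneg _)

theorem nsq_smul (r : ℝ) (w : Cn m) : nsq (r • w) = r ^ 2 * nsq w := ABP.nsq_smul r w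

theorem ball_nonempty : {w : Cn m | nsq w ≤ 1}.Nonempty := ⟨0, by simp [nsq_zero]⟩

/-- the supremum over a compact set depends continuously on the parameter -/
theorem continuousOn_sSup {X Y : Type*} [TopologicalSpace X] [TopologicalSpace Y]
    {f : X → Y → ℝ} {S : Set X} {K : Set Y} (hK : IsCompact K)
    (hf : ContinuousOn (fun p : X × Y => f p.1 p.2) (S ×ˢ K)) :
    ContinuousOn (fun x => sSup (f x '' K)) S := by
  rw [continuousOn_iff_continuous_domRestrict]
  have : CompactSpace K := isCompact_iff_compactSpace.1 hK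
  have h1 : Continuous (fun p : S × K => f p.1 p.2) := by
    have h2 : Continuous (fun p : S × K => ((p.1 : X), (p.2 : Y))) := by fun_prop
    exact hf.comp_continuous h2 fun p => ⟨p.1.2, p.2.2⟩
  have h3 := isCompact_univ.continuous_sSup (f := fun (x : S) (y : K) => f x y) h1
  refine h3.congr fun x => ?_
  simp only [Set.domRestrict_apply]
  congr 1
  rw [image_univ]
  ext r
  simp

theorem mem_cball {y w : Cn m} {r : ℝ} (hw : nsq w ≤ 1) : y + r • w ∈ cball y r := by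
  unfold cball
  rw [mem_ofPred_eq, add_sub_cancel_left, nsq_smul]
  nlinarith [sq_nonneg r, nsq_nonneg w]

theorem supB_continuousOn {u : Cn m → ℝ} {V : Set (Cn m)} (hu : ContinuousOn u V) :
    ContinuousOn (fun p : Cn m × ℝ => supB u p.1 p.2) {p | cball p.1 p.2 ⊆ V} := by
  unfold supB
  refine continuousOn_sSup (f := fun (p : Cn m × ℝ) w => u (p.1 + p.2 • w)) isCompact_ball ?_
  refine hu.comp (by fun_prop) ?_
  rintro ⟨p, w⟩ ⟨hp, hw⟩
  exact hp (mem_cball hw)

theorem bddAbove {u : Cn m → ℝ} {V : Set (Cn m)} (hu : ContinuousOn u V) {y : Cn m} {r : ℝ}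
    (h : cball y r ⊆ V) : BddAbove ((fun w => u (y + r • w)) '' {w : Cn m | nsq w ≤ 1}) :=
  (isCompact_ball.image_of_continuousOn (hu.comp (by fun_prop) fun _ hw =>
    h (mem_cball hw))).bddAbove

theorem le_supB {u : Cn m → ℝ} {V : Set (Cn m)} (hu : ContinuousOn u V) {y w : Cn m} {r : ℝ}
    (h : cball y r ⊆ V) (hw : nsq w ≤ 1) : u (y + r • w) ≤ supB u y r :=
  le_csSup (bddAbove hu h) (mem_image_of_mem _ hw)

theorem supB_le {u : Cn m → ℝ} {y : Cn m} {r C : ℝ} (h : ∀ w, nsq w ≤ 1 → u (y + r • w) ≤ C) :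
    supB u y r ≤ C := by
  refine csSup_le (ball_nonempty.image _) ?_
  rintro _ ⟨w, hw, rfl⟩
  exact h w hw

/-- the supremum is attained -/
theorem exists_supB {u : Cn m → ℝ} {V : Set (Cn m)} (hu : ContinuousOn u V) {y : Cn m} {r : ℝ}
    (h : cball y r ⊆ V) : ∃ w, nsq w ≤ 1 ∧ u (y + r • w) = supB u y r := by
  have h1 : IsCompact ((fun w => u (y + r • w)) '' {w : Cn m | nsq w ≤ 1}) :=
    isCompact_ball.image_of_continuousOn (hu.comp (by fun_prop) fun _ hw => h (mem_cball hw))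
  obtain ⟨w, hw, hw'⟩ := h1.sSup_mem (ball_nonempty.image _)
  exact ⟨w, hw, hw'⟩

theorem cball_mono {y : Cn m} {r s : ℝ} (hr : 0 ≤ r) (h : r ≤ s) : cball y r ⊆ cball y s :=
  fun y' hy' => by
    unfold cball at hy' ⊢
    rw [mem_ofPred_eq] at hy' ⊢
    nlinarith

theorem supB_mono {u : Cn m → ℝ} {V : Set (Cn m)} (hu : ContinuousOn u V) {y : Cn m} {r s : ℝ}
    (hr : 0 < r) (hrs : r ≤ s) (h : cball y s ⊆ V) : supB u y r ≤ supB u y s := by
  refine supB_le fun w hw => ?_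
  have hs : 0 < s := hr.trans_le hrs
  have h1 : y + r • w = y + s • ((r / s) • w) := by
    rw [smul_smul, mul_div_cancel₀ _ hs.ne']
  rw [h1]
  refine le_supB hu h ?_
  rw [nsq_smul]
  have h2 : r / s ≤ 1 := (div_le_one hs).2 hrs
  have h3 : 0 ≤ r / s := by positivity
  nlinarith [nsq_nonneg w]

/-- the value at a point of the ball -/
theorem le_supB_of_mem {u : Cn m → ℝ} {V : Set (Cn m)} (hu : ContinuousOn u V) {y y' : Cn m}
    {r : ℝ} (hr : 0 < r) (h : cball y r ⊆ V) (hy' : y' ∈ cball y r) : u y' ≤ supB u y r := by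
  have h1 : y' = y + r • (r⁻¹ • (y' - y)) := by
    rw [smul_smul, mul_inv_cancel₀ hr.ne', one_smul, add_sub_cancel]
  rw [h1]
  refine le_supB hu h ?_
  rw [nsq_smul]
  unfold cball at hy'
  rw [mem_ofPred_eq] at hy'
  rw [inv_pow, inv_mul_le_iff₀ (by positivity), mul_one]
  exact hy'

theorem le_self {u : Cn m → ℝ} {V : Set (Cn m)} (hu : ContinuousOn u V) {y : Cn m} {r : ℝ}
    (h : cball y r ⊆ V) : u y ≤ supB u y r := by
  have h1 := le_supB hu h (w := 0) (by rw [nsq_zero]; exact zero_le_one)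
  rwa [smul_zero, add_zero] at h1

theorem lineL_mul (w : Cn m) (a b : ℂ) : lineL (lineL w a) b = lineL w (a * b) := by
  simp only [lineL_apply, J_add, J_smul, J_J, Complex.mul_re, Complex.mul_im, smul_add, smul_smul,
    smul_neg, sub_smul, add_smul]
  rw [mul_comm b.re a.re, mul_comm b.re a.im, mul_comm b.im a.re, mul_comm b.im a.im]
  abel

theorem lineL_ofReal (w : Cn m) (r : ℝ) : lineL w (r : ℂ) = r • w := by
  simp [lineL_apply]

theorem lineL_I_mul (w : Cn m) (a : ℂ) : lineL w (Complex.I * a) = J (lineL w a) := by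
  simp only [lineL_apply, J_add, J_smul, J_J, Complex.mul_re, Complex.mul_im, Complex.I_re,
    Complex.I_im, zero_mul, one_mul, zero_sub, zero_add, smul_neg, neg_smul]
  abel

/-- the map `x ↦ h(x) w` for a complex function `h` of one complex variable -/
theorem holOn_lineL {g : ℂ → ℂ} (hg : Differentiable ℂ g) (w : Cn m) :
    HolOn (fun x : Cn 1 => lineL w (g (cc x 0))) univ := by
  have hcd : ContDiff ℝ ∞ g := (hg.contDiff (n := ∞)).restrict_scalars ℝ
  have h1 : (fun x : Cn 1 => lineL w (g (cc x 0))) =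
      fun x => lineL w (g (NF.ccL 0 x)) := by
    funext x
    rw [NF.ccL_apply]
  rw [h1]
  refine ⟨?_, fun x _ a => ?_⟩
  · exact ((lineL w).contDiff.comp (hcd.comp (NF.ccL 0).contDiff)).contDiffOn
  · have h2 : HasFDerivAt g ((fderiv ℂ g (NF.ccL 0 x)).restrictScalars ℝ) (NF.ccL 0 x) :=
      (hg _).hasFDerivAt.restrictScalars ℝ
    have h3 := (lineL w).hasFDerivAt.comp x (h2.comp x (NF.ccL 0).hasFDerivAt)
    have h4 : fderiv ℝ (fun x => lineL w (g (NF.ccL 0 x))) x = _ := h3.fderiv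
    rw [h4]
    simp only [ContinuousLinearMap.comp_apply, ContinuousLinearMap.coe_restrictScalars',
      NF.ccL_apply, cc_J]
    have h5 : (fderiv ℂ g (cc x 0)) (Complex.I * cc a 0) =
        Complex.I * (fderiv ℂ g (cc x 0)) (cc a 0) := by
      have := (fderiv ℂ g (cc x 0)).map_smul Complex.I (cc a 0)
      rwa [smul_eq_mul, smul_eq_mul] at this
    rw [h5, lineL_I_mul]

theorem HolOn_add {n m : ℕ} {f g : Cn n → Cn m} {S : Set (Cn n)} (hS : IsOpen S) (hf : HolOn f S)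
    (hg : HolOn g S) : HolOn (fun x => f x + g x) S := by
  refine ⟨hf.1.add hg.1, fun z hz u => ?_⟩
  have h1 := (NF.diffAt hS hf.1 hz).hasFDerivAt.add (NF.diffAt hS hg.1 hz).hasFDerivAt
  have h2 : fderiv ℝ (fun x => f x + g x) z = fderiv ℝ f z + fderiv ℝ g z := h1.fderiv
  rw [h2]
  simp only [add_apply, hf.2 z hz, hg.2 z hz, J_add]

theorem HolOn_const {n m : ℕ} (c : Cn m) (S : Set (Cn n)) : HolOn (fun _ : Cn n => c) S := by
  refine ⟨contDiffOn_const, fun z hz u => ?_⟩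
  simp only [fderiv_fun_const, Pi.zero_apply, zero_apply]
  simp only [J, Prod.snd_zero, Prod.fst_zero, neg_zero]
  rfl

/-- the unit vector of `ℂ` -/
def e1 : Cn 1 := (fun _ => 1, fun _ => 0)

theorem cc_line_e1 (ζ : ℂ) : cc (line (0 : Cn 1) e1 ζ) 0 = ζ := by
  apply Complex.ext <;> simp [cc, line, e1, J]

/-- the sub-mean value property along a holomorphic disc -/
theorem disc {u : Cn m → ℝ} {V : Set (Cn m)} (hV : IsOpen V) (hu : PshC u V) (z v w : Cn m)
    {g : ℂ → ℂ} (hg : Differentiable ℂ g)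
    (h : ∀ ζ : ℂ, ‖ζ‖ ≤ 1 → line z v ζ + lineL w (g ζ) ∈ V) :
    u (z + lineL w (g 0)) ≤ cavg (fun ζ => u (line z v ζ + lineL w (g ζ))) 1 := by
  set H : Cn 1 → Cn m := fun x => z + lineL v (cc x 0) + lineL w (g (cc x 0)) with hH
  have hHol : HolOn H univ := HolOn_add isOpen_univ (HolOn_add isOpen_univ (HolOn_const z _)
    (holOn_lineL (g := fun ζ => ζ) differentiable_id v)) (holOn_lineL hg w)
  have hV' : IsOpen (H ⁻¹' V) := hV.preimage (continuousOn_univ.1 hHol.1.continuousOn)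
  have h1 := KRFX.pshC_comp hV hu hV' ⟨hHol.1.mono (subset_univ _), fun x _ => hHol.2 x (mem_univ _)⟩
    fun x hx => hx
  have hval : ∀ ζ : ℂ, H (line 0 e1 ζ) = line z v ζ + lineL w (g ζ) := by
    intro ζ
    rw [hH]
    simp only [cc_line_e1]
    rw [line_eq z v]
  have h2 := h1.2 0 e1 fun ζ hζ => by
    rw [mem_preimage, hval]
    exact h ζ hζ
  simp only [hval] at h2
  have h3 : H 0 = z + lineL w (g 0) := by
    have h4 := hval 0
    rwa [line_zero, line_zero] at h4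
  rwa [h3] at h2

theorem nsq_lineL_le {w : Cn m} (hw : nsq w ≤ 1) {a : ℂ} {r : ℝ} (ha : ‖a‖ ≤ r) :
    nsq (lineL w a) ≤ r ^ 2 := by
  rw [KRFH.Three.nsq_lineL]
  have h1 : ‖a‖ ^ 2 ≤ r ^ 2 := pow_le_pow_left₀ (norm_nonneg _) ha 2
  nlinarith [nsq_nonneg w, sq_nonneg ‖a‖]

/-- the values of `cavg` on the circle -/
theorem cavg_mono {f g : ℂ → ℝ} (hf : Continuous fun θ : ℝ => f (Complex.exp (θ * Complex.I)))
    (hg : Continuous fun θ : ℝ => g (Complex.exp (θ * Complex.I)))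
    (h : ∀ ζ : ℂ, ‖ζ‖ = 1 → f ζ ≤ g ζ) : cavg f 1 ≤ cavg g 1 := by
  unfold cavg
  simp only [Complex.ofReal_one, one_mul]
  refine mul_le_mul_of_nonneg_left ?_ (inv_nonneg.2 Real.two_pi_pos.le)
  exact intervalIntegral.integral_mono Real.two_pi_pos.le (hf.intervalIntegrable _ _)
    (hg.intervalIntegrable _ _) fun θ => h _ (Complex.norm_exp_ofReal_mul_I θ)

theorem cavg_const (c : ℝ) : cavg (fun _ => c) 1 = c := by
  unfold cavg
  rw [intervalIntegral.integral_const, smul_eq_mul, sub_zero, ← mul_assoc,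
    inv_mul_cancel₀ Real.two_pi_pos.ne', one_mul]

open Polynomial in
/-- the inequality with a loss in the radius -/
theorem key {u χ : Cn m → ℝ} {V A : Set (Cn m)} {c : ℝ} (hV : IsOpen V)
    (hu : PshC u V) (hχ : PshC χ A) (hc : ∀ y ∈ A, χ y ≤ c)
    (hsub : ∀ y ∈ A, cball y (Real.exp (c + 1)) ⊆ V) {z v : Cn m}
    (hz : ∀ ζ : ℂ, ‖ζ‖ ≤ 1 → line z v ζ ∈ A) {ε : ℝ} (hε : 0 < ε) (hε1 : ε ≤ 1 / 2) :
    supB u z (Real.exp (χ z)) ≤
      cavg (fun ζ => supB u (line z v ζ) (Real.exp (χ (line z v ζ) + 2 * ε))) 1 := by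
  have hlc : Continuous (line z v) := (contDiff_line z v).continuous
  have hχc : ContinuousOn (fun ζ => χ (line z v ζ)) (Metric.closedBall 0 1) :=
    hχ.1.comp hlc.continuousOn fun ζ hζ => hz ζ (by simpa using hζ)
  obtain ⟨P, hP⟩ := KRFX.Loc.exists_poly_re (hχc.mono Metric.sphere_subset_closedBall) hε
  have hcirc : Continuous fun θ : ℝ => Complex.exp (θ * Complex.I) := by fun_prop
  have hn : ∀ θ : ℝ, ‖Complex.exp (θ * Complex.I)‖ = 1 := Complex.norm_exp_ofReal_mul_I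
  have hPc : Continuous fun ζ : ℂ => (P.eval ζ).re := Complex.continuous_re.comp P.continuous
  have hz0 : z ∈ A := by simpa [line_zero] using hz 0 (by simp)
  -- the value of the polynomial at the center
  have h0 : χ z ≤ (P.eval 0).re + ε := by
    have h1 := hχ.2 z v hz
    have h2 : cavg (fun ζ => χ (line z v ζ)) 1 ≤ cavg (fun ζ => (P.eval (0 + ζ)).re + ε) 1 := by
      refine cavg_mono (hχc.comp_continuous hcirc fun θ => by simp [hn]) ?_ fun ζ hζ => ?_
      · exact ((hPc.comp (continuous_const.add continuous_id)).add continuous_const).comp hcirc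
      · have h3 := hP ζ hζ
        rw [zero_add]
        linarith [(abs_lt.1 h3).2]
    have h3 : cavg (fun ζ => (P.eval (0 + ζ)).re + ε) 1 = (P.eval 0).re + ε := by
      have h4 : cavg (fun ζ => (P.eval (0 + ζ)).re + ε) 1 =
          cavg (fun ζ => (P.eval (0 + ζ)).re) 1 + ε := by
        unfold cavg
        have hc1 : Continuous fun θ : ℝ =>
            (P.eval (0 + ((1 : ℝ) : ℂ) * Complex.exp (θ * Complex.I))).re :=
          hPc.comp (by fun_prop)
        rw [intervalIntegral.integral_add (hc1.intervalIntegrable _ _) (by simp),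
          intervalIntegral.integral_const, smul_eq_mul, sub_zero, mul_add, ← mul_assoc _ (2 * Real.pi),
          inv_mul_cancel₀ Real.two_pi_pos.ne', one_mul]
      rw [h4, KRFX.Loc.cavg_poly]
    linarith
  -- the maximum principle
  have hmax : ∀ ζ : ℂ, ‖ζ‖ ≤ 1 → (P.eval ζ).re ≤ c + ε := by
    intro ζ hζ
    have hd : Differentiable ℂ fun ζ : ℂ => Complex.exp (P.eval ζ) :=
      P.differentiable.cexp
    have h1 := Complex.norm_le_of_forall_mem_frontier_norm_le (U := Metric.ball (0 : ℂ) 1)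
      Metric.isBounded_ball hd.diffContOnCl (C := Real.exp (c + ε)) (fun a ha => by
        rw [frontier_ball (0 : ℂ) one_ne_zero] at ha
        have ha1 : ‖a‖ = 1 := by simpa using ha
        rw [Complex.norm_exp]
        refine Real.exp_le_exp.2 ?_
        have h2 := abs_lt.1 (hP a ha1)
        have h3 := hc _ (hz a ha1.le)
        linarith [h2.1]) (z := ζ) (by
        rw [closure_ball (0 : ℂ) one_ne_zero]
        simpa using hζ)
    rw [Complex.norm_exp] at h1
    exact Real.exp_le_exp.1 h1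
  set g : ℂ → ℂ := fun ζ => Complex.exp (P.eval ζ + ε) with hg
  have hgd : Differentiable ℂ g := (P.differentiable.add_const (ε : ℂ)).cexp
  have hgn : ∀ ζ, ‖g ζ‖ = Real.exp ((P.eval ζ).re + ε) := fun ζ => by
    rw [hg]
    simp only [Complex.norm_exp, Complex.add_re, Complex.ofReal_re]
  refine supB_le fun w hw => ?_
  set k : ℂ := Complex.exp ((χ z : ℂ) - P.eval 0 - ε) with hk
  set w₀ : Cn m := lineL w k with hw₀
  have hkn : ‖k‖ ≤ 1 := by
    rw [hk, Complex.norm_exp]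
    refine Real.exp_le_one_iff.2 ?_
    simp only [Complex.sub_re, Complex.ofReal_re]
    linarith
  have hw₀1 : nsq w₀ ≤ 1 := by
    have := nsq_lineL_le hw hkn
    rwa [one_pow] at this
  have hstart : z + Real.exp (χ z) • w = z + lineL w₀ (g 0) := by
    rw [hw₀, lineL_mul, hk, hg]
    simp only
    rw [← Complex.exp_add, ← lineL_ofReal, Complex.ofReal_exp]
    congr 3
    ring
  have hin : ∀ ζ : ℂ, ‖ζ‖ ≤ 1 → line z v ζ + lineL w₀ (g ζ) ∈ V := by
    intro ζ hζ
    refine hsub _ (hz ζ hζ) ?_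
    unfold cball
    rw [mem_ofPred_eq, add_sub_cancel_left]
    refine nsq_lineL_le hw₀1 ?_
    rw [hgn]
    refine Real.exp_le_exp.2 ?_
    have := hmax ζ hζ
    linarith
  have hdisc := disc hV hu z v w₀ hgd hin
  rw [hstart]
  refine hdisc.trans ?_
  have hcl : ∀ ζ : ℂ, ‖ζ‖ ≤ 1 → cball (line z v ζ) (Real.exp (χ (line z v ζ) + 2 * ε)) ⊆ V :=
    fun ζ hζ => (cball_mono (Real.exp_pos _).le (Real.exp_le_exp.2
      (by linarith [hc _ (hz ζ hζ)]))).trans (hsub _ (hz ζ hζ))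
  refine cavg_mono ?_ ?_ fun ζ hζ => ?_
  · have h1 : ContinuousOn (fun ζ => u (line z v ζ + lineL w₀ (g ζ))) (Metric.closedBall 0 1) := by
      refine hu.1.comp ?_ fun ζ hζ => hin ζ (by simpa using hζ)
      have h2 : Continuous g := hgd.continuous
      exact (hlc.add ((lineL w₀).continuous.comp h2)).continuousOn
    exact h1.comp_continuous hcirc fun θ => by simp [hn]
  · have h1 : ContinuousOn (fun ζ => supB u (line z v ζ) (Real.exp (χ (line z v ζ) + 2 * ε)))
        (Metric.closedBall 0 1) := by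
      refine (supB_continuousOn hu.1).comp (f := fun ζ => (line z v ζ,
        Real.exp (χ (line z v ζ) + 2 * ε))) ?_ fun ζ hζ => hcl ζ (by simpa using hζ)
      exact hlc.continuousOn.prodMk (Real.continuous_exp.comp_continuousOn
        (hχc.add continuousOn_const))
    exact h1.comp_continuous hcirc fun θ => by simp [hn]
  · refine le_supB_of_mem hu.1 (Real.exp_pos _) (hcl ζ hζ.le) ?_
    unfold cball
    rw [mem_ofPred_eq, add_sub_cancel_left]
    refine nsq_lineL_le hw₀1 ?_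
    rw [hgn]
    refine Real.exp_le_exp.2 ?_
    have := abs_lt.1 (hP ζ hζ)
    linarith [this.1]

end SupReg

open SupReg in
/-- **suprema over balls of radius `e^χ`** -/
theorem pshC_supB {u χ : Cn m → ℝ} {V A : Set (Cn m)} {c : ℝ} (hV : IsOpen V)
    (hu : PshC u V) (hχ : PshC χ A) (hc : ∀ y ∈ A, χ y ≤ c)
    (hsub : ∀ y ∈ A, cball y (Real.exp (c + 1)) ⊆ V) :
    PshC (fun y => supB u y (Real.exp (χ y))) A := by
  have hcl : ∀ y ∈ A, ∀ r : ℝ, 0 ≤ r → r ≤ Real.exp (c + 1) → cball y r ⊆ V :=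
    fun y hy r hr hr1 => (cball_mono hr hr1).trans (hsub y hy)
  refine ⟨?_, fun z v hz => ?_⟩
  · refine (supB_continuousOn hu.1).comp (f := fun y => (y, Real.exp (χ y))) ?_ fun y hy =>
      hcl y hy _ (Real.exp_pos _).le (Real.exp_le_exp.2 (by linarith [hc y hy]))
    exact continuousOn_id.prodMk (Real.continuous_exp.comp_continuousOn hχ.1)
  · have hlc : Continuous (line z v) := (contDiff_line z v).continuous
    have hn : ∀ θ : ℝ, ‖((1 : ℝ) : ℂ) * Complex.exp (θ * Complex.I)‖ ≤ 1 := by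
      intro θ; simp [Complex.norm_exp_ofReal_mul_I]
    set F : ℝ → ℝ → ℝ := fun δ θ => supB u (line z v (((1 : ℝ) : ℂ) * Complex.exp (θ * Complex.I)))
      (Real.exp (χ (line z v (((1 : ℝ) : ℂ) * Complex.exp (θ * Complex.I))) +
        max 0 (min δ 1))) with hF
    have hFc : Continuous (Function.uncurry F) := by
      have h1 : Continuous fun p : ℝ × ℝ =>
          (line z v (((1 : ℝ) : ℂ) * Complex.exp (p.2 * Complex.I))) := hlc.comp (by fun_prop)
      have h2 : Continuous fun p : ℝ × ℝ =>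
          χ (line z v (((1 : ℝ) : ℂ) * Complex.exp (p.2 * Complex.I))) :=
        hχ.1.comp_continuous h1 fun p => hz _ (hn p.2)
      have h3 : Continuous fun p : ℝ × ℝ => (line z v (((1 : ℝ) : ℂ) * Complex.exp
          (p.2 * Complex.I)), Real.exp (χ (line z v (((1 : ℝ) : ℂ) * Complex.exp
          (p.2 * Complex.I))) + max 0 (min p.1 1))) := by
        refine h1.prodMk (Real.continuous_exp.comp (h2.add ?_))
        fun_prop
      refine (supB_continuousOn hu.1).comp_continuous h3 fun p => ?_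
      refine hcl _ (hz _ (hn p.2)) _ (Real.exp_pos _).le (Real.exp_le_exp.2 ?_)
      have h4 := hc _ (hz _ (hn p.2))
      have h5 : max 0 (min p.1 1) ≤ 1 := max_le zero_le_one (min_le_right _ _)
      linarith
    have hlim : Continuous fun δ => (2 * Real.pi)⁻¹ * ∫ θ in (0 : ℝ)..2 * Real.pi, F δ θ :=
      continuous_const.mul
        (intervalIntegral.continuous_parametric_intervalIntegral_of_continuous' hFc _ _)
    have hT : Tendsto (fun δ => (2 * Real.pi)⁻¹ * ∫ θ in (0 : ℝ)..2 * Real.pi, F δ θ)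
        (𝓝[>] 0) (𝓝 ((2 * Real.pi)⁻¹ * ∫ θ in (0 : ℝ)..2 * Real.pi, F 0 θ)) :=
      (hlim.tendsto 0).mono_left nhdsWithin_le_nhds
    have hF0 : (2 * Real.pi)⁻¹ * ∫ θ in (0 : ℝ)..2 * Real.pi, F 0 θ =
        cavg (fun ζ => supB u (line z v ζ) (Real.exp (χ (line z v ζ)))) 1 := by
      unfold cavg
      simp [hF]
    rw [← hF0]
    refine ge_of_tendsto hT ?_
    filter_upwards [Ioc_mem_nhdsGT one_pos] with δ hδ
    have h1 := key hV hu hχ hc hsub hz (ε := δ / 2) (by linarith [hδ.1]) (by linarith [hδ.2])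
    refine h1.trans (le_of_eq ?_)
    unfold cavg
    have h2 : max 0 (min δ 1) = 2 * (δ / 2) := by
      rw [min_eq_left hδ.2, max_eq_right hδ.1.le]
      ring
    simp only [hF, h2]

end Pool.Agent.KRFE

end

section

/-!
# Holomorphic maps with arbitrary singular fibres

`f : M → Z` is a map from a compact complex manifold onto a space `Z` with local embeddings `q j` in
`ℂ^N`, such that `q j ∘ f` is holomorphic.
-/

open scoped ContDiff ENNReal ComplexOrder Topology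
open Set MeasureTheory Filter Pool.Agent.ToricKRF Pool.Agent.ToricKRF.G Pool.Agent.KRFS
  Pool.Agent.KRFF Pool.Agent.KRFG

namespace Pool.Agent.KRFZ

/-- The map `g` is holomorphic on the open set `U` of `ℂ`. -/
structure HolD {n : ℕ} (g : ℂ → Cn n) (U : Set ℂ) : Prop where
  smooth : ContDiffOn ℝ ∞ g U
  holo : ∀ s ∈ U, fderiv ℝ g s Complex.I = J (fderiv ℝ g s 1)

/-- `f : M → Z` is continuous and onto; `q j` is an embedding of the open set `S j` of `Z` in the ball
of radius `10` of `ℂ^N`, with closed image, and `q j ∘ f` is holomorphic.  The parts `|q j| ≤ 1` of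
the sets `S j` cover `Z`. -/
structure IsEmb {M Z : Type} [TopologicalSpace M] [TopologicalSpace Z] {n N : ℕ} {κ P : Type}
    (e : κ → OpenPartialHomeomorph M (Cn n)) (S : P → Set Z) (q : P → Z → Cn N) (f : M → Z) :
    Prop where
  cont : Continuous f
  surj : Function.Surjective f
  isOpen : ∀ j, IsOpen (S j)
  qcont : ∀ j, ContinuousOn (q j) (S j)
  inj : ∀ j, InjOn (q j) (S j)
  lt : ∀ j, ∀ z ∈ S j, nsq (q j z) < 100
  compact : ∀ j, ∀ R < 100, IsCompact {z | z ∈ S j ∧ nsq (q j z) ≤ R}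
  cover : ∀ z, ∃ j, z ∈ S j ∧ nsq (q j z) ≤ 1
  holo : ∀ c j, HolOn (fun x => q j (f ((e c).symm x)))
    {x | x ∈ (e c).target ∧ f ((e c).symm x) ∈ S j}

/-- The limit class is the pull-back of a Kähler class of `Z`, with the local potentials
`K j ∘ q j`: there is a volume form `Ω` on `M` with `ω(0) + T i ∂ ∂bar log Ω = f^* i ∂ ∂bar K j ∘ q j`;
the differences of the local potentials are locally real parts of functions `G` such that `G ∘ f` is
holomorphic. -/
structure IsPull {M Z : Type} [TopologicalSpace M] [TopologicalSpace Z] {n N : ℕ} {κ P : Type}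
    (e : κ → OpenPartialHomeomorph M (Cn n)) (S : P → Set Z) (q : P → Z → Cn N) (f : M → Z)
    (T : ℝ) (ψ : κ → ℝ × Cn n → ℝ) (Ω : κ → Cn n → ℝ) (K : P → Cn N → ℝ) : Prop where
  smooth : ∀ j, ContDiffOn ℝ ∞ (K j) {y | nsq y < 100}
  psh : ∀ j y, nsq y < 100 → ∀ u, u ≠ 0 → 0 < levz (K j) u y
  eq : ∀ c j, ∀ x ∈ (e c).target, f ((e c).symm x) ∈ S j → ∀ u,
    lev (ψ c) u (0, x) + T * levz (fun x => Real.log (Ω c x)) u x =
      levz (fun x => K j (q j (f ((e c).symm x)))) u x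
  compat : ∀ i j z, z ∈ S i → z ∈ S j → ∃ (U : Set Z) (G : Z → ℂ), IsOpen U ∧ z ∈ U ∧
    U ⊆ S i ∩ S j ∧
    (∀ c, NF.HolC (fun x => G (f ((e c).symm x))) {x | x ∈ (e c).target ∧ f ((e c).symm x) ∈ U}) ∧
    ∀ z' ∈ U, K i (q i z') - K j (q j z') = (G z').re

/-- The unordered `D`-tuple `γ s` of points of `A` depends holomorphically on `s ∈ ℂ`.  It is
continuous, Hölder continuous at `s₀` and `s₁`, off a closed discrete set it is locally given by `D`
holomorphic sections `g i`, and `i ∂ ∂bar (C log (1 + |s|^2) + ρ (g i))` is at least the pull-back of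
the Kähler form `i ∂ ∂bar ψ(0)` under the sections.  The Hölder constant is `exp (C l)` and
`|ρ| ≤ C l`; the curves of a fibre are used at the scale `exp (-l)` and may depend on `l`. -/
structure IsCurve {M : Type} [MetricSpace M] {n : ℕ} {κ : Type}
    (e : κ → OpenPartialHomeomorph M (Cn n)) (ψ : κ → ℝ × Cn n → ℝ) (A : Set M) (C l α : ℝ)
    {D : ℕ} (γ : ℂ → Fin D → M) (ρ : M → ℝ) (s₀ s₁ : ℂ) : Prop where
  mem : ∀ s i, γ s i ∈ A
  cont : ∀ s, ∀ ε > 0, ∀ᶠ s' in 𝓝 s, ∃ σ : Equiv.Perm (Fin D), ∀ i, dist (γ s' (σ i)) (γ s i) ≤ ε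
  holder : ∀ s₂, s₂ = s₀ ∨ s₂ = s₁ → ∀ s, ‖s - s₂‖ ≤ 1 →
    ∃ σ : Equiv.Perm (Fin D), ∀ i, dist (γ s (σ i)) (γ s₂ i) ≤ Real.exp (C * l) * ‖s - s₂‖ ^ α
  rho_cont : ContinuousOn ρ A
  rho_bound : ∀ p ∈ A, |ρ p| ≤ C * l
  sect : ∃ E : Set ℂ, (∀ s, ∃ r > 0, ∀ s' ∈ E, s' ≠ s → r ≤ ‖s' - s‖) ∧ ∀ s ∉ E,
    ∃ (r : ℝ) (c : Fin D → κ) (g : Fin D → ℂ → Cn n), 0 < r ∧
      (∀ i, HolD (g i) (Metric.ball s r)) ∧
      (∀ i, ∀ s' ∈ Metric.ball s r, g i s' ∈ (e (c i)).target) ∧
      (∀ s' ∈ Metric.ball s r, ∃ σ : Equiv.Perm (Fin D), ∀ i,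
        γ s' (σ i) = (e (c i)).symm (g i s')) ∧
      (∀ i, ContDiffOn ℝ ∞ (fun s' => ρ ((e (c i)).symm (g i s'))) (Metric.ball s r)) ∧
      ∀ i, ∀ s' ∈ Metric.ball s r, 4 * lev (ψ (c i)) (fderiv ℝ (g i) s' 1) (0, g i s') ≤
        lapC (fun s' => C * Real.log (1 + ‖s'‖ ^ 2) + ρ ((e (c i)).symm (g i s'))) s'

/-- The Łojasiewicz inequality for the map `(x, x') ↦ f x - f x'` with the zero set
`{(x, x') | f x = f x'}`. -/
def LojAt {M Z : Type} [MetricSpace M] [MetricSpace Z] (f : M → Z) (Λ : ℝ) : Prop :=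
  ∀ l x x', 1 ≤ l → dist (f x) (f x') ≤ Real.exp (-(Λ * l)) →
    ∃ x₁ x₁', f x₁ = f x₁' ∧ dist x x₁ ≤ Real.exp (-l) ∧ dist x' x₁' ≤ Real.exp (-l)

/-- `μ` is the measure on `M` with the densities `w c`. -/
def HasDens {M : Type} [TopologicalSpace M] [MeasurableSpace M] {n : ℕ} {κ : Type}
    (e : κ → OpenPartialHomeomorph M (Cn n)) (w : κ → Cn n → ℝ) (μ : Measure M) : Prop :=
  ∀ c, μ.restrict (e c).source = Measure.map (e c).symm
    ((volume.restrict (e c).target).withDensity fun x => ENNReal.ofReal (w c x))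

end Pool.Agent.KRFZ

end

section

/-!
# Semi-ample limit classes

`M` is a complex manifold with the charts `e c` and `Z` is a space with local embeddings `q j` into
`ℂ^N`.  The limit class is the pull-back of a Kähler class of `Z` under a map `f : M → Z`.
-/

open scoped ContDiff ENNReal ComplexOrder Topology
open Set Filter Pool.Agent.ToricKRF Pool.Agent.ToricKRF.G Pool.Agent.KRFS Pool.Agent.KRFF

namespace Pool.Agent.KRFZ

/-- The coordinates `a` are, near every point of `S`, Lipschitz equivalent to the distance. -/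
def IsLip {X : Type} [MetricSpace X] {n : ℕ} (a : X → Cn n) (S : Set X) : Prop :=
  ∀ p ∈ S, ∃ C : ℝ, 0 < C ∧ ∀ᶠ x : X × X in 𝓝 (p, p),
    dist (a x.1) (a x.2) ≤ C * dist x.1 x.2 ∧ dist x.1 x.2 ≤ C * dist (a x.1) (a x.2)

section

variable {Z : Type} [MetricSpace Z] {N : ℕ} {P : Type}

/-- A Kähler form on the space `Z`: `q j : U j → ℂ^N` are local embeddings of `Z`, with values in the
open sets `O j`, and `K j` are smooth strictly plurisubharmonic functions on `O j` such that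
`K j ∘ q j - K i ∘ q i` is locally the real part of a holomorphic function of `q i`. -/
structure IsKahlerSpace (U : P → Set Z) (q : P → Z → Cn N) (O : P → Set (Cn N))
    (K : P → Cn N → ℝ) : Prop where
  isOpen : ∀ j, IsOpen (U j)
  cover : ∀ z, ∃ j, z ∈ U j
  lip : ∀ j, IsLip (q j) (U j)
  isOpen' : ∀ j, IsOpen (O j)
  mem : ∀ j, ∀ z ∈ U j, q j z ∈ O j
  smooth : ∀ j, ContDiffOn ℝ ∞ (K j) (O j)
  psh : ∀ j, ∀ y ∈ O j, ∀ u, u ≠ 0 → 0 < levz (K j) u y
  compat : ∀ i j, ∀ z ∈ U i ∩ U j, ∃ (S : Set (Cn N)) (G : Cn N → ℂ), IsOpen S ∧ q i z ∈ S ∧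
    NF.HolC G S ∧ ∀ᶠ z' in 𝓝 z, K j (q j z') - K i (q i z') = (G (q i z')).re

end

section

variable {M Z : Type} [MetricSpace M] [MetricSpace Z] {n N : ℕ} {κ P : Type}
  (e : κ → OpenPartialHomeomorph M (Cn n)) (U : P → Set Z) (q : P → Z → Cn N) (f : M → Z)

/-- the domain of `f` in the chart `e c` and the coordinates `q j` -/
def fdom (c : κ) (j : P) : Set (Cn n) := {x | x ∈ (e c).target ∧ f ((e c).symm x) ∈ U j}

/-- `f` in the chart `e c` and the coordinates `q j` -/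
def fmap (c : κ) (j : P) (x : Cn n) : Cn N := q j (f ((e c).symm x))

/-- `f : M → Z` is holomorphic and onto, with connected fibres. -/
structure IsHolConn : Prop where
  cont : Continuous f
  surj : Function.Surjective f
  holo : ∀ c j, HolOn (fmap e q f c j) (fdom e U f c j)
  connected : ∀ z, IsPreconnected (f ⁻¹' {z})

/-- The limit class `[ω(0)] - 2πT c_1(M)` is the pull-back under `f` of the class of the Kähler form
`i ∂ ∂bar K` of `Z`: there is a volume form `Ω` on `M` with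
`ω(0) + T i ∂ ∂bar log Ω = i ∂ ∂bar (K ∘ f)`. -/
structure IsSemiampleLimit (T : ℝ) (ψ : κ → ℝ × Cn n → ℝ) (Ω : κ → Cn n → ℝ)
    (K : P → Cn N → ℝ) : Prop where
  volume : IsVolume e ψ Ω
  eq : ∀ c j, ∀ z ∈ fdom e U f c j, ∀ u,
    lev (ψ c) u (0, z) + T * levz (fun z => Real.log (Ω c z)) u z =
      levz (fun z => K j (fmap e q f c j z)) u z

/-- The Łojasiewicz inequality for `f (x) - f (x')`: two points of `M` are close to two points of one
fibre of `f`, at distance at most a power of the distance of their images. -/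
def IsLoj : Prop := ∃ C a : ℝ, 0 < C ∧ 0 < a ∧ ∀ x x' : M, ∃ x₁ x₁' : M, f x₁ = f x₁' ∧
  dist x x₁ ≤ C * dist (f x) (f x') ^ a ∧ dist x' x₁' ≤ C * dist (f x) (f x') ^ a

/-- The fibres of `f` are covered by algebraic curves of bounded degree: every fibre has a set `A` of
at most `D₀` points such that every point `p` of the fibre is joined to points of `A` by a sheeted
holomorphic curve `γ` in the fibre, a family of `D ≤ D₀` points which depends on `s ∈ ℂ`.  Along the
curve the Kähler form `ω(0)` is at most `i ∂ ∂bar (C log (1 + |s|^2) + ρ)`, see `IsCurve`.  The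
curves may depend on the scale `exp (-l)`. -/
def HasCurves (ψ : κ → ℝ × Cn n → ℝ) : Prop := ∃ (D₀ : ℕ) (C α : ℝ), 0 ≤ C ∧ 0 < α ∧ ∀ z l,
  1 ≤ l → ∃ A : Finset M, A.card ≤ D₀ ∧ (∀ p ∈ A, f p = z) ∧ ∀ p, f p = z →
    ∃ (D : ℕ) (γ : ℂ → Fin D → M) (ρ : M → ℝ) (s₀ s₁ : ℂ), D ≤ D₀ ∧ ‖s₀‖ ≤ 1 ∧ ‖s₁‖ ≤ 1 ∧
      (∀ i, γ s₀ i ∈ A) ∧ (∃ i, γ s₁ i = p) ∧ IsCurve e ψ (f ⁻¹' {z}) C l α γ ρ s₀ s₁

end

end Pool.Agent.KRFZ

end

section

/-!
# The setup of a Kähler-Ricci flow whose limit class is semi-ample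
-/

open scoped ContDiff ENNReal ComplexOrder Topology
open Set MeasureTheory Filter Pool.Agent.ToricKRF Pool.Agent.ToricKRF.G Pool.Agent.KRFS
  Pool.Agent.KRFF Pool.Agent.KRFG Pool.Agent.KRFE

namespace Pool.Agent.KRFZ

/-- A Kähler-Ricci flow whose limit class is the pull-back of a Kähler class under a map `f : M → Z`
with connected fibres.  The charts of `M` have the ball of radius `10` in their target, the unit balls
cover `M`, and the charts and the embeddings of `Z` are bi-Lipschitz.  The fibres are covered by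
sheeted curves (`curv`), and `loj` is the Łojasiewicz inequality of the fibre product. -/
structure Semi (n N : ℕ) (M Z : Type) [MetricSpace M] [MetricSpace Z] (κ P : Type) (T : ℝ)
    extends Flow n M κ T where
  hT : 0 < T
  S : P → Set Z
  q : P → Z → Cn N
  f : M → Z
  K : P → Cn N → ℝ
  target : ∀ c, {x | nsq x < 100} ⊆ (e c).target
  cover : ∀ p, ∃ c, p ∈ (e c).source ∧ nsq (e c p) ≤ 1
  Θ_eq : ∀ c x, Θ c x = ψ c (0, x) + T * Real.log (Ω c x)
  emb : IsEmb e S q f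
  pull : IsPull e S q f T ψ Ω K
  lipM : ∃ C, 0 < C ∧ ∀ c x x', nsq x ≤ 81 → nsq x' ≤ 81 →
    dist ((e c).symm x) ((e c).symm x') ^ 2 ≤ C * nsq (x - x') ∧
      nsq (x - x') ≤ C * dist ((e c).symm x) ((e c).symm x') ^ 2
  lipZ : ∃ C, 0 < C ∧ ∀ j, ∀ z ∈ S j, ∀ z' ∈ S j, nsq (q j z) ≤ 81 → nsq (q j z') ≤ 81 →
    dist z z' ^ 2 ≤ C * nsq (q j z - q j z') ∧ nsq (q j z - q j z') ≤ C * dist z z' ^ 2
  conn : ∀ z, IsPreconnected (f ⁻¹' {z})
  curv : ∃ (D₀ : ℕ) (C α : ℝ), 0 ≤ C ∧ 0 < α ∧ ∀ z l, 1 ≤ l → ∃ A : Finset M, A.card ≤ D₀ ∧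
    (∀ p ∈ A, f p = z) ∧ ∀ p, f p = z → ∃ (D : ℕ) (γ : ℂ → Fin D → M) (ρ : M → ℝ) (s₀ s₁ : ℂ),
      D ≤ D₀ ∧ ‖s₀‖ ≤ 1 ∧ ‖s₁‖ ≤ 1 ∧ (∀ i, γ s₀ i ∈ A) ∧ (∃ i, γ s₁ i = p) ∧
      IsCurve e ψ (f ⁻¹' {z}) C l α γ ρ s₀ s₁
  loj : ∃ Λ, 1 ≤ Λ ∧ LojAt f Λ

section

variable {n N : ℕ} {M Z : Type} [MetricSpace M] [MetricSpace Z] {κ P : Type} {T : ℝ}
  (F : Semi n N M Z κ P T)

/-- the local potential of `θ_t = (1 - t/T) ω(0) + (t/T) θ`, `φ + th = ψ(t)` -/
noncomputable def Semi.th (t : ℝ) (c : κ) (x : Cn n) : ℝ :=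
  F.ψ c (0, x) + t * Real.log (F.Ω c x)

/-- the regularization of `φ(t)` at the scale `exp (-l)`, in the chart `c` -/
noncomputable def Semi.U (t : ℝ) (c : κ) (l : ℝ) (x : Cn n) : ℝ :=
  supB (fun x => F.ψ c (t, x)) x (Real.exp (-l)) - F.th t c x

/-- the maximum of the regularization on the fibre over `z` -/
noncomputable def Semi.mm (t : ℝ) (z : Z) (l : ℝ) : ℝ :=
  sSup {r | ∃ c p, p ∈ (F.e c).source ∧ nsq (F.e c p) ≤ 9 ∧ F.f p = z ∧
    r = F.U t c l (F.e c p)}

/-- `mm (l/2) - mm l + (T - t) l + exp (-l/2)` -/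
noncomputable def Semi.A (t : ℝ) (z : Z) (l : ℝ) : ℝ :=
  F.mm t z (l / 2) - F.mm t z l + (T - t) * l + Real.exp (-(l / 2))

/-- `A + mm - U ≥ A > 0` -/
noncomputable def Semi.G (t : ℝ) (z : Z) (c : κ) (l : ℝ) (x : Cn n) : ℝ :=
  F.A t z l + F.mm t z l - F.U t c l x

/-- the coordinates of `f p` -/
def Semi.y (j : P) (p : M) : Cn N := F.q j (F.f p)

/-- the part of `M` over the ball of radius `9` of the chart `j` of `Z` -/
def Semi.V (j : P) : Set M := {p | F.f p ∈ F.S j ∧ nsq (F.y j p) < 81}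

/-- `h` is holomorphic on `V j` -/
def Semi.Hol (j : P) (h : M → ℂ) : Prop :=
  ∀ c, NF.HolC (fun x => h ((F.e c).symm x)) {x | x ∈ (F.e c).target ∧ (F.e c).symm x ∈ F.V j}

/-- `φ + K_j ∘ F_j` -/
noncomputable def Semi.pK (t : ℝ) (j : P) (p : M) : ℝ := F.Phi t p + F.K j (F.y j p)

/-- the functions `h` of norm at most `1` -/
def Semi.Adm [MeasurableSpace M] (μ : Measure M) (t p : ℝ) (j : P) (h : M → ℂ) : Prop :=
  F.Hol j h ∧ ∫⁻ x in F.V j, ENNReal.ofReal (‖h x‖ ^ 2 * Real.exp (-(p * F.pK t j x))) ∂μ ≤ 1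

/-- `(1/p) log |h|^2 - K_j ∘ F_j` -/
noncomputable def Semi.val (p : ℝ) (j : P) (h : M → ℂ) (x : M) : ℝ :=
  1 / p * Real.log (‖h x‖ ^ 2) - F.K j (F.y j x)

/-- `dbar χ (v)` -/
noncomputable def dbv {n : ℕ} (χ : Cn n → ℂ) (v x : Cn n) : ℂ :=
  (fderiv ℝ χ x v + Complex.I * fderiv ℝ χ x (J v)) / 2

end

end Pool.Agent.KRFZ

end
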