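import Pool.Agent.Work.MP_a2bf38_gt.Fu.K.Setup
import Pool.Agent.Work.MP_a2bf38_gt.Fu.I.Coord
import Pool.Agent.Work.MP_a2bf38_gt.Fu.I.DetLin
import Mathlib.Analysis.SpecialFunctions.Integrals.PosLogEqCircleAverage
import Pool.Agent.Work.MP_a2bf38_gt.Fu.X.LocComp
import Pool.Agent.Work.MP_a2bf38_gt.Fu.H.Cut
import Pool.Agent.Work.MP_a2bf38_gt.Fu.I.PshGood
import Pool.Agent.Work.MP_a2bf38_gt.Fu.I.ABP2
import Pool.Agent.Work.MP_a2bf38_gt.Fu.K.Touch

section

/-!
# The three circles theorem for continuous functions with the sub-mean value property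
-/

open scoped ContDiff ENNReal ComplexOrder Topology
open Set MeasureTheory Filter Pool.Agent.ToricKRF Pool.Agent.ToricKRF.G Pool.Agent.KRFS
  Pool.Agent.KRFF Pool.Agent.KRFG

namespace Pool.Agent.KRFX.RegK

/-- the mean value property of `log ‖ζ‖` off `0` -/
theorem cavg_log_norm {ζ₀ : ℂ} {s : ℝ} (hs : 0 < s) (h : s ≤ ‖ζ₀‖) :
    cavg (fun ζ => Real.log ‖ζ₀ + ζ‖) s = Real.log ‖ζ₀‖ := by
  have h1 := circleAverage_log_norm_sub_const_eq_log_radius_add_posLog (a := 0) (c := ζ₀)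
    (R := s) hs.ne'
  have h2 : 1 ≤ s⁻¹ * ‖ζ₀‖ := by
    rw [← div_eq_inv_mul, le_div_iff₀ hs, one_mul]
    exact h
  have h0 : ‖ζ₀‖ ≠ 0 := (hs.trans_le h).ne'
  simp only [sub_zero] at h1
  rw [Real.posLog_eq_log (by rw [abs_of_nonneg (by positivity)]; exact h2),
    Real.log_mul (by positivity) h0, Real.log_inv] at h1
  rw [cavg]
  rw [Real.circleAverage_def, smul_eq_mul] at h1
  simp only [circleMap] at h1
  rw [h1]
  ring

/-- **Maximum principle** on an annulus. -/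
theorem annulus_max {w : ℂ → ℝ} {r R : ℝ}
    (hw : ContinuousOn w {ζ : ℂ | r ≤ ‖ζ‖ ∧ ‖ζ‖ ≤ R})
    (hs : ∀ ζ₀ : ℂ, r < ‖ζ₀‖ → ‖ζ₀‖ < R → ∀ᶠ s in 𝓝[>] (0 : ℝ),
      w ζ₀ ≤ cavg (fun ζ => w (ζ₀ + ζ)) s)
    (hA : ∀ ζ, ‖ζ‖ = r → w ζ ≤ 0) (hB : ∀ ζ, ‖ζ‖ = R → w ζ ≤ 0) {ζ : ℂ} (h1 : r ≤ ‖ζ‖)
    (h2 : ‖ζ‖ ≤ R) : w ζ ≤ 0 := by
  have hpi := Real.pi_pos
  set K : Set ℂ := {ζ : ℂ | r ≤ ‖ζ‖ ∧ ‖ζ‖ ≤ R} with hK
  have hKcl : IsClosed K :=
    (isClosed_le continuous_const continuous_norm).inter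
      (isClosed_le continuous_norm continuous_const)
  have hKc : IsCompact K := by
    apply (isCompact_closedBall (0 : ℂ) R).of_isClosed_subset hKcl
    intro z hz
    rw [mem_closedBall_zero_iff]
    exact hz.2
  obtain ⟨ζ₁, hζ₁, hmax⟩ := hKc.exists_isMaxOn ⟨ζ, h1, h2⟩ hw
  have hM : ∀ z ∈ K, w z ≤ w ζ₁ := fun z hz => hmax hz
  refine (hM ζ ⟨h1, h2⟩).trans ?_
  by_contra hpos
  push Not at hpos
  have hZ : IsCompact (K ∩ w ⁻¹' {w ζ₁}) :=
    hKc.of_isClosed_subset (hw.preimage_isClosed_of_isClosed hKcl isClosed_singleton)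
      inter_subset_left
  obtain ⟨ζ₀, hζ₀, hre⟩ := hZ.exists_isMaxOn ⟨ζ₁, hζ₁, rfl⟩ Complex.continuous_re.continuousOn
  have hw0 : w ζ₀ = w ζ₁ := hζ₀.2
  have hr0 : r < ‖ζ₀‖ := by
    rcases hζ₀.1.1.lt_or_eq with h | h
    · exact h
    · have := hA ζ₀ h.symm
      linarith
  have hR0 : ‖ζ₀‖ < R := by
    rcases hζ₀.1.2.lt_or_eq with h | h
    · exact h
    · have := hB ζ₀ h
      linarith
  have hsm : ∀ᶠ s in 𝓝[>] (0 : ℝ), s < min (‖ζ₀‖ - r) (R - ‖ζ₀‖) :=
    (eventually_lt_nhds (lt_min (by linarith) (by linarith))).filter_mono nhdsWithin_le_nhds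
  obtain ⟨s, hs1, hs2, hs3⟩ := ((hs ζ₀ hr0 hR0).and (hsm.and self_mem_nhdsWithin)).exists
  have hs0 : (0 : ℝ) < s := hs3
  have hs4 : s < ‖ζ₀‖ - r := hs2.trans_le (min_le_left _ _)
  have hs5 : s < R - ‖ζ₀‖ := hs2.trans_le (min_le_right _ _)
  have hc : ∀ θ : ℝ, ‖(s : ℂ) * Complex.exp (θ * Complex.I)‖ = s := by
    intro θ
    rw [norm_mul, Complex.norm_exp_ofReal_mul_I, mul_one, Complex.norm_real,
      Real.norm_of_nonneg hs0.le]
  have hmem : ∀ θ : ℝ, ζ₀ + (s : ℂ) * Complex.exp (θ * Complex.I) ∈ K := by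
    intro θ
    have k1 := norm_sub_le (ζ₀ + (s : ℂ) * Complex.exp (θ * Complex.I))
      ((s : ℂ) * Complex.exp (θ * Complex.I))
    have k2 := norm_add_le ζ₀ ((s : ℂ) * Complex.exp (θ * Complex.I))
    rw [add_sub_cancel_right, hc] at k1
    rw [hc] at k2
    constructor <;> [skip; skip] <;> linarith
  have hcont : Continuous fun θ : ℝ => w (ζ₀ + (s : ℂ) * Complex.exp (θ * Complex.I)) :=
    hw.comp_continuous (by fun_prop) hmem
  have hposI : 0 < ∫ θ in (0 : ℝ)..2 * Real.pi,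
      (w ζ₁ - w (ζ₀ + (s : ℂ) * Complex.exp (θ * Complex.I))) := by
    apply intervalIntegral.integral_pos (by positivity)
    · exact (continuous_const.sub hcont).continuousOn
    · intro θ _
      have := hM _ (hmem θ)
      linarith
    · refine ⟨0, ⟨le_rfl, by positivity⟩, ?_⟩
      have k1 := hM _ (hmem 0)
      rcases k1.lt_or_eq with k2 | k2
      · linarith
      · exfalso
        have k3 := hre (show ζ₀ + (s : ℂ) * Complex.exp ((0 : ℝ) * Complex.I) ∈
          K ∩ w ⁻¹' {w ζ₁} from ⟨hmem 0, k2⟩)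
        simp at k3
        linarith
  rw [intervalIntegral.integral_sub (continuous_const.intervalIntegrable _ _)
    (hcont.intervalIntegrable _ _), intervalIntegral.integral_const, smul_eq_mul] at hposI
  rw [cavg, inv_mul_eq_div, le_div_iff₀ (by positivity), hw0] at hs1
  linarith

/-- **The three circles theorem.** -/
theorem three_circles {g : ℂ → ℝ} {r R A B : ℝ} (hr : 0 < r) (hrR : r < R)
    (hg : ContinuousOn g {ζ : ℂ | r ≤ ‖ζ‖ ∧ ‖ζ‖ ≤ R})
    (hs : ∀ ζ₀ : ℂ, r < ‖ζ₀‖ → ‖ζ₀‖ < R → ∀ᶠ s in 𝓝[>] (0 : ℝ),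
      g ζ₀ ≤ cavg (fun ζ => g (ζ₀ + ζ)) s)
    (hA : ∀ ζ, ‖ζ‖ = r → g ζ ≤ A) (hB : ∀ ζ, ‖ζ‖ = R → g ζ ≤ B) {ζ : ℂ} (h1 : r ≤ ‖ζ‖)
    (h2 : ‖ζ‖ ≤ R) : g ζ ≤ A + (B - A) * (Real.log (‖ζ‖ / r) / Real.log (R / r)) := by
  have hpi := Real.pi_pos
  have hL : 0 < Real.log (R / r) := Real.log_pos (by rw [one_lt_div hr]; exact hrR)
  set c := (B - A) / Real.log (R / r) with hc
  have hlogc : ContinuousOn (fun ζ : ℂ => Real.log ‖ζ‖) {ζ : ℂ | r ≤ ‖ζ‖ ∧ ‖ζ‖ ≤ R} := by
    intro z hz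
    have : ‖z‖ ≠ 0 := (hr.trans_le hz.1).ne'
    exact (continuous_norm.continuousAt.log this).continuousWithinAt
  set w : ℂ → ℝ := fun ζ => g ζ - A - c * (Real.log ‖ζ‖ - Real.log r) with hw
  have key := annulus_max (w := w) (r := r) (R := R)
    ((hg.sub continuousOn_const).sub
      (continuousOn_const.mul (hlogc.sub continuousOn_const))) ?_ ?_ ?_ h1 h2
  · have h0 : ‖ζ‖ ≠ 0 := (hr.trans_le h1).ne'
    rw [Real.log_div h0 hr.ne']
    have e : (B - A) * ((Real.log ‖ζ‖ - Real.log r) / Real.log (R / r)) =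
        c * (Real.log ‖ζ‖ - Real.log r) := by
      rw [hc]
      ring
    rw [e]
    simp only [hw] at key
    linarith
  · intro ζ₀ hr0 hR0
    have hsm : ∀ᶠ s in 𝓝[>] (0 : ℝ), s < min (‖ζ₀‖ - r) (R - ‖ζ₀‖) :=
      (eventually_lt_nhds (lt_min (by linarith) (by linarith))).filter_mono nhdsWithin_le_nhds
    filter_upwards [hs ζ₀ hr0 hR0, hsm, self_mem_nhdsWithin] with s hs1 hs2 hs3
    have hs0 : (0 : ℝ) < s := hs3
    have hs4 : s < ‖ζ₀‖ - r := hs2.trans_le (min_le_left _ _)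
    have hs5 : s < R - ‖ζ₀‖ := hs2.trans_le (min_le_right _ _)
    have hcn : ∀ θ : ℝ, ‖(s : ℂ) * Complex.exp (θ * Complex.I)‖ = s := by
      intro θ
      rw [norm_mul, Complex.norm_exp_ofReal_mul_I, mul_one, Complex.norm_real,
        Real.norm_of_nonneg hs0.le]
    have hmem : ∀ θ : ℝ, ζ₀ + (s : ℂ) * Complex.exp (θ * Complex.I) ∈
        {ζ : ℂ | r ≤ ‖ζ‖ ∧ ‖ζ‖ ≤ R} := by
      intro θ
      have k1 := norm_sub_le (ζ₀ + (s : ℂ) * Complex.exp (θ * Complex.I))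
        ((s : ℂ) * Complex.exp (θ * Complex.I))
      have k2 := norm_add_le ζ₀ ((s : ℂ) * Complex.exp (θ * Complex.I))
      rw [add_sub_cancel_right, hcn] at k1
      rw [hcn] at k2
      constructor <;> [skip; skip] <;> linarith
    have c1 : Continuous fun θ : ℝ => g (ζ₀ + (s : ℂ) * Complex.exp (θ * Complex.I)) :=
      hg.comp_continuous (by fun_prop) hmem
    have c2 : Continuous fun θ : ℝ =>
        Real.log ‖ζ₀ + (s : ℂ) * Complex.exp (θ * Complex.I)‖ :=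
      hlogc.comp_continuous (by fun_prop) hmem
    have hlog := cavg_log_norm (ζ₀ := ζ₀) hs0 (by linarith)
    have e : cavg (fun ζ => w (ζ₀ + ζ)) s = cavg (fun ζ => g (ζ₀ + ζ)) s - A -
        c * (cavg (fun ζ => Real.log ‖ζ₀ + ζ‖) s - Real.log r) := by
      simp only [cavg, hw]
      rw [intervalIntegral.integral_sub, intervalIntegral.integral_sub,
        intervalIntegral.integral_const_mul, intervalIntegral.integral_sub,
        intervalIntegral.integral_const, intervalIntegral.integral_const, smul_eq_mul,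
        smul_eq_mul]
      · generalize (∫ θ in (0 : ℝ)..2 * Real.pi,
          g (ζ₀ + (s : ℂ) * Complex.exp (θ * Complex.I))) = X
        generalize (∫ θ in (0 : ℝ)..2 * Real.pi,
          Real.log ‖ζ₀ + (s : ℂ) * Complex.exp (θ * Complex.I)‖) = Y
        field_simp
        ring
      · exact c2.intervalIntegrable _ _
      · exact continuous_const.intervalIntegrable _ _
      · exact c1.intervalIntegrable _ _
      · exact continuous_const.intervalIntegrable _ _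
      · exact (c1.sub continuous_const).intervalIntegrable _ _
      · exact (continuous_const.mul (c2.sub continuous_const)).intervalIntegrable _ _
    rw [e, hlog]
    simp only [hw]
    linarith
  · intro z hz
    simp only [hw]
    rw [hz]
    have := hA z hz
    linarith
  · intro z hz
    simp only [hw]
    rw [hz, ← Real.log_div (hr.trans hrR).ne' hr.ne', hc, div_mul_cancel₀ _ hL.ne']
    have := hB z hz
    linarith

theorem nsq_lineL {m : ℕ} (v : Cn m) (ζ : ℂ) : nsq (lineL v ζ) = ‖ζ‖ ^ 2 * nsq v := by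
  rw [← Complex.normSq_eq_norm_sq, Complex.normSq_apply]
  simp only [nsq, lineL_apply, J, dotProduct, ← Finset.sum_add_distrib, Finset.mul_sum]
  apply Finset.sum_congr rfl
  intro i _
  simp
  ring

theorem line_line {m : ℕ} (z v : Cn m) (ζ₀ ζ : ℂ) (s : ℝ) :
    line (line z v ζ₀) (s • v) ζ = line z v (ζ₀ + s * ζ) := by
  rw [line_add, line, lineL_apply]
  simp only [J_smul, Complex.re_ofReal_mul, Complex.im_ofReal_mul, smul_smul]
  rw [add_assoc, mul_comm s, mul_comm s]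

/-- the sub-mean value property along a line -/
theorem pshC_line {m : ℕ} {u : Cn m → ℝ} {V : Set (Cn m)} (hV : IsOpen V) (hu : PshC u V)
    {z v : Cn m} {ζ₀ : ℂ} (h : line z v ζ₀ ∈ V) :
    ∀ᶠ s in 𝓝[>] (0 : ℝ), u (line z v ζ₀) ≤ cavg (fun ζ => u (line z v (ζ₀ + ζ))) s := by
  have hev : ∀ᶠ ζ in 𝓝 ζ₀, line z v ζ ∈ V :=
    (contDiff_line z v).continuous.continuousAt.eventually_mem (hV.mem_nhds h)
  obtain ⟨r, hr, hrs⟩ := Metric.nhds_basis_closedBall.eventually_iff.mp hev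
  have hsm : ∀ᶠ s in 𝓝[>] (0 : ℝ), s < r :=
    (eventually_lt_nhds hr).filter_mono nhdsWithin_le_nhds
  filter_upwards [hsm, self_mem_nhdsWithin] with s hs1 hs2
  have hs0 : (0 : ℝ) < s := hs2
  have k := hu.2 (line z v ζ₀) (s • v) fun ζ hζ => by
    rw [line_line]
    apply hrs
    rw [Metric.mem_closedBall, dist_eq_norm, add_sub_cancel_left, norm_mul, Complex.norm_real,
      Real.norm_of_nonneg hs0.le]
    calc s * ‖ζ‖ ≤ s * 1 := mul_le_mul_of_nonneg_left hζ hs0.le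
      _ ≤ r := by rw [mul_one]; exact hs1.le
  refine k.trans (le_of_eq ?_)
  simp only [cavg, line_line, Complex.ofReal_one, one_mul]

/-- **The three balls theorem** for continuous psh functions. -/
theorem three_balls {m : ℕ} {u : Cn m → ℝ} {V : Set (Cn m)} (hV : IsOpen V) (hu : PshC u V)
    {y : Cn m} {r R A B : ℝ} (hr : 0 < r) (hrR : r < R)
    (hsub : ∀ x, nsq (x - y) ≤ R ^ 2 → x ∈ V)
    (hA : ∀ x, nsq (x - y) ≤ r ^ 2 → u x ≤ A) (hB : ∀ x, nsq (x - y) ≤ R ^ 2 → u x ≤ B)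
    (hAB : A ≤ B) {x : Cn m} {t : ℝ} (hrt : r ≤ t) (htR : t ≤ R)
    (hx : nsq (x - y) ≤ t ^ 2) :
    u x ≤ A + (B - A) * (Real.log (t / r) / Real.log (R / r)) := by
  have hL : 0 < Real.log (R / r) := Real.log_pos (by rw [one_lt_div hr]; exact hrR)
  have hn0 : ∀ z : Cn m, 0 ≤ nsq z := fun z => by
    unfold nsq
    exact add_nonneg (Finset.sum_nonneg fun i _ => mul_self_nonneg _)
      (Finset.sum_nonneg fun i _ => mul_self_nonneg _)
  set d := √(nsq (x - y)) with hd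
  have hd2 : d ^ 2 = nsq (x - y) := Real.sq_sqrt (hn0 _)
  have hd0 : 0 ≤ d := Real.sqrt_nonneg _
  have hdt : d ≤ t := by
    refine (abs_le_of_sq_le_sq' ?_ (hr.le.trans hrt)).2
    rw [hd2]
    exact hx
  have hBA : 0 ≤ B - A := by linarith
  have hlt : 0 ≤ Real.log (t / r) := Real.log_nonneg (by rw [one_le_div hr]; exact hrt)
  rcases le_or_gt d r with h | h
  · have k1 := hA x (by rw [← hd2]; exact pow_le_pow_left₀ hd0 h 2)
    have k2 : 0 ≤ (B - A) * (Real.log (t / r) / Real.log (R / r)) := by positivity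
    linarith
  · have hdp : 0 < d := hr.trans h
    have hV' : ∀ ζ : ℂ, ‖ζ‖ ≤ R / d → line y (x - y) ζ ∈ V ∧ u (line y (x - y) ζ) ≤ B := by
      intro ζ hζ
      have k : nsq (line y (x - y) ζ - y) ≤ R ^ 2 := by
        rw [line_eq, add_sub_cancel_left, nsq_lineL, ← hd2, ← mul_pow]
        apply pow_le_pow_left₀ (by positivity)
        rwa [le_div_iff₀ hdp] at hζ
      exact ⟨hsub _ k, hB _ k⟩
    have hx1 : line y (x - y) 1 = x := by
      rw [line_eq, lineL_one, add_sub_cancel]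
    have key := three_circles (g := fun ζ => u (line y (x - y) ζ)) (r := r / d) (R := R / d)
      (A := A) (B := B) (by positivity) (by gcongr) ?_ ?_ ?_ ?_ (ζ := 1) ?_ ?_
    · rw [norm_one, hx1] at key
      refine key.trans ?_
      have e1 : (1 : ℝ) / (r / d) = d / r := by
        field_simp
      have e2 : R / d / (r / d) = R / r := by
        field_simp
      rw [e1, e2]
      gcongr
    · refine hu.1.comp (contDiff_line y (x - y)).continuous.continuousOn ?_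
      intro ζ hζ
      exact (hV' ζ hζ.2).1
    · intro ζ₀ _ h2
      exact pshC_line hV hu (hV' ζ₀ h2.le).1
    · intro ζ hζ
      apply hA
      rw [line_eq, add_sub_cancel_left, nsq_lineL, ← hd2, hζ, ← mul_pow, div_mul_cancel₀ _ hdp.ne']
    · intro ζ hζ
      exact (hV' ζ hζ.le).2
    · rw [norm_one, div_le_one hdp]
      exact h.le
    · rw [norm_one, one_le_div hdp]
      exact hdt.trans htR

end Pool.Agent.KRFX.RegK

end

section

/-!
# The regularization of the potential in the charts of `M`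

`U t c l x = sup_{|w| ≤ 1} ψ_c (t, x + e^{-l} w) - th_c (t, x)`.
-/

open scoped ContDiff ENNReal ComplexOrder Topology
open Set MeasureTheory Filter Pool.Agent.ToricKRF Pool.Agent.ToricKRF.G Pool.Agent.KRFS
  Pool.Agent.KRFF Pool.Agent.KRFG Pool.Agent.KRFE

namespace Pool.Agent.KRFZ

set_option linter.unusedSectionVars false

namespace Reg

open KRFE.SupReg

variable {m : ℕ}

theorem nsq_eq' (z : Cn m) : nsq z = ∑ i, (z.1 i ^ 2 + z.2 i ^ 2) := by
  simp only [nsq, dotProduct, ← Finset.sum_add_distrib]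
  exact Finset.sum_congr rfl fun i _ => by ring

theorem convex_nsq (r : ℝ) : Convex ℝ {x : Cn m | nsq x ≤ r} := by
  intro x hx y hy s t hs ht hst
  have hx' : nsq x ≤ r := hx
  have hy' : nsq y ≤ r := hy
  show nsq (s • x + t • y) ≤ r
  have h1 : nsq (s • x + t • y) ≤ s * nsq x + t * nsq y := by
    rw [nsq_eq', nsq_eq', nsq_eq', Finset.mul_sum, Finset.mul_sum, ← Finset.sum_add_distrib]
    refine Finset.sum_le_sum fun i _ => ?_
    simp only [Prod.fst_add, Prod.snd_add, Pi.add_apply, Prod.smul_fst, Prod.smul_snd,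
      Pi.smul_apply, smul_eq_mul]
    have key : ∀ a b : ℝ, (s * a + t * b) ^ 2 ≤ s * a ^ 2 + t * b ^ 2 := by
      intro a b
      have h3 : s * a ^ 2 + t * b ^ 2 - (s * a + t * b) ^ 2 = s * t * (a - b) ^ 2 := by
        have : t = 1 - s := by linarith
        rw [this]
        ring
      have := mul_nonneg (mul_nonneg hs ht) (sq_nonneg (a - b))
      linarith
    have h4 := key (x.1 i) (y.1 i)
    have h5 := key (x.2 i) (y.2 i)
    linarith
  calc nsq (s • x + t • y) ≤ s * nsq x + t * nsq y := h1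
    _ ≤ s * r + t * r := by gcongr
    _ = r := by rw [← add_mul, hst, one_mul]

theorem isCompact_le {r : ℝ} (hr : 0 < r) : IsCompact {z : Cn m | nsq z ≤ r} := by
  have h := isCompact_nsq_sub (n := m) 0 (Real.sqrt_pos.2 hr)
  simp only [sub_zero, Real.sq_sqrt hr.le] at h
  exact h

theorem nsq_add_le {x w : Cn m} {a b : ℝ} (ha : 0 ≤ a) (hb : 0 ≤ b) (hx : nsq x ≤ a ^ 2)
    (hw : nsq w ≤ b ^ 2) : nsq (x + w) ≤ (a + b) ^ 2 := by
  have h1 : nsq (x + w) = nsq x + 2 * ABP.ip x w + nsq w := by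
    simp only [nsq, ABP.ip, Prod.fst_add, Prod.snd_add, dotProduct, Pi.add_apply,
      ← Finset.sum_add_distrib, Finset.mul_sum]
    refine Finset.sum_congr rfl fun i _ => ?_
    ring
  have h2 := ABP.ip_sq_le x w
  have h3 : ABP.ip x w ≤ a * b := by
    refine (abs_le_of_sq_le_sq' ?_ (by positivity)).2
    calc ABP.ip x w ^ 2 ≤ nsq x * nsq w := h2
      _ ≤ a ^ 2 * b ^ 2 := mul_le_mul hx hw (SupReg.nsq_nonneg w) (by positivity)
      _ = (a * b) ^ 2 := by ring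
  rw [h1]
  nlinarith

/-- the closed balls of radius `r ≤ ρ` around the points of the ball of radius `4` -/
theorem cball_sub {x : Cn m} (hx : nsq x ≤ 16) {r ρ : ℝ} (hr : 0 ≤ r) (h : r ≤ ρ) :
    cball x r ⊆ {y : Cn m | nsq y ≤ (4 + ρ) ^ 2} := by
  intro y hy
  have hy' : nsq (y - x) ≤ r ^ 2 := hy
  have h1 := nsq_add_le (x := x) (w := y - x) (a := 4) (b := r) (by norm_num) hr
    (by norm_num; exact hx) hy'
  rw [add_sub_cancel] at h1
  refine h1.trans ?_
  exact pow_le_pow_left₀ (by positivity) (by linarith) 2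

theorem isOpen_lt (r : ℝ) : IsOpen {z : Cn m | nsq z < r} :=
  _root_.isOpen_lt SupReg.continuous_nsq continuous_const

theorem norm_le {x : Cn m} {r : ℝ} (hr : 0 ≤ r) (h : nsq x ≤ r ^ 2) : ‖x‖ ≤ r :=
  (norm_le_sqrt_nsq x).trans ((Real.sqrt_le_sqrt h).trans (le_of_eq (Real.sqrt_sq hr)))

/-- a smooth function is Lipschitz on the ball of radius `5` -/
theorem lip {f : Cn m → ℝ} (hf : ContDiffOn ℝ ∞ f {z | nsq z < 100}) : ∃ L : ℝ, 0 ≤ L ∧
    ∀ x y : Cn m, nsq x ≤ 25 → nsq y ≤ 25 → |f y - f x| ≤ L * ‖y - x‖ := by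
  have hU := isOpen_lt (m := m) 100
  have hsub : {z : Cn m | nsq z ≤ 25} ⊆ {z | nsq z < 100} := fun z hz =>
    lt_of_le_of_lt (show nsq z ≤ 25 from hz) (by norm_num)
  have hfd : ContinuousOn (fun x => ‖fderiv ℝ f x‖) {z : Cn m | nsq z ≤ 25} :=
    (((contDiffOn_infty_iff_fderiv_of_isOpen hU).1 hf).2.continuousOn.mono hsub).norm
  obtain ⟨C, hC⟩ := (isCompact_le (m := m) (r := 25) (by norm_num)).bddAbove_image hfd
  refine ⟨max C 0, le_max_right _ _, fun x y hx hy => ?_⟩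
  rw [← Real.norm_eq_abs]
  refine (convex_nsq (m := m) 25).norm_image_sub_le_of_norm_fderiv_le (𝕜 := ℝ) (f := f)
    (fun z hz => ?_) (fun z hz => ?_) hx hy
  · exact (hf.differentiableOn (by simp)).differentiableAt (hU.mem_nhds (hsub hz))
  · exact (hC (mem_image_of_mem _ hz)).trans (le_max_left _ _)

end Reg

section

open KRFE.SupReg

variable {n N : ℕ} {M Z : Type} [MetricSpace M] [MetricSpace Z] {κ P : Type} {T : ℝ}
  (F : Semi n N M Z κ P T)

namespace Reg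

/-- the ball of radius `10` -/
def BB (n : ℕ) : Set (Cn n) := {z | nsq z < 100}

theorem isOpen_BB : IsOpen (BB n) := isOpen_lt 100

theorem sub_target (c : κ) : BB n ⊆ (F.e c).target := F.target c

theorem le_sub_BB {r : ℝ} (hr : r < 100) : {z : Cn n | nsq z ≤ r} ⊆ BB n := fun _ hz =>
  lt_of_le_of_lt hz hr

theorem psi_smooth {t : ℝ} (ht : t ∈ Ico 0 T) (c : κ) :
    ContDiffOn ℝ ∞ (fun x => F.ψ c (t, x)) (F.e c).target := by
  obtain ⟨U, hU, hsub, hψ⟩ := F.krf.smooth c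
  exact hψ.comp (contDiff_const.prodMk contDiff_id).contDiffOn fun x hx => hsub ⟨ht, hx⟩

theorem psi_psh {t : ℝ} (ht : t ∈ Ico 0 T) (c : κ) : PshC (fun x => F.ψ c (t, x)) (BB n) := by
  obtain ⟨U, hU, hsub, hψ⟩ := F.krf.smooth c
  refine KRFH.BallM.pshC_of_levz isOpen_BB ((psi_smooth F ht c).mono (sub_target F c))
    fun z hz u => ?_
  rw [levz_slice hU hψ (hsub ⟨ht, sub_target F c hz⟩)]
  exact F.toFlow.lev_nonneg ht (sub_target F c hz) u

theorem logO_smooth (c : κ) : ContDiffOn ℝ ∞ (fun x => Real.log (F.Ω c x)) (F.e c).target :=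
  (F.vol.smooth c).log fun x hx => (F.vol.pos c x hx).ne'

theorem th_smooth (hT : 0 < T) (t : ℝ) (c : κ) : ContDiffOn ℝ ∞ (F.th t c) (F.e c).target :=
  (psi_smooth F ⟨le_rfl, hT⟩ c).add (contDiffOn_const.mul (logO_smooth F c))

theorem pos_T {t : ℝ} (ht : t ∈ Ico 0 T) : 0 < T := ht.1.trans_lt ht.2

theorem cball_sub_BB {x : Cn n} (hx : nsq x ≤ 16) {r : ℝ} (hr : 0 ≤ r) (h : r ≤ 5) :
    cball x r ⊆ BB n :=
  (cball_sub hx hr h).trans (le_sub_BB (by norm_num))

theorem exp_neg_le {l : ℝ} (hl : 0 ≤ l) : Real.exp (-l) ≤ 1 := Real.exp_le_one_iff.2 (by linarith)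

/-- finitely many positive numbers -/
theorem exists_pos_le {ι : Type*} [Finite ι] {f : ι → ℝ} (hf : ∀ i, 0 < f i) :
    ∃ c > 0, ∀ i, c ≤ f i := by
  have := Fintype.ofFinite ι
  have h0 : 0 ≤ ∑ i, (f i)⁻¹ := Finset.sum_nonneg fun i _ => (inv_pos.2 (hf i)).le
  refine ⟨(∑ i, (f i)⁻¹ + 1)⁻¹, by positivity, fun i => ?_⟩
  rw [inv_le_comm₀ (by positivity) (hf i)]
  have := Finset.single_le_sum (f := fun i => (f i)⁻¹) (fun i _ => (inv_pos.2 (hf i)).le)
    (Finset.mem_univ i)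
  linarith

/-- `φ = ψ - th` in the charts -/
theorem Phi_eq_th {t : ℝ} (ht : t ∈ Ico 0 T) {c : κ} {p : M} (hp : p ∈ (F.e c).source) :
    F.Phi t p = F.ψ c (t, F.e c p) - F.th t c (F.e c p) := by
  rw [F.toFlow.Phi_eq ht hp]
  simp only [Flow.phi, Semi.th]
  ring

/-- uniform Lipschitz constant of `th` -/
theorem th_lip [Finite κ] : ∃ L : ℝ, 0 ≤ L ∧ ∀ t ∈ Ico 0 T, ∀ (c : κ) (x y : Cn n), nsq x ≤ 25 →
    nsq y ≤ 25 → |F.th t c y - F.th t c x| ≤ L * ‖y - x‖ := by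
  by_cases hT : 0 < T
  swap
  · exact ⟨0, le_rfl, fun t ht => absurd (pos_T ht) hT⟩
  choose L₁ hL₁ h₁ using fun c => lip ((psi_smooth F ⟨le_rfl, hT⟩ c).mono (sub_target F c))
  choose L₂ hL₂ h₂ using fun c => lip ((logO_smooth F c).mono (sub_target F c))
  obtain ⟨B₁, hB₁⟩ := Finite.exists_le L₁
  obtain ⟨B₂, hB₂⟩ := Finite.exists_le L₂
  refine ⟨|B₁| + T * |B₂|, by positivity, fun t ht c x y hx hy => ?_⟩
  have e : F.th t c y - F.th t c x = (F.ψ c (0, y) - F.ψ c (0, x)) +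
      t * (Real.log (F.Ω c y) - Real.log (F.Ω c x)) := by
    simp only [Semi.th]
    ring
  rw [e]
  have k1 := h₁ c x y hx hy
  have k2 := h₂ c x y hx hy
  have n0 := norm_nonneg (y - x)
  calc _ ≤ |F.ψ c (0, y) - F.ψ c (0, x)| + |t * (Real.log (F.Ω c y) - Real.log (F.Ω c x))| :=
        abs_add_le _ _
    _ ≤ |B₁| * ‖y - x‖ + T * (|B₂| * ‖y - x‖) := by
        rw [abs_mul, abs_of_nonneg ht.1]
        refine add_le_add (k1.trans ?_) (mul_le_mul ht.2.le (k2.trans ?_) (abs_nonneg _) hT.le)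
        · exact mul_le_mul_of_nonneg_right ((hB₁ c).trans (le_abs_self _)) n0
        · exact mul_le_mul_of_nonneg_right ((hB₂ c).trans (le_abs_self _)) n0
    _ = _ := by ring

/-- the points near a point of the ball of radius `4` of a chart are in the ball of radius `5` -/
theorem near [CompactSpace M] [Finite κ] : ∃ δ > 0, ∀ (c : κ) (p q : M), p ∈ (F.e c).source →
    nsq (F.e c p) ≤ 16 → dist p q < δ → q ∈ (F.e c).source ∧ nsq (F.e c q) ≤ 25 := by
  have h : ∀ c : κ, ∃ δ > 0, ∀ (p q : M), p ∈ (F.e c).source →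
      nsq (F.e c p) ≤ 16 → dist p q < δ → q ∈ (F.e c).source ∧ nsq (F.e c q) ≤ 25 := by
    intro c
    have hsub : {z : Cn n | nsq z ≤ 16} ⊆ (F.e c).target :=
      (le_sub_BB (by norm_num)).trans (sub_target F c)
    have hK : IsCompact ((F.e c).symm '' {z : Cn n | nsq z ≤ 16}) :=
      (isCompact_le (by norm_num)).image_of_continuousOn ((F.e c).continuousOn_symm.mono hsub)
    have hO : IsOpen ((F.e c).source ∩ F.e c ⁻¹' {z | nsq z < 25}) :=
      (F.e c).isOpen_inter_preimage (isOpen_lt 25)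
    obtain ⟨δ, hδ, hδO⟩ := hK.exists_thickening_subset_open hO (by
      rintro _ ⟨z, hz, rfl⟩
      refine ⟨(F.e c).map_target (hsub hz), ?_⟩
      rw [mem_preimage, (F.e c).right_inv (hsub hz)]
      exact lt_of_le_of_lt (show nsq z ≤ 16 from hz) (by norm_num))
    refine ⟨δ, hδ, fun p q hp hx hd => ?_⟩
    have h1 : q ∈ Metric.thickening δ ((F.e c).symm '' {z : Cn n | nsq z ≤ 16}) := by
      rw [Metric.mem_thickening_iff]
      refine ⟨p, ⟨F.e c p, hx, (F.e c).left_inv hp⟩, ?_⟩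
      rw [dist_comm]
      exact hd
    have h2 := hδO h1
    exact ⟨h2.1, le_of_lt h2.2⟩
  choose δ hδ h' using h
  obtain ⟨δ', hδ', hle⟩ := exists_pos_le hδ
  exact ⟨δ', hδ', fun c p q hp hx hd => h' c p q hp hx (hd.trans_le (hle c))⟩

end Reg

open Reg

section
variable [CompactSpace M] [Finite κ] [Finite P]

theorem Semi.U_bound : ∃ C, 0 ≤ C ∧ ∀ t ∈ Ico 0 T, ∀ c x l, nsq x ≤ 16 → 0 ≤ l →
    |F.U t c l x| ≤ C := by
  by_cases hT : 0 < T
  swap
  · exact ⟨0, le_rfl, fun t ht => absurd (pos_T ht) hT⟩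
  have h : ∀ c, ∃ C, 0 ≤ C ∧ ∀ t ∈ Ico 0 T, ∀ x l, nsq x ≤ 16 → 0 ≤ l → |F.U t c l x| ≤ C := by
    intro c
    have hcp : IsCompact {z : Cn n | nsq z ≤ 25} := isCompact_le (by norm_num)
    have hsub : {z : Cn n | nsq z ≤ 25} ⊆ (F.e c).target :=
      (le_sub_BB (by norm_num)).trans (sub_target F c)
    obtain ⟨C₁, hC₁, h₁⟩ := F.toFlow.psi_bound hT c hcp hsub
    obtain ⟨C₂, h₂⟩ := hcp.exists_bound_of_continuousOn ((logO_smooth F c).continuousOn.mono hsub)
    refine ⟨C₁ + (C₁ + T * |C₂|), by positivity, fun t ht x l hx hl => ?_⟩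
    have hx25 : nsq x ≤ 25 := hx.trans (by norm_num)
    have hcb : cball x (Real.exp (-l)) ⊆ {y : Cn n | nsq y ≤ 25} := by
      have := cball_sub hx (Real.exp_pos (-l)).le (exp_neg_le hl)
      norm_num at this
      exact this
    have k1 : |supB (fun x => F.ψ c (t, x)) x (Real.exp (-l))| ≤ C₁ := by
      rw [abs_le]
      constructor
      · exact (abs_le.1 (h₁ t ht x hx25)).1.trans (SupReg.le_self (psi_psh F ht c).1
          (cball_sub_BB hx (Real.exp_pos (-l)).le ((exp_neg_le hl).trans (by norm_num))))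
      · exact SupReg.supB_le fun w hw =>
          (abs_le.1 (h₁ t ht _ (hcb (SupReg.mem_cball hw)))).2
    have k2 : |F.th t c x| ≤ C₁ + T * |C₂| := by
      have := h₂ x hx25
      rw [Real.norm_eq_abs] at this
      simp only [Semi.th]
      refine (abs_add_le _ _).trans (add_le_add (h₁ 0 ⟨le_rfl, hT⟩ x hx25) ?_)
      rw [abs_mul, abs_of_nonneg ht.1]
      exact mul_le_mul ht.2.le (this.trans (le_abs_self _)) (abs_nonneg _) hT.le
    exact (abs_sub _ _).trans (add_le_add k1 k2)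
  choose C hC h' using h
  obtain ⟨B, hB⟩ := Finite.exists_le C
  exact ⟨|B|, abs_nonneg _, fun t ht c x l hx hl =>
    (h' c t ht x l hx hl).trans ((hB c).trans (le_abs_self _))⟩

theorem Semi.U_anti {t : ℝ} (ht : t ∈ Ico 0 T) {c : κ} {x : Cn n} (hx : nsq x ≤ 16) {l l' : ℝ}
    (hl : 0 ≤ l) (h : l ≤ l') : F.U t c l' x ≤ F.U t c l x := by
  refine sub_le_sub_right (SupReg.supB_mono (psi_psh F ht c).1 (Real.exp_pos _)
    (Real.exp_le_exp.2 (by linarith)) ?_) _
  exact cball_sub_BB hx (Real.exp_pos _).le ((exp_neg_le hl).trans (by norm_num))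

/-- Hadamard's three balls theorem (`X/RegHad.lean`) -/
theorem Semi.U_convex {t : ℝ} (ht : t ∈ Ico 0 T) {c : κ} {x : Cn n} (hx : nsq x ≤ 16)
    {l₁ l₂ lam : ℝ} (h₁ : 0 ≤ l₁) (h₂ : l₁ ≤ l₂) (hlam : lam ∈ Icc (0 : ℝ) 1) :
    F.U t c ((1 - lam) * l₁ + lam * l₂) x ≤ (1 - lam) * F.U t c l₁ x + lam * F.U t c l₂ x := by
  rcases h₂.eq_or_lt with h | h
  · subst h
    have e : (1 - lam) * l₁ + lam * l₁ = l₁ := by ring
    rw [e]
    exact le_of_eq (by ring)
  set l := (1 - lam) * l₁ + lam * l₂ with hl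
  have hl1 : l₁ ≤ l := by
    have : l - l₁ = lam * (l₂ - l₁) := by rw [hl]; ring
    nlinarith [hlam.1, hlam.2]
  have hl2 : l ≤ l₂ := by
    have : l₂ - l = (1 - lam) * (l₂ - l₁) := by rw [hl]; ring
    nlinarith [hlam.1, hlam.2]
  have hcont := (psi_psh F ht c).1
  have hcb : ∀ r, 0 ≤ r → r ≤ Real.exp (-l₁) → cball x r ⊆ BB n := fun r hr hr1 =>
    cball_sub_BB hx hr ((hr1.trans (exp_neg_le h₁)).trans (by norm_num))
  set A := supB (fun x => F.ψ c (t, x)) x (Real.exp (-l₂)) with hA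
  set B := supB (fun x => F.ψ c (t, x)) x (Real.exp (-l₁)) with hB
  have hAB : A ≤ B := SupReg.supB_mono hcont (Real.exp_pos _)
    (Real.exp_le_exp.2 (by linarith)) (hcb _ (Real.exp_pos _).le le_rfl)
  have hsup : supB (fun x => F.ψ c (t, x)) x (Real.exp (-l)) ≤ (1 - lam) * B + lam * A := by
    refine SupReg.supB_le fun w hw => ?_
    have key := KRFX.RegK.three_balls isOpen_BB (psi_psh F ht c) (y := x)
      (r := Real.exp (-l₂)) (R := Real.exp (-l₁)) (A := A) (B := B) (Real.exp_pos _)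
      (Real.exp_lt_exp.2 (by linarith))
      (fun y hy => hcb _ (Real.exp_pos _).le le_rfl hy)
      (fun y hy => SupReg.le_supB_of_mem hcont (Real.exp_pos _)
        (hcb _ (Real.exp_pos _).le (Real.exp_le_exp.2 (by linarith))) hy)
      (fun y hy => SupReg.le_supB_of_mem hcont (Real.exp_pos _)
        (hcb _ (Real.exp_pos _).le le_rfl) hy) hAB
      (x := x + Real.exp (-l) • w) (t := Real.exp (-l))
      (Real.exp_le_exp.2 (by linarith)) (Real.exp_le_exp.2 (by linarith))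
      (SupReg.mem_cball hw)
    refine key.trans (le_of_eq ?_)
    rw [← Real.exp_sub, ← Real.exp_sub, Real.log_exp, Real.log_exp]
    have e1 : -l - -l₂ = (1 - lam) * (l₂ - l₁) := by rw [hl]; ring
    have e2 : -l₁ - -l₂ = l₂ - l₁ := by ring
    rw [e1, e2, mul_div_cancel_right₀ _ (sub_pos.2 h).ne']
    ring
  have e : ∀ l, F.U t c l x = supB (fun x => F.ψ c (t, x)) x (Real.exp (-l)) - F.th t c x :=
    fun _ => rfl
  rw [e, e, e]
  linarith

theorem Semi.Phi_le_U {t : ℝ} (ht : t ∈ Ico 0 T) {c : κ} {p : M} (hp : p ∈ (F.e c).source)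
    (hx : nsq (F.e c p) ≤ 16) {l : ℝ} (hl : 0 ≤ l) : F.Phi t p ≤ F.U t c l (F.e c p) := by
  rw [Phi_eq_th F ht hp]
  refine sub_le_sub_right (SupReg.le_self (psi_psh F ht c).1 ?_) _
  exact cball_sub_BB hx (Real.exp_pos _).le ((exp_neg_le hl).trans (by norm_num))

theorem Semi.Phi_le_U_near : ∃ C a, 0 ≤ C ∧ 0 ≤ a ∧ ∀ t ∈ Ico 0 T, ∀ c p p' l,
    p ∈ (F.e c).source → nsq (F.e c p) ≤ 16 → a ≤ l → dist p p' ≤ Real.exp (-l) →
    F.Phi t p' ≤ F.U t c (l - a) (F.e c p) + C * Real.exp (-l) := by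
  obtain ⟨L, hL, hlip⟩ := th_lip F
  obtain ⟨δ, hδ, hnear⟩ := near F
  obtain ⟨C₀, hC₀, hM⟩ := F.lipM
  have hs0 : 0 ≤ √C₀ := Real.sqrt_nonneg _
  have ha0 : 0 ≤ √C₀ + 1 / δ := by positivity
  refine ⟨L * √C₀, √C₀ + 1 / δ, by positivity, ha0, fun t ht c p p' l hp hx hl hd => ?_⟩
  set a := √C₀ + 1 / δ with ha
  have hea := Real.add_one_le_exp a
  have h1d : 0 < 1 / δ := by positivity
  -- `exp (-l) < δ`
  have hlδ : Real.exp (-l) < δ := by
    have h1 : Real.exp (-l) ≤ Real.exp (-a) := Real.exp_le_exp.2 (by linarith)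
    have h2 : Real.exp (-a) < δ := by
      rw [Real.exp_neg, inv_lt_comm₀ (Real.exp_pos _) hδ]
      have : δ⁻¹ = 1 / δ := by rw [one_div]
      rw [this]
      linarith
    linarith
  obtain ⟨hp', hx'⟩ := hnear c p p' hp hx (hd.trans_lt hlδ)
  have hx25 : nsq (F.e c p) ≤ 25 := hx.trans (by norm_num)
  -- the distance in the chart
  have hdist : nsq (F.e c p' - F.e c p) ≤ (√C₀ * Real.exp (-l)) ^ 2 := by
    have h1 := (hM c (F.e c p') (F.e c p) (hx'.trans (by norm_num))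
      (hx.trans (by norm_num))).2
    rw [(F.e c).left_inv hp', (F.e c).left_inv hp] at h1
    refine h1.trans ?_
    rw [mul_pow, Real.sq_sqrt hC₀.le, dist_comm]
    exact mul_le_mul_of_nonneg_left (pow_le_pow_left₀ dist_nonneg hd 2) hC₀.le
  have hr1 : Real.exp (-(l - a)) ≤ 1 := exp_neg_le (by linarith)
  have hmem : F.e c p' ∈ cball (F.e c p) (Real.exp (-(l - a))) := by
    refine hdist.trans (pow_le_pow_left₀ (by positivity) ?_ 2)
    have : Real.exp (-(l - a)) = Real.exp a * Real.exp (-l) := by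
      rw [← Real.exp_add]; ring_nf
    rw [this]
    exact mul_le_mul_of_nonneg_right (by linarith) (Real.exp_pos _).le
  have h3 : F.ψ c (t, F.e c p') ≤ supB (fun x => F.ψ c (t, x)) (F.e c p) (Real.exp (-(l - a))) :=
    SupReg.le_supB_of_mem (psi_psh F ht c).1 (Real.exp_pos _)
      (cball_sub_BB hx (Real.exp_pos _).le (hr1.trans (by norm_num))) hmem
  have h4 := hlip t ht c (F.e c p) (F.e c p') hx25 hx'
  have h5 : ‖F.e c p' - F.e c p‖ ≤ √C₀ * Real.exp (-l) := norm_le (by positivity) hdist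
  have h6 : L * ‖F.e c p' - F.e c p‖ ≤ L * √C₀ * Real.exp (-l) := by
    rw [mul_assoc]
    exact mul_le_mul_of_nonneg_left h5 hL
  rw [Phi_eq_th F ht hp']
  have e : F.U t c (l - a) (F.e c p) =
    supB (fun x => F.ψ c (t, x)) (F.e c p) (Real.exp (-(l - a))) - F.th t c (F.e c p) := rfl
  rw [e]
  have h7 := (abs_le.1 h4).1
  linarith

theorem Semi.U_le_U : ∃ C a, 0 ≤ C ∧ 0 ≤ a ∧ ∀ t ∈ Ico 0 T, ∀ c c' p p' l,
    p ∈ (F.e c).source → p' ∈ (F.e c').source → nsq (F.e c p) ≤ 16 → nsq (F.e c' p') ≤ 16 →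
    a ≤ l → dist p p' ≤ Real.exp (-l) →
    F.U t c l (F.e c p) ≤ F.U t c' (l - a) (F.e c' p') + C * Real.exp (-l) := by
  obtain ⟨L, hL, hlip⟩ := th_lip F
  obtain ⟨C₁, a₁, hC₁, ha₁, h₁⟩ := F.Phi_le_U_near
  obtain ⟨C₀, hC₀, hM⟩ := F.lipM
  have hs0 : 0 ≤ √C₀ := Real.sqrt_nonneg _
  refine ⟨C₁ * Real.exp (√C₀) + L, √C₀ + a₁, by positivity, by positivity,
    fun t ht c c' p p' l hp hp' hx hx' hl hd => ?_⟩
  set b := √C₀ with hb
  have heb := Real.add_one_le_exp b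
  have hl0 : 0 ≤ l := by linarith
  have hel1 := exp_neg_le hl0
  obtain ⟨w, hw, hwe⟩ := SupReg.exists_supB (psi_psh F ht c).1
    (cball_sub_BB hx (Real.exp_pos (-l)).le (hel1.trans (by norm_num)))
  set x := F.e c p with hxdef
  set y := x + Real.exp (-l) • w with hy
  have hyc : nsq (y - x) ≤ Real.exp (-l) ^ 2 := SupReg.mem_cball hw
  have hy25 : nsq y ≤ 25 := by
    have h1 : y ∈ {y : Cn n | nsq y ≤ (4 + 1) ^ 2} :=
      cball_sub hx (Real.exp_pos (-l)).le hel1 (SupReg.mem_cball hw)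
    norm_num at h1
    exact h1
  have hyt : y ∈ (F.e c).target := sub_target F c (le_sub_BB (by norm_num) hy25)
  set q := (F.e c).symm y with hq
  have hqs : q ∈ (F.e c).source := (F.e c).map_target hyt
  have hqy : F.e c q = y := (F.e c).right_inv hyt
  have hd1 : dist q p ≤ b * Real.exp (-l) := by
    have h1 := (hM c y x (hy25.trans (by norm_num)) (hx.trans (by norm_num))).1
    rw [hxdef, (F.e c).left_inv hp] at h1
    refine (abs_le_of_sq_le_sq' (h1.trans ?_) (by positivity)).2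
    rw [mul_pow, hb, Real.sq_sqrt hC₀.le]
    exact mul_le_mul_of_nonneg_left hyc hC₀.le
  have hd2 : dist p' q ≤ Real.exp (-(l - b)) := by
    have h1 := dist_triangle p' p q
    rw [dist_comm p' p, dist_comm p q] at h1
    have h2 : Real.exp (-(l - b)) = Real.exp b * Real.exp (-l) := by
      rw [← Real.exp_add]; ring_nf
    rw [h2]
    have h3 : (b + 1) * Real.exp (-l) ≤ Real.exp b * Real.exp (-l) :=
      mul_le_mul_of_nonneg_right heb (Real.exp_pos _).le
    linarith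
  have h2 := h₁ t ht c' p' q (l - b) hp' hx' (by linarith) hd2
  have e1 : l - b - a₁ = l - (b + a₁) := by ring
  rw [e1, Phi_eq_th F ht hqs, hqy] at h2
  have h3 := (abs_le.1 (hlip t ht c x y (hx.trans (by norm_num)) hy25)).2
  have h4 : ‖y - x‖ ≤ Real.exp (-l) := norm_le (Real.exp_pos _).le hyc
  have h5 : L * ‖y - x‖ ≤ L * Real.exp (-l) := mul_le_mul_of_nonneg_left h4 hL
  have h6 : C₁ * Real.exp (-(l - b)) = C₁ * Real.exp b * Real.exp (-l) := by
    rw [mul_assoc, ← Real.exp_add]; ring_nf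
  rw [h6] at h2
  have e : F.U t c l x = supB (fun x => F.ψ c (t, x)) x (Real.exp (-l)) - F.th t c x := rfl
  rw [e, ← hwe]
  change F.ψ c (t, y) - F.th t c x ≤ _
  linarith

theorem Semi.U_cont {t : ℝ} (ht : t ∈ Ico 0 T) (c : κ) {l : ℝ} (hl : 0 ≤ l) :
    ContinuousOn (F.U t c l) {x | nsq x ≤ 16} := by
  refine ContinuousOn.sub ?_ ((th_smooth F (pos_T ht) t c).continuousOn.mono
    ((le_sub_BB (by norm_num)).trans (sub_target F c)))
  refine (SupReg.supB_continuousOn (psi_psh F ht c).1).comp (f := fun x => (x, Real.exp (-l)))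
    (by fun_prop) fun x hx => ?_
  exact cball_sub_BB hx (Real.exp_pos _).le ((exp_neg_le hl).trans (by norm_num))

namespace Reg

/-- a holomorphic disc as a map from `ℂ^1` -/
noncomputable def HH (g : ℂ → Cn n) : Cn 1 → Cn n := fun x => g (cc x 0)

/-- the disc in `ℂ^1` -/
def VV (s : ℂ) (r : ℝ) : Set (Cn 1) := {x | cc x 0 ∈ Metric.ball s r}

theorem isOpen_VV (s : ℂ) (r : ℝ) : IsOpen (VV s r) := by
  have h : Continuous fun x : Cn 1 => cc x 0 := by
    have : (fun x : Cn 1 => cc x 0) = fun x => NF.ccL 0 x := by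
      funext x
      rw [NF.ccL_apply]
    rw [this]
    exact (NF.ccL 0).continuous
  exact Metric.isOpen_ball.preimage h

theorem fderiv_HH {g : ℂ → Cn n} {s : ℂ} {r : ℝ} (hg : HolD g (Metric.ball s r)) {x : Cn 1}
    (hx : x ∈ VV s r) (a : Cn 1) : fderiv ℝ (HH g) x a = fderiv ℝ g (cc x 0) (cc a 0) := by
  have h1 : HH g = g ∘ fun x => NF.ccL 0 x := by
    funext x
    simp only [HH, Function.comp, NF.ccL_apply]
  have hd : DifferentiableAt ℝ g (NF.ccL 0 x) := by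
    rw [NF.ccL_apply]
    exact NF.diffAt Metric.isOpen_ball hg.smooth hx
  have h2 := (hd.hasFDerivAt.comp x (NF.ccL 0).hasFDerivAt).fderiv
  rw [h1]
  change fderiv ℝ (g ∘ fun x => NF.ccL 0 x) x a = _
  have h3 : fderiv ℝ (g ∘ fun x => NF.ccL 0 x) x =
    (fderiv ℝ g (NF.ccL 0 x)).comp (NF.ccL 0) := h2
  rw [h3, ContinuousLinearMap.comp_apply, NF.ccL_apply, NF.ccL_apply]

theorem holOn_HH {g : ℂ → Cn n} {s : ℂ} {r : ℝ} (hg : HolD g (Metric.ball s r)) :
    HolOn (HH g) (VV s r) := by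
  refine ⟨?_, fun x hx a => ?_⟩
  · have h1 : HH g = fun x => g (NF.ccL 0 x) := by
      funext x
      simp only [HH, NF.ccL_apply]
    rw [h1]
    refine hg.smooth.comp (NF.ccL 0).contDiff.contDiffOn fun x hx => ?_
    rw [NF.ccL_apply]
    exact hx
  · rw [fderiv_HH hg hx, fderiv_HH hg hx, cc_J]
    set u := cc a 0
    set A := fderiv ℝ g (cc x 0) with hA
    have hI : A Complex.I = J (A 1) := hg.holo _ hx
    have h1 : ∀ z : ℂ, A z = z.re • A 1 + z.im • J (A 1) := by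
      intro z
      have : z = z.re • (1 : ℂ) + z.im • Complex.I := by
        apply Complex.ext <;> simp
      conv_lhs => rw [this]
      rw [map_add, map_smul, map_smul, hI]
    rw [h1 (Complex.I * u), h1 u, J_add, J_smul, J_smul, J_J]
    simp only [Complex.mul_re, Complex.mul_im, Complex.I_re, Complex.I_im, zero_mul, one_mul,
      zero_sub, zero_add, smul_neg, neg_smul]
    abel

theorem cc_e1 : cc SupReg.e1 0 = 1 := by
  apply Complex.ext <;> simp [cc, SupReg.e1]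

theorem mem_VV {s ζ : ℂ} {r : ℝ} (h : ζ ∈ Metric.ball s r) :
    line (0 : Cn 1) SupReg.e1 ζ ∈ VV s r := by
  change cc (line (0 : Cn 1) SupReg.e1 ζ) 0 ∈ Metric.ball s r
  rw [SupReg.cc_line_e1]
  exact h

theorem HH_line (g : ℂ → Cn n) (ζ : ℂ) : HH g (line (0 : Cn 1) SupReg.e1 ζ) = g ζ := by
  simp only [HH, SupReg.cc_line_e1]

/-- the Laplacian along a holomorphic disc -/
theorem lapC_disc {g : ℂ → Cn n} {s : ℂ} {r : ℝ} (hr : 0 < r) (hg : HolD g (Metric.ball s r))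
    {G : Cn n → ℝ} {S : Set (Cn n)} (hS : IsOpen S) (hG : ContDiffOn ℝ ∞ G S)
    (hm : ∀ ζ ∈ Metric.ball s r, g ζ ∈ S) :
    lapC (fun ζ => G (g (s + ζ))) 0 = 4 * levz G (fderiv ℝ g s 1) (g s) := by
  have hs : s ∈ Metric.ball s r := Metric.mem_ball_self hr
  have hHol := holOn_HH hg
  have hGH : ContDiffOn ℝ ∞ (fun x => G (HH g x)) (VV s r) :=
    hG.comp hHol.1 fun x hx => hm _ hx
  have hx₀ : line (0 : Cn 1) SupReg.e1 s ∈ VV s r := mem_VV hs
  have h1 := BaseP.lapC_line' (isOpen_VV s r) hGH hx₀ SupReg.e1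
  rw [levz_comp hS hG (isOpen_VV s r) hHol hx₀ (by rw [HH_line]; exact hm s hs),
    fderiv_HH hg hx₀, HH_line, SupReg.cc_line_e1, cc_e1] at h1
  rw [← h1]
  congr 1
  funext ζ
  have h2 : line (line (0 : Cn 1) SupReg.e1 s) SupReg.e1 ζ = line 0 SupReg.e1 (s + ζ) := by
    rw [line_add, line_eq]
  simp only [h2, HH_line]

/-- the asymptotic mean value of a smooth function along a holomorphic disc -/
theorem cavg_disc {g : ℂ → Cn n} {s : ℂ} {r₀ : ℝ} (hr₀ : 0 < r₀)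
    (hg : HolD g (Metric.ball s r₀)) {G : Cn n → ℝ} {S : Set (Cn n)} (hS : IsOpen S)
    (hG : ContDiffOn ℝ ∞ G S) (hm : ∀ ζ ∈ Metric.ball s r₀, g ζ ∈ S) {ε : ℝ} (hε : 0 < ε) :
    ∀ᶠ r in 𝓝[>] (0 : ℝ), cavg (fun ζ => G (g (s + ζ))) r - G (g s) ≤
      (levz G (fderiv ℝ g s 1) (g s) + ε) * r ^ 2 := by
  set Q : ℂ → ℝ := fun ζ => G (g (s + ζ)) with hQ
  have hmap : ∀ ζ ∈ Metric.ball (0 : ℂ) r₀, s + ζ ∈ Metric.ball s r₀ := by
    intro ζ hζ
    rw [Metric.mem_ball, dist_eq_norm, add_sub_cancel_left]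
    simpa using hζ
  have hQs : ContDiffOn ℝ ∞ Q (Metric.ball 0 r₀) :=
    (hG.comp hg.smooth fun ζ hζ => hm ζ hζ).comp
      (contDiff_const.add contDiff_id).contDiffOn fun ζ hζ => hmap ζ hζ
  have hlap : lapC Q 0 = 4 * levz G (fderiv ℝ g s 1) (g s) := lapC_disc hr₀ hg hS hG hm
  have hcont : ContinuousAt (lapC Q) 0 :=
    (Circ.continuousOn_lapC hQs).continuousAt (Metric.ball_mem_nhds _ hr₀)
  have hev : ∀ᶠ ζ in 𝓝 (0 : ℂ), lapC Q ζ < lapC Q 0 + 4 * ε :=
    hcont.eventually_lt continuousAt_const (by linarith)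
  obtain ⟨r₁, hr₁, h₁⟩ := Metric.eventually_nhds_iff_ball.1 hev
  have hR : 0 < min r₀ r₁ := lt_min hr₀ hr₁
  have hQs' : ContDiffOn ℝ ∞ Q (Metric.ball 0 (min r₀ r₁)) :=
    hQs.mono (Metric.ball_subset_ball (min_le_left _ _))
  filter_upwards [Ioo_mem_nhdsGT hR] with r hr
  have h2 := cavg_sub_le (G := Q) hQs' (B := levz G (fderiv ℝ g s 1) (g s) + ε) (fun ζ hζ => by
    have := h₁ ζ (Metric.ball_subset_ball (min_le_right _ _) hζ)
    rw [hlap] at this
    linarith) (r := r) ⟨hr.1.le, hr.2⟩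
  have h0 : Q 0 = G (g s) := by simp only [hQ, add_zero]
  rw [h0] at h2
  exact h2

/-- the sub-mean value property along a holomorphic disc -/
theorem sub_disc {g : ℂ → Cn n} {s : ℂ} {r₀ : ℝ} (hr₀ : 0 < r₀) (hg : HolD g (Metric.ball s r₀))
    {u : Cn n → ℝ} {S : Set (Cn n)} (hS : IsOpen S) (hu : PshC u S)
    (hm : ∀ ζ ∈ Metric.ball s r₀, g ζ ∈ S) :
    ∀ᶠ r in 𝓝[>] (0 : ℝ), u (g s) ≤ cavg (fun ζ => u (g (s + ζ))) r := by
  have h1 := KRFX.pshC_comp hS hu (isOpen_VV s r₀) (holOn_HH hg) fun x hx => hm _ hx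
  have h2 := KRFX.RegK.pshC_line (isOpen_VV s r₀) h1 (mem_VV (Metric.mem_ball_self hr₀))
  simpa only [HH_line] using h2

/-- the form `θ` vanishes on the fibres -/
theorem levz_fibre {c : κ} {z : Z} {g : ℂ → Cn n} {s : ℂ} {r₀ : ℝ} (hr₀ : 0 < r₀)
    (hg : HolD g (Metric.ball s r₀)) (hgz : ∀ s' ∈ Metric.ball s r₀,
      g s' ∈ (F.e c).target ∧ F.f ((F.e c).symm (g s')) = z) :
    lev (F.ψ c) (fderiv ℝ g s 1) (0, g s) +
      T * levz (fun x => Real.log (F.Ω c x)) (fderiv ℝ g s 1) (g s) = 0 := by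
  obtain ⟨j, hj, -⟩ := F.emb.cover z
  have hs : s ∈ Metric.ball s r₀ := Metric.mem_ball_self hr₀
  have hW : IsOpen {x | x ∈ (F.e c).target ∧ F.f ((F.e c).symm x) ∈ F.S j} :=
    (F.emb.cont.comp_continuousOn (F.e c).continuousOn_symm).isOpen_inter_preimage
      (F.e c).open_target (F.emb.isOpen j)
  have hmW : ∀ ζ ∈ Metric.ball s r₀, g ζ ∈ {x | x ∈ (F.e c).target ∧
      F.f ((F.e c).symm x) ∈ F.S j} := fun ζ hζ => ⟨(hgz ζ hζ).1, by
    rw [(hgz ζ hζ).2]
    exact hj⟩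
  rw [F.pull.eq c j (g s) (hgz s hs).1 (by rw [(hgz s hs).2]; exact hj)]
  have hKs : ContDiffOn ℝ ∞ (fun x => F.K j (F.q j (F.f ((F.e c).symm x))))
      {x | x ∈ (F.e c).target ∧ F.f ((F.e c).symm x) ∈ F.S j} :=
    (F.pull.smooth j).comp (F.emb.holo c j).1 fun x hx => F.emb.lt j _ hx.2
  have h1 := lapC_disc hr₀ hg hW hKs hmW
  have h2 : lapC (fun ζ => F.K j (F.q j (F.f ((F.e c).symm (g (s + ζ)))))) 0 = 0 := by
    have hev : (fun ζ => F.K j (F.q j (F.f ((F.e c).symm (g (s + ζ)))))) =ᶠ[𝓝 (0 : ℂ)]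
        fun _ => F.K j (F.q j z) := by
      filter_upwards [Metric.ball_mem_nhds (0 : ℂ) hr₀] with ζ hζ
      rw [(hgz (s + ζ) (by
        rw [Metric.mem_ball, dist_eq_norm, add_sub_cancel_left]
        simpa using hζ)).2]
    have hD : ∀ w : ℂ, D w (D w fun ζ => F.K j (F.q j (F.f ((F.e c).symm (g (s + ζ)))))) 0 =
        D w (D w fun _ : ℂ => F.K j (F.q j z)) 0 := by
      intro w
      have h3 : D w (fun ζ => F.K j (F.q j (F.f ((F.e c).symm (g (s + ζ)))))) =ᶠ[𝓝 (0 : ℂ)]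
          D w fun _ : ℂ => F.K j (F.q j z) := by
        filter_upwards [hev.fderiv (𝕜 := ℝ)] with x hx
        simp only [D, hx]
      simp only [D] at h3 ⊢
      rw [h3.fderiv_eq]
    have hc : ∀ w : ℂ, (D w fun _ : ℂ => F.K j (F.q j z)) = fun _ => 0 := by
      intro w
      funext x
      simp [D]
    unfold lapC
    rw [hD, hD, hc, hc]
    simp [D]
  rw [h2] at h1
  linarith

end Reg

/-- along holomorphic discs in the fibres (the form `θ` vanishes there) -/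
theorem Semi.U_disc {t : ℝ} (ht : t ∈ Ico 0 T) {c : κ} {l : ℝ} (hl : 0 ≤ l) {z : Z}
    {g : ℂ → Cn n} {s : ℂ} {r₀ : ℝ} (hr₀ : 0 < r₀) (hg : HolD g (Metric.ball s r₀))
    (hgz : ∀ s' ∈ Metric.ball s r₀, nsq (g s') < 16 ∧ F.f ((F.e c).symm (g s')) = z) {ε : ℝ}
    (hε : 0 < ε) : ∀ᶠ r in 𝓝[>] (0 : ℝ), F.U t c l (g s) ≤
      cavg (fun ζ => F.U t c l (g (s + ζ))) r +
        ((1 - t / T) * lev (F.ψ c) (fderiv ℝ g s 1) (0, g s) + ε) * r ^ 2 := by
  have hT := pos_T ht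
  have hs : s ∈ Metric.ball s r₀ := Metric.mem_ball_self hr₀
  have hmB : ∀ ζ ∈ Metric.ball s r₀, g ζ ∈ BB n := fun ζ hζ =>
    show nsq (g ζ) < 100 by linarith [(hgz ζ hζ).1]
  have hmt : ∀ ζ ∈ Metric.ball s r₀, g ζ ∈ (F.e c).target := fun ζ hζ =>
    sub_target F c (hmB ζ hζ)
  -- the supremum
  have hu : PshC (fun x => supB (fun x => F.ψ c (t, x)) x (Real.exp (-l))) {x : Cn n | nsq x < 16} := by
    have hχ : PshC (fun _ : Cn n => -l) {x : Cn n | nsq x < 16} := by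
      refine ⟨continuousOn_const, fun z v _ => ?_⟩
      rw [SupReg.cavg_const]
    refine pshC_supB (c := -l) isOpen_BB (psi_psh F ht c) hχ (fun _ _ => le_rfl) fun y hy => ?_
    refine cball_sub_BB (le_of_lt hy) (Real.exp_pos _).le ?_
    have h1 : Real.exp (-l + 1) ≤ Real.exp 1 := Real.exp_le_exp.2 (by linarith)
    have h2 := Real.exp_one_lt_d9
    linarith
  have h1 := sub_disc hr₀ hg (Reg.isOpen_lt 16) hu fun ζ hζ => (hgz ζ hζ).1
  -- the local potential
  have h2 := cavg_disc hr₀ hg (F.e c).open_target (th_smooth F hT t c) hmt hε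
  have hlev : levz (F.th t c) (fderiv ℝ g s 1) (g s) =
      (1 - t / T) * lev (F.ψ c) (fderiv ℝ g s 1) (0, g s) := by
    obtain ⟨W, hW, hsub, hψ⟩ := F.krf.smooth c
    have hx := hmt s hs
    have a1 : ContDiffAt ℝ 2 (fun x => F.ψ c (0, x)) (g s) :=
      ((psi_smooth F ⟨le_rfl, hT⟩ c).contDiffAt ((F.e c).open_target.mem_nhds hx)).of_le two_le_infty
    have a2 : ContDiffAt ℝ 2 (fun x => Real.log (F.Ω c x)) (g s) :=
      ((logO_smooth F c).contDiffAt ((F.e c).open_target.mem_nhds hx)).of_le two_le_infty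
    have e1 : levz (F.th t c) (fderiv ℝ g s 1) (g s) =
        levz (fun x => F.ψ c (0, x) + t * Real.log (F.Ω c x)) (fderiv ℝ g s 1) (g s) := rfl
    rw [e1, Bd.levz_add a1 (contDiffAt_const.mul a2), Bd.levz_const_mul _ a2,
      levz_slice hW hψ (hsub ⟨⟨le_rfl, hT⟩, hx⟩)]
    have h3 := levz_fibre F hr₀ hg (z := z) (c := c) fun ζ hζ => ⟨hmt ζ hζ, (hgz ζ hζ).2⟩
    have h4 : levz (fun x => Real.log (F.Ω c x)) (fderiv ℝ g s 1) (g s) =
        -(lev (F.ψ c) (fderiv ℝ g s 1) (0, g s) / T) := by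
      field_simp
      linarith
    rw [h4]
    field_simp
    ring
  rw [hlev] at h2
  have hsm : ∀ᶠ r in 𝓝[>] (0 : ℝ), r < r₀ :=
    (eventually_lt_nhds hr₀).filter_mono nhdsWithin_le_nhds
  filter_upwards [h1, h2, hsm, self_mem_nhdsWithin] with r k1 k2 k3 k4
  have hr : (0 : ℝ) < r := k4
  have hball : ∀ θ : ℝ, s + (r : ℂ) * Complex.exp (θ * Complex.I) ∈ Metric.ball s r₀ := by
    intro θ
    rw [Metric.mem_ball, dist_eq_norm, add_sub_cancel_left, norm_mul,
      Complex.norm_exp_ofReal_mul_I, mul_one, Complex.norm_real, Real.norm_of_nonneg hr.le]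
    exact k3
  have hgc : Continuous fun θ : ℝ => g (s + (r : ℂ) * Complex.exp (θ * Complex.I)) :=
    hg.smooth.continuousOn.comp_continuous (by fun_prop) hball
  have hc1 : Continuous fun θ : ℝ => supB (fun x => F.ψ c (t, x))
      (g (s + (r : ℂ) * Complex.exp (θ * Complex.I))) (Real.exp (-l)) :=
    hu.1.comp_continuous hgc fun θ => (hgz _ (hball θ)).1
  have hc2 : Continuous fun θ : ℝ => F.th t c (g (s + (r : ℂ) * Complex.exp (θ * Complex.I))) :=
    (th_smooth F hT t c).continuousOn.comp_continuous hgc fun θ => hmt _ (hball θ)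
  have hsplit : cavg (fun ζ => F.U t c l (g (s + ζ))) r =
      cavg (fun ζ => supB (fun x => F.ψ c (t, x)) (g (s + ζ)) (Real.exp (-l))) r -
        cavg (fun ζ => F.th t c (g (s + ζ))) r := by
    unfold cavg
    rw [← mul_sub, ← intervalIntegral.integral_sub (hc1.intervalIntegrable _ _)
      (hc2.intervalIntegrable _ _)]
    rfl
  have e : F.U t c l (g s) = supB (fun x => F.ψ c (t, x)) (g s) (Real.exp (-l)) -
    F.th t c (g s) := rfl
  rw [hsplit, e]
  linarith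

end

end

end Pool.Agent.KRFZ

end
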