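import Pool.Agent.Work.MP_a2bf38_gt.Fu.K.Mollify
import Pool.Agent.Work.MP_a2bf38_gt.Fu.I.Coord
import Pool.Agent.Work.MP_a2bf38_gt.Fu.I.Ray
import Pool.Agent.Work.MP_a2bf38_gt.Fu.X.RegHad
import Pool.Agent.Work.MP_a2bf38_gt.Fu.Z.PoleW
import Pool.Agent.Work.MP_a2bf38_gt.Fu.Z.Const
import Pool.Agent.Work.MP_a2bf38_gt.Fu.Z.Const2
import Pool.Agent.Work.MP_a2bf38_gt.Fu.H.BoundLin

section

/-!
# A radial smoothing kernel on `ℂ^m`
-/

open scoped ContDiff ENNReal ComplexOrder Topology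
open Set MeasureTheory Filter Pool.Agent.ToricKRF Pool.Agent.ToricKRF.G Pool.Agent.KRFS
  Pool.Agent.KRFF Pool.Agent.KRFG

namespace Pool.Agent.KRFX.RegK

variable {m : ℕ}

/-! ### The norm -/

theorem nsq_tri {x y : Cn m} {a b : ℝ} (ha : 0 ≤ a) (hb : 0 ≤ b) (hx : nsq x ≤ a ^ 2)
    (hy : nsq y ≤ b ^ 2) : nsq (x + y) ≤ (a + b) ^ 2 := by
  have e : nsq (x + y) = nsq x + 2 * ∑ i, (x.1 i * y.1 i + x.2 i * y.2 i) + nsq y := by
    simp only [nsq, dotProduct, ← Finset.sum_add_distrib, Finset.mul_sum]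
    apply Finset.sum_congr rfl
    intro i _
    simp
    ring
  have cs : (∑ i, (x.1 i * y.1 i + x.2 i * y.2 i)) ^ 2 ≤ nsq x * nsq y := by
    have k1 := Finset.sum_mul_sq_le_sq_mul_sq (Finset.univ : Finset (Fin m ⊕ Fin m))
      (Sum.elim x.1 x.2) (Sum.elim y.1 y.2)
    simp only [Fintype.sum_sum_type, Sum.elim_inl, Sum.elim_inr] at k1
    simp only [nsq, dotProduct, Finset.sum_add_distrib]
    simpa only [pow_two] using k1
  have h1 : ∑ i, (x.1 i * y.1 i + x.2 i * y.2 i) ≤ a * b := by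
    refine (abs_le_of_sq_le_sq' ?_ (mul_nonneg ha hb)).2
    refine cs.trans ?_
    rw [mul_pow]
    exact mul_le_mul hx hy (nsq_nonneg y) (by positivity)
  rw [e]
  nlinarith

theorem nsq_neg' (x : Cn m) : nsq (-x) = nsq x := by
  simp [nsq]

theorem nsq_tri_sub {x y : Cn m} {a b : ℝ} (ha : 0 ≤ a) (hb : 0 ≤ b) (hx : nsq x ≤ a ^ 2)
    (hy : nsq y ≤ b ^ 2) : nsq (x - y) ≤ (a + b) ^ 2 := by
  rw [sub_eq_add_neg]
  exact nsq_tri ha hb hx (by rwa [nsq_neg'])

theorem nsq_comm (x y : Cn m) : nsq (x - y) = nsq (y - x) := by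
  rw [← nsq_neg', neg_sub]

theorem isCompact_ball (r : ℝ) : IsCompact {x : Cn m | nsq x ≤ r} := by
  apply (isCompact_closedBall (0 : Cn m) (√r)).of_isClosed_subset
    (isClosed_le nsq_continuous continuous_const)
  intro x hx
  rw [mem_closedBall_zero_iff]
  exact (norm_le_sqrt_nsq x).trans (Real.sqrt_le_sqrt hx)

theorem isCompact_ball_sub (y : Cn m) (r : ℝ) : IsCompact {x : Cn m | nsq (x - y) ≤ r} := by
  have h := (isCompact_ball (m := m) r).image (continuous_add_const y)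
  convert h using 1
  ext x
  constructor
  · intro hx
    exact ⟨x - y, hx, sub_add_cancel x y⟩
  · rintro ⟨z, hz, rfl⟩
    simpa using hz

theorem contDiff_nsq_x : ContDiff ℝ ∞ (nsq : Cn m → ℝ) := by
  unfold nsq dotProduct
  fun_prop

/-! ### Interchange of integrals -/

theorem fub {Y : Type*} [NormedAddCommGroup Y] [NormedSpace ℝ Y] [FiniteDimensional ℝ Y]
    [MeasurableSpace Y] [BorelSpace Y] (ν : Measure Y) [IsFiniteMeasureOnCompacts ν]
    [SigmaFinite ν] {φ : Cn m → ℝ} (hφ : Continuous φ) {K : Set (Cn m)} (hK : IsCompact K)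
    (hφK : ∀ x, φ x ≠ 0 → x ∈ K) {G : Y → Cn m → ℝ}
    (hG : Continuous fun p : Y × Cn m => G p.1 p.2) {B : Set Y} (hB : IsCompact B) :
    ∫ x, φ x * (∫ y in B, G y x ∂ν) = ∫ y in B, (∫ x, φ x * G y x) ∂ν := by
  have hY : FiniteDimensional ℝ Y := inferInstance
  have : ProperSpace Y := FiniteDimensional.proper_real Y
  have hsc : SecondCountableTopology Y := inferInstance
  have hcont2 : Continuous fun p : Cn m × Y => φ p.1 * G p.2 p.1 :=
    (hφ.comp continuous_fst).mul (hG.comp (continuous_snd.prodMk continuous_fst))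
  have hi : Integrable (Function.uncurry fun (x : Cn m) (y : Y) => φ x * G y x)
      (volume.prod (ν.restrict B)) := by
    have e : (volume : Measure (Cn m)).prod (ν.restrict B) =
        ((volume : Measure (Cn m)).prod ν).restrict (univ ×ˢ B) := by
      rw [← Measure.prod_restrict, Measure.restrict_univ]
    rw [e]
    have k1 : IntegrableOn (Function.uncurry fun (x : Cn m) (y : Y) => φ x * G y x)
        (K ×ˢ B) ((volume : Measure (Cn m)).prod ν) :=
      hcont2.continuousOn.integrableOn_compact (hK.prod hB)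
    refine k1.of_forall_sdiff_eq_zero (MeasurableSet.univ.prod hB.measurableSet) ?_
    rintro ⟨x, y⟩ ⟨⟨-, h2⟩, h3⟩
    by_contra hne
    apply h3
    exact ⟨hφK x (left_ne_zero_of_mul hne), h2⟩
  have hswap := integral_integral_swap hi
  rw [← hswap]
  simp only [integral_const_mul]

theorem fub_circle {φ : Cn m → ℝ} (hφ : Continuous φ) {K : Set (Cn m)} (hK : IsCompact K)
    (hφK : ∀ x, φ x ≠ 0 → x ∈ K) {G : ℝ → Cn m → ℝ}
    (hG : Continuous fun p : ℝ × Cn m => G p.1 p.2) :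
    ∫ x, φ x * ∫ θ in (0 : ℝ)..2 * Real.pi, G θ x =
      ∫ θ in (0 : ℝ)..2 * Real.pi, ∫ x, φ x * G θ x := by
  have hpi : (0 : ℝ) ≤ 2 * Real.pi := by positivity
  have h := fub (volume : Measure ℝ) hφ hK hφK hG (B := Icc 0 (2 * Real.pi)) isCompact_Icc
  simp only [intervalIntegral.integral_of_le hpi, ← integral_Icc_eq_integral_Ioc]
  exact h

theorem integrable_of {φ : Cn m → ℝ} (hφ : Continuous φ) {K : Set (Cn m)} (hK : IsCompact K)
    (hφK : ∀ x, φ x ≠ 0 → x ∈ K) {g : Cn m → ℝ} (hg : Continuous g) :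
    Integrable fun x => φ x * g x := by
  apply (hφ.mul hg).integrable_of_hasCompactSupport
  apply HasCompactSupport.of_support_subset_isCompact hK
  intro x hx
  exact hφK x (left_ne_zero_of_mul hx)

/-- the sub-mean value property of the convolution -/
theorem conv_le' {g φ : Cn m → ℝ} (hg : Continuous g) (hφ : Continuous φ)
    (hφ0 : ∀ x, 0 ≤ φ x) {K : Set (Cn m)} (hK : IsCompact K) (hφK : ∀ x, φ x ≠ 0 → x ∈ K)
    {z v : Cn m} (h : ∀ x ∈ K, g (z - x) ≤ cavg (fun ζ => g (line (z - x) v ζ)) 1) :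
    ∫ x, φ x * g (z - x) ≤ cavg (fun ζ => ∫ x, φ x * g (line z v ζ - x)) 1 := by
  obtain ⟨L, hL⟩ : ∃ L : ℝ → Cn m, L = fun θ : ℝ =>
    line z v ((1 : ℝ) * Complex.exp (θ * Complex.I)) := ⟨_, rfl⟩
  have hLc : Continuous L := by
    rw [hL]
    exact (contDiff_line z v).continuous.comp (by fun_prop)
  have hcv : ∀ F : Cn m → ℝ, cavg (fun ζ => F (line z v ζ)) 1 =
      (2 * Real.pi)⁻¹ * ∫ θ in (0 : ℝ)..2 * Real.pi, F (L θ) := by
    intro F
    rw [hL, cavg]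
  have hG : Continuous fun p : ℝ × Cn m => g (L p.1 - p.2) :=
    hg.comp ((hLc.comp continuous_fst).sub continuous_snd)
  have hin : Continuous fun x => ∫ θ in (0 : ℝ)..2 * Real.pi, g (L θ - x) :=
    intervalIntegral.continuous_parametric_intervalIntegral_of_continuous'
      (f := fun (x : Cn m) (θ : ℝ) => g (L θ - x))
      (hG.comp (continuous_snd.prodMk continuous_fst)) _ _
  have h1 : ∫ x, φ x * g (z - x) ≤ ∫ x, φ x * ((2 * Real.pi)⁻¹ *
      ∫ θ in (0 : ℝ)..2 * Real.pi, g (L θ - x)) := by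
    apply integral_mono
    · exact integrable_of hφ hK hφK (hg.comp (continuous_const.sub continuous_id))
    · exact integrable_of hφ hK hφK (continuous_const.mul hin)
    intro x
    dsimp only
    by_cases hx : φ x = 0
    · rw [hx, zero_mul, zero_mul]
    · apply mul_le_mul_of_nonneg_left _ (hφ0 x)
      have k := h x (hφK x hx)
      simp only [line_sub] at k
      rwa [hcv (fun w => g (w - x))] at k
  refine h1.trans (le_of_eq ?_)
  have h2 := fub_circle hφ hK hφK (G := fun (θ : ℝ) (x : Cn m) => g (L θ - x)) hG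
  rw [hcv (fun w => ∫ x, φ x * g (w - x)), ← h2, ← integral_const_mul]
  congr 1
  ext x
  ring

/-- the mean value inequality with a kernel which is invariant under the rotations -/
theorem mean_le {g φ : Cn m → ℝ} (hg : Continuous g) (hφ : Continuous φ)
    (hφ0 : ∀ x, 0 ≤ φ x) {K : Set (Cn m)} (hK : IsCompact K) (hφK : ∀ x, φ x ≠ 0 → x ∈ K)
    (hrot : ∀ x, ∀ ζ : ℂ, ‖ζ‖ = 1 → φ (mulC (fun _ => ζ) x) = φ x) (h1 : ∫ x, φ x = 1)
    {z : Cn m} (h : ∀ x ∈ K, g z ≤ cavg (fun ζ => g (line z (-x) ζ)) 1) :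
    g z ≤ ∫ x, φ x * g (z - x) := by
  have hpi := Real.pi_pos
  have hmul : Continuous fun p : ℝ × Cn m =>
      mulC (fun _ : Fin m => Complex.exp (p.1 * Complex.I)) p.2 :=
    continuous_mulC.comp ((continuous_pi fun _ => by fun_prop).prodMk continuous_snd)
  have hG : Continuous fun p : ℝ × Cn m =>
      g (z - mulC (fun _ : Fin m => Complex.exp (p.1 * Complex.I)) p.2) :=
    hg.comp (continuous_const.sub hmul)
  have hin : Continuous fun x => ∫ θ in (0 : ℝ)..2 * Real.pi,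
      g (z - mulC (fun _ : Fin m => Complex.exp (θ * Complex.I)) x) := by
    exact intervalIntegral.continuous_parametric_intervalIntegral_of_continuous'
      (f := fun (x : Cn m) (θ : ℝ) =>
        g (z - mulC (fun _ : Fin m => Complex.exp (θ * Complex.I)) x))
      (hG.comp (continuous_snd.prodMk continuous_fst)) _ _
  have hl : ∀ x : Cn m, cavg (fun ζ => g (line z (-x) ζ)) 1 = (2 * Real.pi)⁻¹ *
      ∫ θ in (0 : ℝ)..2 * Real.pi, g (z - mulC (fun _ : Fin m => Complex.exp (θ * Complex.I)) x) := by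
    intro x
    simp only [cavg, Complex.ofReal_one, one_mul]
    congr 1
    apply intervalIntegral.integral_congr
    intro θ _
    dsimp only
    rw [line_eq_mulC]
    congr 1
    rw [sub_eq_add_neg]
    congr 1
    refine Prod.ext ?_ ?_ <;> funext j <;> simp [mulC] <;> ring
  have hinv : ∀ θ : ℝ, ∫ x, φ x * g (z - mulC (fun _ : Fin m => Complex.exp (θ * Complex.I)) x) =
      ∫ x, φ x * g (z - x) := by
    intro θ
    have ha : ∀ _ : Fin m, ‖Complex.exp (θ * Complex.I)‖ = 1 := fun _ =>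
      Complex.norm_exp_ofReal_mul_I θ
    have k := (measurePreserving_mulC (a := fun _ : Fin m => Complex.exp (θ * Complex.I))
      ha).integral_comp (measurableEmbedding_mulC ha) (fun x => φ x * g (z - x))
    rw [← k]
    congr 1
    ext x
    rw [hrot x _ (Complex.norm_exp_ofReal_mul_I θ)]
  have h2 : g z ≤ ∫ x, φ x * ((2 * Real.pi)⁻¹ * ∫ θ in (0 : ℝ)..2 * Real.pi,
      g (z - mulC (fun _ : Fin m => Complex.exp (θ * Complex.I)) x)) := by
    have k : g z = ∫ x, φ x * g z := by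
      rw [integral_mul_const, h1, one_mul]
    refine k.le.trans ?_
    apply integral_mono
    · exact integrable_of hφ hK hφK continuous_const
    · exact integrable_of hφ hK hφK (continuous_const.mul hin)
    intro x
    dsimp only
    by_cases hx : φ x = 0
    · rw [hx, zero_mul, zero_mul]
    · apply mul_le_mul_of_nonneg_left _ (hφ0 x)
      rw [← hl]
      exact h x (hφK x hx)
  refine h2.trans (le_of_eq ?_)
  have h3 := fub_circle hφ hK hφK (G := fun (θ : ℝ) (x : Cn m) =>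
    g (z - mulC (fun _ : Fin m => Complex.exp (θ * Complex.I)) x)) hG
  simp only [hinv] at h3
  rw [intervalIntegral.integral_const, smul_eq_mul, sub_zero] at h3
  have e : ∀ x : Cn m, φ x * ((2 * Real.pi)⁻¹ * ∫ θ in (0 : ℝ)..2 * Real.pi,
      g (z - mulC (fun _ : Fin m => Complex.exp (θ * Complex.I)) x)) = (2 * Real.pi)⁻¹ *
      (φ x * ∫ θ in (0 : ℝ)..2 * Real.pi,
      g (z - mulC (fun _ : Fin m => Complex.exp (θ * Complex.I)) x)) := fun x => by ring
  simp only [e]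
  rw [integral_const_mul, h3]
  field_simp

/-! ### The kernel -/

/-- a smooth function with the value `1` for `t ≤ 1/4` and `0` for `1 ≤ t` -/
noncomputable def eta (t : ℝ) : ℝ := Real.smoothTransition ((1 - t) * (4 / 3))

theorem eta_nonneg (t : ℝ) : 0 ≤ eta t := Real.smoothTransition.nonneg _

theorem eta_le_one (t : ℝ) : eta t ≤ 1 := Real.smoothTransition.le_one _

theorem eta_zero {t : ℝ} (h : 1 ≤ t) : eta t = 0 :=
  Real.smoothTransition.zero_of_nonpos (by nlinarith)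

theorem eta_one {t : ℝ} (h : t ≤ 1 / 4) : eta t = 1 :=
  Real.smoothTransition.one_of_one_le (by nlinarith)

theorem contDiff_eta : ContDiff ℝ ∞ eta := by
  unfold eta
  exact Real.smoothTransition.contDiff.comp (by fun_prop)

/-- the mass of `η(|x|^2)` -/
noncomputable def I0 (m : ℕ) : ℝ := ∫ x : Cn m, eta (nsq x)

theorem continuous_eta_nsq : Continuous fun x : Cn m => eta (nsq x) :=
  contDiff_eta.continuous.comp nsq_continuous

theorem integrable_eta : Integrable fun x : Cn m => eta (nsq x) := by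
  apply continuous_eta_nsq.integrable_of_hasCompactSupport
  apply HasCompactSupport.of_support_subset_isCompact (isCompact_ball (m := m) 1)
  intro x hx
  by_contra h
  exact hx (eta_zero (not_le.1 h).le)

theorem I0_pos (m : ℕ) : 0 < I0 m := by
  have hH := haar_Cn m
  apply continuous_eta_nsq.integral_pos_of_hasCompactSupport_nonneg_nonzero
  · apply HasCompactSupport.of_support_subset_isCompact (isCompact_ball (m := m) 1)
    intro x hx
    by_contra h
    exact hx (eta_zero (not_le.1 h).le)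
  · intro x
    exact eta_nonneg _
  · show eta (nsq (0 : Cn m)) ≠ 0
    rw [eta_one (by simp [nsq])]
    exact one_ne_zero

/-- the kernel at the scale `ρ` -/
noncomputable def ker (m : ℕ) (ρ : ℝ) (x : Cn m) : ℝ :=
  (I0 m * ρ ^ (2 * m))⁻¹ * eta (nsq x / ρ ^ 2)

variable {ρ : ℝ}

theorem ker_nonneg (hρ : 0 < ρ) (x : Cn m) : 0 ≤ ker m ρ x := by
  have := I0_pos m
  exact mul_nonneg (by positivity) (eta_nonneg _)

theorem ker_le (hρ : 0 < ρ) (x : Cn m) : ker m ρ x ≤ (I0 m * ρ ^ (2 * m))⁻¹ := by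
  have := I0_pos m
  exact mul_le_of_le_one_right (by positivity) (eta_le_one _)

theorem ker_eq (hρ : 0 < ρ) {x : Cn m} (h : nsq x ≤ (ρ / 2) ^ 2) :
    ker m ρ x = (I0 m * ρ ^ (2 * m))⁻¹ := by
  rw [ker, eta_one, mul_one]
  rw [div_le_iff₀ (by positivity)]
  nlinarith

theorem ker_mem (hρ : 0 < ρ) {x : Cn m} (h : ker m ρ x ≠ 0) : x ∈ {x : Cn m | nsq x ≤ ρ ^ 2} := by
  by_contra hx
  apply h
  rw [ker, eta_zero, mul_zero]
  rw [one_le_div (by positivity)]
  exact (not_le.1 hx).le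

theorem contDiff_ker : ContDiff ℝ ∞ (ker m ρ) := by
  unfold ker
  exact contDiff_const.mul (contDiff_eta.comp (contDiff_nsq_x.div_const _))

theorem ker_compact (hρ : 0 < ρ) : HasCompactSupport (ker m ρ) := by
  apply HasCompactSupport.of_support_subset_isCompact (isCompact_ball (m := m) (ρ ^ 2))
  intro x hx
  exact ker_mem hρ hx

theorem ker_rot (x : Cn m) {ζ : ℂ} (hζ : ‖ζ‖ = 1) : ker m ρ (mulC (fun _ => ζ) x) = ker m ρ x := by
  have h : nsq (mulC (fun _ => ζ) x) = nsq x := by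
    have k := nsq_lineL x ζ
    rw [hζ, one_pow, one_mul] at k
    rw [← k]
    have e := line_eq_mulC (0 : Cn m) x ζ
    rw [line_eq, zero_add, zero_add] at e
    rw [e]
  rw [ker, ker, h]

theorem integral_ker (hρ : 0 < ρ) : ∫ x, ker m ρ x = 1 := by
  have hH := haar_Cn m
  have h1 := Measure.integral_comp_smul (volume : Measure (Cn m)) (fun x => eta (nsq x)) ρ⁻¹
  have h2 : ∀ x : Cn m, ker m ρ x = (I0 m * ρ ^ (2 * m))⁻¹ * eta (nsq (ρ⁻¹ • x)) := by
    intro x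
    rw [ker, nsq_smul']
    congr 2
    rw [inv_pow, inv_mul_eq_div]
  simp only [h2]
  rw [integral_const_mul, h1]
  have hfin : Module.finrank ℝ (Cn m) = 2 * m := by
    rw [Module.finrank_prod, Module.finrank_fin_fun]
    ring
  have hI := I0_pos m
  rw [hfin, smul_eq_mul, inv_pow, inv_inv, abs_of_pos (by positivity)]
  change (I0 m * ρ ^ (2 * m))⁻¹ * (ρ ^ (2 * m) * I0 m) = 1
  field_simp

end Pool.Agent.KRFX.RegK

end

section

/-!
# Small balls in the charts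
-/

open scoped ContDiff ENNReal ComplexOrder Topology
open Set MeasureTheory Filter Pool.Agent.ToricKRF Pool.Agent.ToricKRF.G Pool.Agent.KRFS
  Pool.Agent.KRFF Pool.Agent.KRFG Pool.Agent.KRFE Pool.Agent.KRFX

namespace Pool.Agent.KRFZ

namespace Peak

section

variable {n N : ℕ} {M Z : Type} [MetricSpace M] [CompactSpace M] [MetricSpace Z] {κ P : Type}
  [Finite κ] [Finite P] {T : ℝ} (F : Semi n N M Z κ P T)

omit [CompactSpace M] [Finite κ] [Finite P] in
theorem isOpen_V' (j : P) (a : Cn N) (r : ℝ) :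
    IsOpen {x | x ∈ F.V j ∧ nsq (F.y j x - a) < r} := by
  have h1 : ContinuousOn (fun x => F.y j x) (F.f ⁻¹' F.S j) :=
    (F.emb.qcont j).comp F.emb.cont.continuousOn fun x hx => hx
  have h2 : IsOpen (F.f ⁻¹' F.S j) := (F.emb.isOpen j).preimage F.emb.cont
  have h3 : {x | x ∈ F.V j ∧ nsq (F.y j x - a) < r} =
      F.f ⁻¹' F.S j ∩ (fun x => F.y j x) ⁻¹' {y | nsq y < 81 ∧ nsq (y - a) < r} := by
    ext x
    constructor
    · rintro ⟨⟨h, h'⟩, h''⟩
      exact ⟨h, h', h''⟩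
    · rintro ⟨h, h', h''⟩
      exact ⟨⟨h, h'⟩, h''⟩
  rw [h3]
  refine h1.isOpen_inter_preimage h2 ?_
  exact (isOpen_lt NC.contDiff_nsq.continuous continuous_const).inter
    (isOpen_lt (NC.contDiff_nsq.continuous.comp (continuous_id.sub continuous_const))
      continuous_const)

omit [CompactSpace M] [Finite κ] [Finite P] in
theorem isOpen_V'' (j : P) (a : Cn N) (r : ℝ) :
    IsOpen {x | x ∈ F.V j ∧ r < nsq (F.y j x - a)} := by
  have h1 : ContinuousOn (fun x => F.y j x) (F.f ⁻¹' F.S j) :=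
    (F.emb.qcont j).comp F.emb.cont.continuousOn fun x hx => hx
  have h2 : IsOpen (F.f ⁻¹' F.S j) := (F.emb.isOpen j).preimage F.emb.cont
  have h3 : {x | x ∈ F.V j ∧ r < nsq (F.y j x - a)} =
      F.f ⁻¹' F.S j ∩ (fun x => F.y j x) ⁻¹' {y | nsq y < 81 ∧ r < nsq (y - a)} := by
    ext x
    constructor
    · rintro ⟨⟨h, h'⟩, h''⟩
      exact ⟨h, h', h''⟩
    · rintro ⟨h, h', h''⟩
      exact ⟨⟨h, h'⟩, h''⟩
  rw [h3]
  refine h1.isOpen_inter_preimage h2 ?_
  exact (isOpen_lt NC.contDiff_nsq.continuous continuous_const).inter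
    (isOpen_lt continuous_const (NC.contDiff_nsq.continuous.comp
      (continuous_id.sub continuous_const)))

omit [CompactSpace M] [Finite κ] [Finite P] in
theorem isOpen_V (j : P) : IsOpen (F.V j) := by
  have h1 : ContinuousOn (fun x => F.y j x) (F.f ⁻¹' F.S j) :=
    (F.emb.qcont j).comp F.emb.cont.continuousOn fun x hx => hx
  have h2 : IsOpen (F.f ⁻¹' F.S j) := (F.emb.isOpen j).preimage F.emb.cont
  exact h1.isOpen_inter_preimage h2 (isOpen_lt NC.contDiff_nsq.continuous continuous_const)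

/-- the points of `V j` whose coordinates are near `F_j(x)` are near `F.f x` -/
theorem geo_Z : ∃ C, 0 < C ∧ ∀ j x x', F.f x ∈ F.S j → nsq (F.y j x) ≤ 81 → F.f x' ∈ F.S j →
    nsq (F.y j x') ≤ 81 → dist (F.f x') (F.f x) ≤ C * √(nsq (F.y j x' - F.y j x)) := by
  obtain ⟨C, hC, h⟩ := F.dist_Z
  exact ⟨C, hC, fun j x x' h1 h2 h3 h4 => (h j (F.f x') (F.f x) h3 h1 h4 h2).1⟩

/-- small balls in the charts -/
theorem geo_ball : ∃ C δ, 1 ≤ C ∧ 0 < δ ∧ δ ≤ 1 ∧ ∀ j x, F.f x ∈ F.S j → nsq (F.y j x) ≤ 9 →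
    ∃ c, x ∈ (F.e c).source ∧ nsq (F.e c x) ≤ 1 ∧ ∀ ρ, 0 ≤ ρ → ρ ≤ δ → ∀ u,
      nsq (u - F.e c x) ≤ ρ ^ 2 → u ∈ (F.e c).target ∧ dist x ((F.e c).symm u) ≤ C * ρ ∧
        (F.e c).symm u ∈ F.V j ∧ √(nsq (F.y j ((F.e c).symm u) - F.y j x)) ≤ C * ρ := by
  obtain ⟨C₁, hC₁, h₁⟩ := F.dist_chart
  obtain ⟨C₂, hC₂, h₂⟩ := F.f_lip
  obtain ⟨C₃, hC₃, h₃⟩ := F.dist_Z
  obtain ⟨δ, hδ, h₄⟩ := F.near_Z
  refine ⟨max 1 (max C₁ (C₃ * (C₂ * C₁))), min 1 (δ / (C₂ * C₁)), le_max_left _ _,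
    lt_min one_pos (by positivity), min_le_left _ _, ?_⟩
  intro j x hx hy
  obtain ⟨c, hc, hxc⟩ := F.cover x
  refine ⟨c, hc, hxc, ?_⟩
  intro ρ hρ hρδ u hu
  have hρ1 : ρ ≤ 1 := hρδ.trans (min_le_left _ _)
  have hρ2 : C₂ * C₁ * ρ ≤ δ := by
    have := hρδ.trans (min_le_right _ _)
    rw [le_div_iff₀ (by positivity)] at this
    linarith
  have hu4 : nsq u ≤ (ρ + 1) ^ 2 := by
    have := KRFX.RegK.nsq_tri (x := u - F.e c x) (y := F.e c x) hρ zero_le_one hu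
      (by rw [one_pow]; exact hxc)
    rwa [sub_add_cancel] at this
  have hu5 : nsq u ≤ 4 := by nlinarith
  have ht : u ∈ (F.e c).target := F.target c (by
    change nsq u < 100
    linarith)
  have hs : (F.e c).symm u ∈ (F.e c).source := (F.e c).map_target ht
  have hr : F.e c ((F.e c).symm u) = u := (F.e c).right_inv ht
  have hd : dist x ((F.e c).symm u) ≤ C₁ * ρ := by
    refine (h₁ c x _ hc hs (by linarith) (by rw [hr]; linarith)).1.trans ?_
    refine mul_le_mul_of_nonneg_left ?_ hC₁.le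
    rw [hr, KRFX.RegK.nsq_comm]
    exact (Real.sqrt_le_sqrt hu).trans_eq (Real.sqrt_sq hρ)
  have hdf : dist (F.f x) (F.f ((F.e c).symm u)) ≤ C₂ * C₁ * ρ := by
    refine (h₂ _ _).trans ?_
    have := mul_le_mul_of_nonneg_left hd hC₂.le
    linarith
  obtain ⟨hS, hn⟩ := h₄ j (F.f x) (F.f ((F.e c).symm u)) 3 hx (by norm_num) (by norm_num)
    (hy.trans (by norm_num)) (hdf.trans hρ2)
  have hn' : nsq (F.y j ((F.e c).symm u)) < 81 := lt_of_le_of_lt hn (by norm_num)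
  refine ⟨ht, hd.trans ?_, ⟨hS, hn'⟩, ?_⟩
  · exact mul_le_mul_of_nonneg_right ((le_max_left _ _).trans (le_max_right _ _)) hρ
  · have h5 := (h₃ j (F.f ((F.e c).symm u)) (F.f x) hS hx hn'.le (by
      change nsq (F.y j x) ≤ 81
      linarith)).2
    refine h5.trans ?_
    rw [dist_comm]
    refine (mul_le_mul_of_nonneg_left hdf hC₃.le).trans ?_
    have h6 : C₃ * (C₂ * C₁ * ρ) = C₃ * (C₂ * C₁) * ρ := by ring
    rw [h6]
    exact mul_le_mul_of_nonneg_right ((le_max_right _ _).trans (le_max_right _ _)) hρ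

end

end Peak

end Pool.Agent.KRFZ

end

section

/-!
# The integrals of the peak functions
-/

open scoped ContDiff ENNReal ComplexOrder Topology
open Set MeasureTheory Filter Pool.Agent.ToricKRF Pool.Agent.ToricKRF.G Pool.Agent.KRFS
  Pool.Agent.KRFF Pool.Agent.KRFG Pool.Agent.KRFE Pool.Agent.KRFX

namespace Pool.Agent.KRFZ

namespace Peak

/-! ### Integrals -/

section

variable {M : Type} [MeasurableSpace M] {μ : Measure M}

theorem lint_le {S S' : Set M} (hS : MeasurableSet S) (hSS' : S ⊆ S') {f g : M → ℝ} {K : ℝ}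
    (hK : 0 ≤ K) (h : ∀ x ∈ S, f x ≤ K * g x) :
    ∫⁻ x in S, ENNReal.ofReal (f x) ∂μ ≤ ENNReal.ofReal K * ∫⁻ x in S', ENNReal.ofReal (g x) ∂μ :=
  calc ∫⁻ x in S, ENNReal.ofReal (f x) ∂μ ≤
        ∫⁻ x in S, ENNReal.ofReal K * ENNReal.ofReal (g x) ∂μ := by
        refine setLIntegral_mono' hS fun x hx => ?_
        rw [← ENNReal.ofReal_mul hK]
        exact ENNReal.ofReal_le_ofReal (h x hx)
    _ = ENNReal.ofReal K * ∫⁻ x in S, ENNReal.ofReal (g x) ∂μ :=
        lintegral_const_mul' _ _ ENNReal.ofReal_ne_top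
    _ ≤ _ := mul_le_mul_right (lintegral_mono_set hSS') _

theorem lint_le_add {S S₁ S' : Set M} (hS : MeasurableSet S) (hS₁ : MeasurableSet S₁)
    (hS' : S₁ ⊆ S') {f g₁ g₂ : M → ℝ} {K₁ K₂ : ℝ} (hK₁ : 0 ≤ K₁) (hK₂ : 0 ≤ K₂)
    (hg₂ : Measurable g₂) (h0 : ∀ x ∈ S, x ∉ S₁ → f x ≤ K₁ * g₁ x) (hg₁ : ∀ x, 0 ≤ g₁ x)
    (hg₂' : ∀ x, 0 ≤ g₂ x) (h1 : ∀ x ∈ S, x ∈ S₁ → f x ≤ K₁ * g₁ x + K₂ * g₂ x) :
    ∫⁻ x in S, ENNReal.ofReal (f x) ∂μ ≤ ENNReal.ofReal K₁ * ∫⁻ x in S, ENNReal.ofReal (g₁ x) ∂μ +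
      ENNReal.ofReal K₂ * ∫⁻ x in S', ENNReal.ofReal (g₂ x) ∂μ := by
  have hm : Measurable (S₁.indicator fun x => ENNReal.ofReal K₂ * ENNReal.ofReal (g₂ x)) :=
    (measurable_const.mul hg₂.ennreal_ofReal).indicator hS₁
  calc ∫⁻ x in S, ENNReal.ofReal (f x) ∂μ ≤
        ∫⁻ x in S, (ENNReal.ofReal K₁ * ENNReal.ofReal (g₁ x) +
          S₁.indicator (fun x => ENNReal.ofReal K₂ * ENNReal.ofReal (g₂ x)) x) ∂μ := by
        refine setLIntegral_mono' hS fun x hx => ?_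
        rw [← ENNReal.ofReal_mul hK₁]
        by_cases hx1 : x ∈ S₁
        · rw [indicator_of_mem hx1, ← ENNReal.ofReal_mul hK₂,
            ← ENNReal.ofReal_add (mul_nonneg hK₁ (hg₁ x)) (mul_nonneg hK₂ (hg₂' x))]
          exact ENNReal.ofReal_le_ofReal (h1 x hx hx1)
        · rw [indicator_of_notMem hx1, add_zero]
          exact ENNReal.ofReal_le_ofReal (h0 x hx hx1)
    _ = ∫⁻ x in S, ENNReal.ofReal K₁ * ENNReal.ofReal (g₁ x) ∂μ +
        ∫⁻ x in S, S₁.indicator (fun x => ENNReal.ofReal K₂ * ENNReal.ofReal (g₂ x)) x ∂μ :=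
        lintegral_add_right _ hm
    _ ≤ _ := by
        refine add_le_add ?_ ?_
        · rw [lintegral_const_mul' _ _ ENNReal.ofReal_ne_top]
        · calc ∫⁻ x in S, S₁.indicator (fun x => ENNReal.ofReal K₂ * ENNReal.ofReal (g₂ x)) x ∂μ ≤
                ∫⁻ x, S₁.indicator (fun x => ENNReal.ofReal K₂ * ENNReal.ofReal (g₂ x)) x ∂μ :=
                setLIntegral_le_lintegral _ _
            _ = ∫⁻ x in S₁, ENNReal.ofReal K₂ * ENNReal.ofReal (g₂ x) ∂μ :=
                lintegral_indicator hS₁ _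
            _ = ENNReal.ofReal K₂ * ∫⁻ x in S₁, ENNReal.ofReal (g₂ x) ∂μ :=
                lintegral_const_mul' _ _ ENNReal.ofReal_ne_top
            _ ≤ _ := mul_le_mul_right (lintegral_mono_set hS') _

end

section

variable {n N : ℕ} {M Z : Type} [MetricSpace M] [CompactSpace M] [MeasurableSpace M] [BorelSpace M]
  [MetricSpace Z] {κ P : Type} [Finite κ] [Finite P] {T : ℝ} (F : Semi n N M Z κ P T)

omit [CompactSpace M] [MeasurableSpace M] [BorelSpace M] [Finite κ] [Finite P] in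
theorem Phi_cont {t : ℝ} (ht : t ∈ Ico 0 T) : Continuous (F.Phi t) := by
  rw [← continuousOn_univ]
  exact ContinuousOn.comp (f := fun p : M => (t, p)) (F.toFlow.Phi_continuousOn)
    (Continuous.prodMk_right t).continuousOn fun p _ => ⟨ht, mem_univ _⟩

/-- the weight -/
noncomputable def Wt (n : ℕ) {N : ℕ} (a : Cn N) (ε : ℝ) (y : Cn N) : ℝ :=
  ((n : ℝ) + 1) * Pole.W0 a ε y

theorem Wt_smooth (n : ℕ) {N : ℕ} (a : Cn N) {ε : ℝ} (hε : 0 < ε) (S : Set (Cn N)) :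
    ContDiffOn ℝ ∞ (Wt n a ε) S :=
  (contDiff_const.mul (Pole.W0_smooth a hε)).contDiffOn

theorem Wt_psh (n : ℕ) {N : ℕ} (a : Cn N) {ε : ℝ} (hε : 0 < ε) (y u : Cn N) :
    0 ≤ levz (Wt n a ε) u y := by
  have h1 : levz (Wt n a ε) u y = ((n : ℝ) + 1) * levz (Pole.W0 a ε) u y :=
    Bd.levz_const_mul _ (((Pole.W0_smooth a hε).contDiffAt).of_le (by norm_cast)) u
  rw [h1]
  exact mul_nonneg (by positivity) (Pole.W0_psh a hε y u)

theorem exp_Wt (n : ℕ) {N : ℕ} (a : Cn N) {ε : ℝ} (hε : 0 < ε) (y : Cn N) :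
    Real.exp (Wt n a ε y) = (nsq (y - a) + ε ^ 2) ^ (n + 1) := by
  have h0 : 0 < nsq (y - a) + ε ^ 2 := by
    have := NC.nsq_nonneg (y - a)
    positivity
  have h1 : Wt n a ε y = ((n + 1 : ℕ) : ℝ) * Real.log (nsq (y - a) + ε ^ 2) := by
    unfold Wt Pole.W0
    push_cast
    ring
  rw [h1, Real.exp_nat_mul, Real.exp_log h0]

variable {F} in
omit [CompactSpace M] [Finite κ] [Finite P] in
/-- The integral over `V j` and the value at the centre of a function `h` which is near a cut-off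
function `χ` in the space with the weight `Wt`. -/
theorem core {μ : Measure M} {t p : ℝ} (ht : t ∈ Ico 0 T) {j : P} {a : Cn N}
    (ha : nsq a ≤ 9) {u r ε B Ch CN : ℝ} (hr : 0 < r) (hε : 0 < ε)
    (hεr : 2 * ε ≤ r) (hε1 : ε ≤ 1) (hCh : 0 ≤ Ch) (hCN : 0 ≤ CN) {χ : M → ℝ} {h : M → ℂ}
    (hχ : ∀ x, 0 ≤ χ x ∧ χ x ≤ 1)
    (hχ1 : ∀ x, F.f x ∈ F.S j → nsq (F.y j x - a) ≤ r ^ 2 / 4 → χ x = 1)
    (hχ0 : ∀ x, χ x ≠ 0 → F.f x ∈ F.S j ∧ nsq (F.y j x - a) < r ^ 2)
    (hint : ∫⁻ x in F.V j, ENNReal.ofReal (‖(χ x : ℂ) - h x‖ ^ 2 *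
      Real.exp (-(p * F.pK t j x + Wt n a ε (F.y j x)))) ∂μ ≤ ENNReal.ofReal (Ch / r ^ 2) *
      ∫⁻ x in {x | x ∈ F.V j ∧ r ^ 2 / 4 ≤ nsq (F.y j x - a) ∧ nsq (F.y j x - a) ≤ r ^ 2},
        ENNReal.ofReal (Real.exp (-(p * F.pK t j x + Wt n a ε (F.y j x)))) ∂μ)
    {Nn : Set M} (hN : ∀ x ∈ F.V j, nsq (F.y j x - a) ≤ r ^ 2 → x ∈ Nn)
    (hK : ∀ x ∈ F.V j, nsq (F.y j x - a) ≤ r ^ 2 → |p * F.K j (F.y j x) - p * F.K j a| ≤ B)
    (hI : ∫⁻ x in Nn, ENNReal.ofReal (Real.exp (p * (u - F.Phi t x))) ∂μ ≤ ENNReal.ofReal CN)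
    {Bl : Set M} (hBl : MeasurableSet Bl)
    (hball : ∀ x ∈ Bl, x ∈ F.V j ∧ nsq (F.y j x - a) ≤ ε ^ 2 ∧ p * F.Phi t x ≤ p * u + B) :
    (∫⁻ x in Bl, ENNReal.ofReal (‖1 - h x‖ ^ 2) ∂μ ≤ ENNReal.ofReal ((2 * ε ^ 2) ^ (n + 1) *
      Real.exp (3 * B) * (Ch / r ^ 2 * ((4 / r ^ 2) ^ (n + 1) * CN)))) ∧
    ∫⁻ x in F.V j, ENNReal.ofReal (‖h x‖ ^ 2 * Real.exp (-(p * F.pK t j x))) ∂μ ≤
      ENNReal.ofReal (Real.exp (B - p * (F.K j a + u)) * (2 * 200 ^ (n + 1) *
        (Ch / r ^ 2 * ((4 / r ^ 2) ^ (n + 1) * CN)) + 2 * CN)) := by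
  set E : ℝ := p * (F.K j a + u) with hE
  have hq0 : ∀ x, 0 < nsq (F.y j x - a) + ε ^ 2 := fun x => by
    have := NC.nsq_nonneg (F.y j x - a)
    positivity
  -- the pointwise bounds
  have P1 : ∀ x ∈ F.V j, nsq (F.y j x - a) ≤ r ^ 2 → Real.exp (-(p * F.pK t j x)) ≤
      Real.exp (B - E) * Real.exp (p * (u - F.Phi t x)) := by
    intro x hx hxr
    rw [← Real.exp_add]
    refine Real.exp_le_exp.2 ?_
    have h1 := (abs_le.1 (hK x hx hxr)).1
    rw [hE]
    unfold Semi.pK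
    nlinarith
  have eW : ∀ x, Real.exp (-(p * F.pK t j x + Wt n a ε (F.y j x))) =
      Real.exp (-(p * F.pK t j x)) * ((nsq (F.y j x - a) + ε ^ 2) ^ (n + 1))⁻¹ := by
    intro x
    rw [neg_add, Real.exp_add, Real.exp_neg (Wt _ _ _ _), exp_Wt n a hε]
  -- measurability
  have hVm : MeasurableSet (F.V j) := (isOpen_V F j).measurableSet
  have hsh : MeasurableSet {x | x ∈ F.V j ∧ r ^ 2 / 4 ≤ nsq (F.y j x - a) ∧
      nsq (F.y j x - a) ≤ r ^ 2} := by
    have h1 : {x | x ∈ F.V j ∧ r ^ 2 / 4 ≤ nsq (F.y j x - a) ∧ nsq (F.y j x - a) ≤ r ^ 2} =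
        (F.V j \ {x | x ∈ F.V j ∧ nsq (F.y j x - a) < r ^ 2 / 4}) \
          {x | x ∈ F.V j ∧ r ^ 2 < nsq (F.y j x - a)} := by
      ext x
      simp only [Set.mem_sdiff, mem_ofPred_eq, not_and, not_lt]
      constructor
      · rintro ⟨h1, h2, h3⟩
        exact ⟨⟨h1, fun _ => h2⟩, fun _ => h3⟩
      · rintro ⟨⟨h1, h2⟩, h3⟩
        exact ⟨h1, h2 h1, h3 h1⟩
    rw [h1]
    exact (hVm.diff (isOpen_V' F j a _).measurableSet).diff (isOpen_V'' F j a _).measurableSet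
  -- the integral over the shell
  have hJ : ∫⁻ x in F.V j, ENNReal.ofReal (‖(χ x : ℂ) - h x‖ ^ 2 *
      Real.exp (-(p * F.pK t j x + Wt n a ε (F.y j x)))) ∂μ ≤
      ENNReal.ofReal (Real.exp (B - E) * (Ch / r ^ 2 * ((4 / r ^ 2) ^ (n + 1) * CN))) := by
    have h1 := lint_le (μ := μ) hsh (S' := Nn) (fun x hx => hN x hx.1 hx.2.2)
      (f := fun x => Real.exp (-(p * F.pK t j x + Wt n a ε (F.y j x))))
      (g := fun x => Real.exp (p * (u - F.Phi t x)))
      (K := Real.exp (B - E) * (4 / r ^ 2) ^ (n + 1)) (by positivity) (by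
        rintro x ⟨hx, hx1, hx2⟩
        rw [eW]
        have h2 : ((nsq (F.y j x - a) + ε ^ 2) ^ (n + 1))⁻¹ ≤ (4 / r ^ 2) ^ (n + 1) := by
          rw [← inv_pow]
          refine pow_le_pow_left₀ (inv_nonneg.2 (hq0 x).le) ?_ _
          rw [inv_le_comm₀ (hq0 x) (by positivity), inv_div]
          nlinarith [sq_nonneg ε]
        calc Real.exp (-(p * F.pK t j x)) * ((nsq (F.y j x - a) + ε ^ 2) ^ (n + 1))⁻¹ ≤
              (Real.exp (B - E) * Real.exp (p * (u - F.Phi t x))) * (4 / r ^ 2) ^ (n + 1) :=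
              mul_le_mul (P1 x hx hx2) h2 (inv_nonneg.2 (pow_pos (hq0 x) _).le) (by positivity)
          _ = _ := by ring)
    refine hint.trans ((mul_le_mul_right (h1.trans (mul_le_mul_right hI _)) _).trans_eq ?_)
    rw [← ENNReal.ofReal_mul (by positivity), ← ENNReal.ofReal_mul (by positivity)]
    congr 1
    ring
  constructor
  · have h1 := lint_le (μ := μ) hBl (S' := F.V j) (fun x hx => (hball x hx).1)
      (f := fun x => ‖1 - h x‖ ^ 2)
      (g := fun x => ‖(χ x : ℂ) - h x‖ ^ 2 * Real.exp (-(p * F.pK t j x + Wt n a ε (F.y j x))))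
      (K := (2 * ε ^ 2) ^ (n + 1) * Real.exp (E + 2 * B)) (by positivity) (by
        intro x hx
        obtain ⟨hxV, hxε, hxP⟩ := hball x hx
        have hχx : χ x = 1 := hχ1 x hxV.1 (hxε.trans (by nlinarith))
        have hk := (abs_le.1 (hK x hxV (hxε.trans (by nlinarith)))).2
        rw [eW, hχx, Complex.ofReal_one]
        have h2 : ((2 * ε ^ 2) ^ (n + 1))⁻¹ ≤ ((nsq (F.y j x - a) + ε ^ 2) ^ (n + 1))⁻¹ := by
          refine inv_anti₀ (pow_pos (hq0 x) _) (pow_le_pow_left₀ (hq0 x).le ?_ _)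
          linarith
        have h3 : Real.exp (-(E + 2 * B)) ≤ Real.exp (-(p * F.pK t j x)) := by
          refine Real.exp_le_exp.2 ?_
          rw [hE]
          unfold Semi.pK
          nlinarith
        have h4 : (2 * ε ^ 2) ^ (n + 1) * Real.exp (E + 2 * B) *
            (Real.exp (-(E + 2 * B)) * ((2 * ε ^ 2) ^ (n + 1))⁻¹) = 1 := by
          rw [Real.exp_neg]
          have := (Real.exp_pos (E + 2 * B)).ne'
          field_simp
        calc ‖1 - h x‖ ^ 2 = ‖1 - h x‖ ^ 2 * ((2 * ε ^ 2) ^ (n + 1) * Real.exp (E + 2 * B) *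
              (Real.exp (-(E + 2 * B)) * ((2 * ε ^ 2) ^ (n + 1))⁻¹)) := by rw [h4, mul_one]
          _ ≤ ‖1 - h x‖ ^ 2 * ((2 * ε ^ 2) ^ (n + 1) * Real.exp (E + 2 * B) *
              (Real.exp (-(p * F.pK t j x)) * ((nsq (F.y j x - a) + ε ^ 2) ^ (n + 1))⁻¹)) := by
              have h5 : 0 ≤ ((2 * ε ^ 2) ^ (n + 1))⁻¹ := by positivity
              gcongr
          _ = _ := by ring)
    refine h1.trans ((mul_le_mul_right hJ _).trans_eq ?_)
    rw [← ENNReal.ofReal_mul (by positivity)]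
    congr 1
    have h2 : Real.exp (E + 2 * B) * Real.exp (B - E) = Real.exp (3 * B) := by
      rw [← Real.exp_add]
      ring_nf
    calc _ = (2 * ε ^ 2) ^ (n + 1) * (Real.exp (E + 2 * B) * Real.exp (B - E)) *
          (Ch / r ^ 2 * ((4 / r ^ 2) ^ (n + 1) * CN)) := by ring
      _ = _ := by rw [h2]
  · have hg : Measurable fun x => Real.exp (p * (u - F.Phi t x)) :=
      (Real.continuous_exp.comp (continuous_const.mul
        (continuous_const.sub (Phi_cont F ht)))).measurable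
    have hfin : ∀ x ∈ F.V j, ‖(χ x : ℂ) - h x‖ ^ 2 * Real.exp (-(p * F.pK t j x)) ≤
        200 ^ (n + 1) * (‖(χ x : ℂ) - h x‖ ^ 2 *
          Real.exp (-(p * F.pK t j x + Wt n a ε (F.y j x)))) := by
      intro x hx
      have h1 : nsq (F.y j x - a) + ε ^ 2 ≤ 200 := by
        have h2 := KRFX.RegK.nsq_tri_sub (x := F.y j x) (y := a) (a := 9) (b := 3) (by norm_num)
          (by norm_num) (by linarith [hx.2]) (by linarith)
        nlinarith
      have h3 : 1 ≤ 200 ^ (n + 1) * ((nsq (F.y j x - a) + ε ^ 2) ^ (n + 1))⁻¹ := by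
        rw [← div_eq_mul_inv, one_le_div (pow_pos (hq0 x) _)]
        exact pow_le_pow_left₀ (hq0 x).le h1 _
      rw [eW]
      calc ‖(χ x : ℂ) - h x‖ ^ 2 * Real.exp (-(p * F.pK t j x)) =
            ‖(χ x : ℂ) - h x‖ ^ 2 * Real.exp (-(p * F.pK t j x)) * 1 := (mul_one _).symm
        _ ≤ ‖(χ x : ℂ) - h x‖ ^ 2 * Real.exp (-(p * F.pK t j x)) *
            (200 ^ (n + 1) * ((nsq (F.y j x - a) + ε ^ 2) ^ (n + 1))⁻¹) :=
            mul_le_mul_of_nonneg_left h3 (by positivity)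
        _ = _ := by ring
    have htri : ∀ x, ‖h x‖ ^ 2 ≤ 2 * ‖(χ x : ℂ) - h x‖ ^ 2 + 2 * ‖(χ x : ℂ)‖ ^ 2 := by
      intro x
      have h1 : ‖h x‖ ≤ ‖(χ x : ℂ) - h x‖ + ‖(χ x : ℂ)‖ := by
        calc ‖h x‖ = ‖(χ x : ℂ) - ((χ x : ℂ) - h x)‖ := by rw [sub_sub_cancel]
          _ ≤ ‖(χ x : ℂ)‖ + ‖(χ x : ℂ) - h x‖ := norm_sub_le _ _
          _ = _ := add_comm _ _
      have h2 := norm_nonneg (h x)
      nlinarith [sq_nonneg (‖(χ x : ℂ) - h x‖ - ‖(χ x : ℂ)‖)]
    have h1 := lint_le_add (μ := μ) hVm (S₁ := {x | x ∈ F.V j ∧ nsq (F.y j x - a) < r ^ 2})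
      (S' := Nn) (isOpen_V' F j a _).measurableSet (fun x hx => hN x hx.1 hx.2.le)
      (f := fun x => ‖h x‖ ^ 2 * Real.exp (-(p * F.pK t j x)))
      (g₁ := fun x => ‖(χ x : ℂ) - h x‖ ^ 2 *
        Real.exp (-(p * F.pK t j x + Wt n a ε (F.y j x))))
      (g₂ := fun x => Real.exp (p * (u - F.Phi t x)))
      (K₁ := 2 * 200 ^ (n + 1)) (K₂ := 2 * Real.exp (B - E)) (by positivity) (by positivity) hg
      (by
        intro x hx hx1
        have hχx : χ x = 0 := by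
          by_contra hne
          exact hx1 ⟨hx, (hχ0 x hne).2⟩
        have h2 := htri x
        rw [hχx] at h2
        simp only [Complex.ofReal_zero, norm_zero, ne_eq, OfNat.ofNat_ne_zero, not_false_eq_true,
          zero_pow, mul_zero, add_zero] at h2
        have h3 := hfin x hx
        rw [hχx, Complex.ofReal_zero] at h3
        rw [hχx, Complex.ofReal_zero]
        calc ‖h x‖ ^ 2 * Real.exp (-(p * F.pK t j x)) ≤
              2 * ‖0 - h x‖ ^ 2 * Real.exp (-(p * F.pK t j x)) :=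
              mul_le_mul_of_nonneg_right h2 (Real.exp_pos _).le
          _ ≤ _ := by linarith)
      (fun x => by positivity) (fun x => by positivity)
      (by
        intro x hx hx1
        have h2 := htri x
        have h3 := hfin x hx
        have h4 := P1 x hx hx1.2.le
        have h5 : ‖(χ x : ℂ)‖ ^ 2 ≤ 1 := by
          rw [Complex.norm_real, Real.norm_eq_abs, sq_abs]
          nlinarith [hχ x]
        calc ‖h x‖ ^ 2 * Real.exp (-(p * F.pK t j x)) ≤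
              (2 * ‖(χ x : ℂ) - h x‖ ^ 2 + 2 * 1) * Real.exp (-(p * F.pK t j x)) := by
              refine mul_le_mul_of_nonneg_right ?_ (Real.exp_pos _).le
              linarith
          _ ≤ _ := by linarith)
    refine h1.trans ((add_le_add (mul_le_mul_right hJ _) (mul_le_mul_right hI _)).trans_eq ?_)
    rw [← ENNReal.ofReal_mul (by positivity), ← ENNReal.ofReal_mul (by positivity),
      ← ENNReal.ofReal_add (by positivity) (by positivity)]
    congr 1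
    ring

end

end Peak

end Pool.Agent.KRFZ

end

section

/-!
# Peak functions, from the integral estimate, the cut-off and the mean value inequality
-/

open scoped ContDiff ENNReal ComplexOrder Topology
open Set MeasureTheory Filter Pool.Agent.ToricKRF Pool.Agent.ToricKRF.G Pool.Agent.KRFS
  Pool.Agent.KRFF Pool.Agent.KRFG Pool.Agent.KRFE Pool.Agent.KRFX

namespace Pool.Agent.KRFZ

namespace Peak

/-! ### The parameters -/

/-- the choice of `ε` -/
theorem params {Λ δ c : ℝ} (hΛ : 1 ≤ Λ) (hδ : 0 < δ) (hc : 1 ≤ c) {D G : ℝ} (hD : 0 ≤ D)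
    (hG : 0 ≤ G) : ∃ k l₀ : ℝ, 1 ≤ l₀ ∧ 1 ≤ k ∧ ∀ l, l₀ ≤ l →
      D * Real.exp (G * l) * Real.exp (-(k * l)) ^ 2 ≤ 1 / 4 ∧
      2 * Real.exp (-(k * l)) ≤ Real.exp (-(Λ * l)) / c ∧
      Real.exp (-(k * l)) ≤ Real.exp (-l) ∧ Real.exp (-(k * l)) ≤ δ := by
  have hL1 : 0 ≤ Real.log (4 * (D + 1)) := Real.log_nonneg (by linarith)
  have hL2 : 0 ≤ Real.log (2 * c) := Real.log_nonneg (by linarith)
  refine ⟨G + Real.log (4 * (D + 1)) + Λ + Real.log (2 * c), max 1 (1 / δ), le_max_left _ _,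
    by linarith, ?_⟩
  intro l hl
  have hl1 : 1 ≤ l := (le_max_left _ _).trans hl
  have hlδ : 1 / δ ≤ l := (le_max_right _ _).trans hl
  set k := G + Real.log (4 * (D + 1)) + Λ + Real.log (2 * c) with hk
  have h3 : Real.exp (-(k * l)) ≤ Real.exp (-l) := by
    refine Real.exp_le_exp.2 (neg_le_neg (le_mul_of_one_le_left (by linarith) ?_))
    rw [hk]
    linarith
  refine ⟨?_, ?_, h3, ?_⟩
  · have h1 : Real.exp (-(k * l)) ^ 2 ≤ Real.exp (-(G * l)) * (4 * (D + 1))⁻¹ := by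
      rw [← Real.exp_log (show (0 : ℝ) < 4 * (D + 1) by linarith), ← Real.exp_neg, ← Real.exp_add,
        sq, ← Real.exp_add]
      refine Real.exp_le_exp.2 ?_
      have h2 : Real.log (4 * (D + 1)) * 1 ≤ Real.log (4 * (D + 1)) * l :=
        mul_le_mul_of_nonneg_left hl1 hL1
      have h4 : 0 ≤ Real.log (2 * c) * l := mul_nonneg hL2 (by linarith)
      have h5 : 0 ≤ G * l := mul_nonneg hG (by linarith)
      have h6 : 0 ≤ Λ * l := mul_nonneg (by linarith) (by linarith)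
      rw [hk]
      linarith
    calc D * Real.exp (G * l) * Real.exp (-(k * l)) ^ 2 ≤
          D * Real.exp (G * l) * (Real.exp (-(G * l)) * (4 * (D + 1))⁻¹) :=
          mul_le_mul_of_nonneg_left h1 (by positivity)
      _ = D / (4 * (D + 1)) * (Real.exp (G * l) * Real.exp (-(G * l))) := by
          field_simp
      _ = D / (4 * (D + 1)) := by rw [← Real.exp_add, add_neg_cancel, Real.exp_zero, mul_one]
      _ ≤ 1 / 4 := by
          rw [div_le_div_iff₀ (by linarith) (by norm_num)]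
          linarith
  · have h1 : Real.exp (-(k * l)) ≤ Real.exp (-(Λ * l)) * (2 * c)⁻¹ := by
      rw [← Real.exp_log (show (0 : ℝ) < 2 * c by linarith), ← Real.exp_neg, ← Real.exp_add]
      refine Real.exp_le_exp.2 ?_
      have h2 : Real.log (2 * c) * 1 ≤ Real.log (2 * c) * l :=
        mul_le_mul_of_nonneg_left hl1 hL2
      have h4 : 0 ≤ Real.log (4 * (D + 1)) * l := mul_nonneg hL1 (by linarith)
      have h5 : 0 ≤ G * l := mul_nonneg hG (by linarith)
      rw [hk]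
      linarith
    calc 2 * Real.exp (-(k * l)) ≤ 2 * (Real.exp (-(Λ * l)) * (2 * c)⁻¹) :=
          mul_le_mul_of_nonneg_left h1 (by norm_num)
      _ = _ := by field_simp
  · refine h3.trans ?_
    rw [Real.exp_neg]
    have h1 : 1 / δ ≤ Real.exp l := by
      have := Real.add_one_le_exp l
      linarith
    rw [div_le_iff₀ hδ] at h1
    rw [inv_le_iff_one_le_mul₀ (Real.exp_pos _)]
    linarith

/-- the product of the constants -/
theorem prod_eq (n : ℕ) {Cm g ε E Ch X CN : ℝ} (hg : g ≠ 0) (hε : ε ≠ 0) (hX : X ≠ 0) :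
    Cm / (ε / (2 * g)) ^ (2 * n) * ((2 * ε ^ 2) ^ (n + 1) * E *
      (Ch / X⁻¹ ^ 2 * ((4 / X⁻¹ ^ 2) ^ (n + 1) * CN))) =
    Cm * (2 * g) ^ (2 * n) * 2 ^ (n + 1) * E * Ch * 4 ^ (n + 1) * X ^ (2 * (n + 2)) * CN *
      ε ^ 2 := by
  have e1 : Ch / X⁻¹ ^ 2 = Ch * X ^ 2 := by
    field_simp
  have e2 : (4 / X⁻¹ ^ 2) ^ (n + 1) = 4 ^ (n + 1) * X ^ (2 * (n + 1)) := by
    have : 4 / X⁻¹ ^ 2 = 4 * X ^ 2 := by field_simp
    rw [this, mul_pow, ← pow_mul]
  have e3 : Cm / (ε / (2 * g)) ^ (2 * n) = Cm * (2 * g) ^ (2 * n) / ε ^ (2 * n) := by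
    rw [div_pow]
    field_simp
  have e4 : (2 * ε ^ 2) ^ (n + 1) = 2 ^ (n + 1) * (ε ^ (2 * n) * ε ^ 2) := by
    rw [mul_pow, ← pow_mul, ← pow_add]
    ring
  have e5 : X ^ (2 * (n + 2)) = X ^ 2 * X ^ (2 * (n + 1)) := by
    rw [← pow_add]
    ring_nf
  have hε' : ε ^ (2 * n) ≠ 0 := pow_ne_zero _ hε
  rw [e1, e2, e3, e4, e5]
  field_simp

section

variable {n N : ℕ} {M Z : Type} [MetricSpace M] [CompactSpace M] [MeasurableSpace M] [BorelSpace M]
  [MetricSpace Z] {κ P : Type} [Finite κ] [Finite P] {T : ℝ} (F : Semi n N M Z κ P T)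

/-- the statement `Semi.horm_cut` for the function `1` -/
def HormOne (μ : Measure M) : Prop := ∃ C c₀, 0 ≤ C ∧ 0 < c₀ ∧ ∀ t ∈ Ico 0 T, ∀ p, 0 ≤ p →
  p * (T - t) ≤ c₀ → ∀ (j : P) (a : Cn N) (r : ℝ) (W : Cn N → ℝ), nsq a ≤ 9 → 0 < r → r ≤ 1 →
  ContDiffOn ℝ ∞ W {y | nsq y < 100} → (∀ y, nsq y < 100 → ∀ u, 0 ≤ levz W u y) →
  ∃ (χ : M → ℝ) (h : M → ℂ), F.Hol j h ∧ (∀ x, 0 ≤ χ x ∧ χ x ≤ 1) ∧
    (∀ x, F.f x ∈ F.S j → nsq (F.y j x - a) ≤ r ^ 2 / 4 → χ x = 1) ∧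
    (∀ x, χ x ≠ 0 → F.f x ∈ F.S j ∧ nsq (F.y j x - a) < r ^ 2) ∧
    ∫⁻ x in F.V j, ENNReal.ofReal (‖(χ x : ℂ) - h x‖ ^ 2 *
      Real.exp (-(p * F.pK t j x + W (F.y j x)))) ∂μ ≤ ENNReal.ofReal (C / r ^ 2) *
      ∫⁻ x in {x | x ∈ F.V j ∧ r ^ 2 / 4 ≤ nsq (F.y j x - a) ∧ nsq (F.y j x - a) ≤ r ^ 2},
        ENNReal.ofReal (Real.exp (-(p * F.pK t j x + W (F.y j x)))) ∂μ

/-- the statement `Semi.tube` -/
def Tube (μ : Measure M) (Λ : ℝ) : Prop := ∃ C c₀ l₀, 0 ≤ C ∧ 0 < c₀ ∧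
    1 ≤ l₀ ∧ ∀ t ∈ Ico 0 T, ∀ c x l, l₀ ≤ l → x ∈ (F.e c).source → nsq (F.e c x) ≤ 9 →
    ∀ p, 0 ≤ p → (∀ x₁, dist x x₁ ≤ Real.exp (-l) → p * F.A t (F.f x₁) l ≤ c₀ * l) →
    ∫⁻ x' in {x' | dist (F.f x) (F.f x') ≤ Real.exp (-(Λ * l))},
      ENNReal.ofReal (Real.exp (p * (F.U t c l (F.e c x) - F.Phi t x'))) ∂μ ≤
        ENNReal.ofReal (Real.exp (C * l))

/-- the statement `Semi.mean_value` -/
def MeanV (μ : Measure M) : Prop :=
  ∃ C, 0 < C ∧ ∀ (c : κ) (x₀ : Cn n) (r : ℝ) (h : M → ℂ), 0 < r → r ≤ 1 →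
    nsq x₀ ≤ 16 → NF.HolC (fun x => h ((F.e c).symm x)) {x | nsq (x - x₀) < (2 * r) ^ 2} →
    ENNReal.ofReal (‖h ((F.e c).symm x₀)‖ ^ 2) ≤ ENNReal.ofReal (C / r ^ (2 * n)) *
      ∫⁻ p in (F.e c).symm '' {x | nsq (x - x₀) ≤ r ^ 2}, ENNReal.ofReal (‖h p‖ ^ 2) ∂μ

variable {F}

omit [CompactSpace M] [Finite κ] [Finite P] [MeasurableSpace M] [BorelSpace M] in
theorem isOpen_chartV (c : κ) (j : P) :
    IsOpen {x | x ∈ (F.e c).target ∧ (F.e c).symm x ∈ F.V j} :=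
  (F.e c).continuousOn_symm.isOpen_inter_preimage (F.e c).open_target (isOpen_V F j)

omit [CompactSpace M] [Finite κ] [Finite P] [MeasurableSpace M] [BorelSpace M] in
theorem hol_one_sub {j : P} {h : M → ℂ} (hh : F.Hol j h) (c : κ) {S : Set (Cn n)} 
    (hS : S ⊆ {x | x ∈ (F.e c).target ∧ (F.e c).symm x ∈ F.V j}) :
    NF.HolC (fun x => 1 - h ((F.e c).symm x)) S := by
  have hO := isOpen_chartV (F := F) c j
  have h1 := (NF.HolC.const (1 : ℂ) _).add hO ((NF.HolC.const (-1 : ℂ) _).mul hO (hh c))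
  have h2 : (fun z => (1 : ℂ) + (fun z => (-1 : ℂ) * h ((F.e c).symm z)) z) =
      fun x => 1 - h ((F.e c).symm x) := by
    funext x
    ring
  rw [h2] at h1
  exact ⟨h1.1.mono hS, fun z hz u => h1.2 z (hS hz) u⟩

omit [CompactSpace M] [Finite κ] [Finite P] [MeasurableSpace M] [BorelSpace M] in
theorem hol_const_mul {j : P} {h : M → ℂ} (hh : F.Hol j h) (w : ℂ) :
    F.Hol j fun x => w * h x := fun c =>
  (NF.HolC.const w _).mul (isOpen_chartV (F := F) c j) (hh c)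

/-- **peak functions** -/
theorem peak_of {μ : Measure M} (hU : UBound F) (hA : UAnti F) (hN : PhiNear F) (hS : Slope F)
    (hH : Harnack F) {Λ : ℝ} (hΛ : 1 ≤ Λ) (hT : Tube F μ Λ) (hC : HormOne F μ)
    (hM : MeanV F μ) : ∃ C c₀ l₀, 0 ≤ C ∧ 0 < c₀ ∧ 1 ≤ l₀ ∧
    ∀ t ∈ Ico 0 T, ∀ c x l, l₀ ≤ l → x ∈ (F.e c).source → nsq (F.e c x) ≤ 9 →
    ∀ p, 0 < p → (∀ x₁, dist x x₁ ≤ Real.exp (-l) → p * F.A t (F.f x₁) l ≤ c₀ * l) →
    ∀ j, F.f x ∈ F.S j → nsq (F.y j x) ≤ 4 →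
    ∃ h, F.Adm μ t p j h ∧ h x ≠ 0 ∧ F.U t c l (F.e c x) - C * l / p ≤ F.val p j h x := by
  obtain ⟨CT, cT, lT, hCT, hcT, hlT, hT⟩ := hT
  obtain ⟨Ch, cH, hCh, hcH, hC⟩ := hC
  obtain ⟨B₀, lB, hB₀, hlB, hB⟩ := phi_near hU hA hN hS hH
  obtain ⟨Cz, hCz, hz⟩ := geo_Z F
  obtain ⟨Cg, δ, hCg, hδ, hδ1, hg⟩ := geo_ball F
  obtain ⟨Cm, hCm, hM⟩ := hM
  obtain ⟨CK, hCK, hK⟩ := F.K_bound
  set B : ℝ := B₀ + CK with hBdef
  set G : ℝ := CT + 2 * (n + 2) * Λ with hG
  set D : ℝ := Cm * (2 * Cg) ^ (2 * n) * 2 ^ (n + 1) * Real.exp (3 * B) * Ch * 4 ^ (n + 1) *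
    (Cz + 1) ^ (2 * (n + 2)) with hD
  set D₂ : ℝ := Real.exp B * (2 * 200 ^ (n + 1) * Ch * 4 ^ (n + 1) *
    (Cz + 1) ^ (2 * (n + 2)) + 2) with hD₂
  have hG0 : 0 ≤ G := by positivity
  have hD0 : 0 ≤ D := by positivity
  have hD₂0 : 0 ≤ D₂ := by positivity
  obtain ⟨k, lk, hlk, hk, hkl⟩ := params (c := Cz + 1) hΛ hδ (by linarith) hD0 hG0
  refine ⟨G + D₂ + 2, min (min cT cH) 1, max (max lT lB) lk, by positivity,
    lt_min (lt_min hcT hcH) one_pos, hlk.trans (le_max_right _ _), ?_⟩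
  intro t ht c x l hl hc hxc p hp hpA j hj hy
  have hlT' : lT ≤ l := ((le_max_left _ _).trans (le_max_left _ _)).trans hl
  have hlB' : lB ≤ l := ((le_max_right _ _).trans (le_max_left _ _)).trans hl
  have hlk' : lk ≤ l := (le_max_right _ _).trans hl
  have hl1 : 1 ≤ l := hlk.trans hlk'
  obtain ⟨hk1, hk2, hk3, hk4⟩ := hkl l hlk'
  set c₀ : ℝ := min (min cT cH) 1 with hc₀
  have hc₀1 : c₀ ≤ 1 := min_le_right _ _
  have hc₀T : c₀ ≤ cT := (min_le_left _ _).trans (min_le_left _ _)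
  have hc₀H : c₀ ≤ cH := (min_le_left _ _).trans (min_le_right _ _)
  set ε : ℝ := Real.exp (-(k * l)) with hε
  set r : ℝ := Real.exp (-(Λ * l)) / (Cz + 1) with hr
  have hε0 : 0 < ε := Real.exp_pos _
  have hr0 : 0 < r := by positivity
  have hel : Real.exp (-l) ≤ 1 := Real.exp_le_one_iff.2 (by linarith)
  have hΛl : Real.exp (-(Λ * l)) ≤ Real.exp (-l) := Real.exp_le_exp.2
    (neg_le_neg (le_mul_of_one_le_left (by linarith) hΛ))
  have hrl : r ≤ Real.exp (-l) := by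
    rw [hr, div_le_iff₀ (by linarith)]
    exact hΛl.trans (le_mul_of_one_le_right (Real.exp_pos _).le (by linarith))
  have hr1 : r ≤ 1 := hrl.trans hel
  have hε1 : ε ≤ 1 := hk3.trans hel
  -- the bounds of p
  have hx0 := hpA x (by rw [dist_self]; exact (Real.exp_pos _).le)
  obtain ⟨hpT, hpe⟩ := p_bounds hU hA ht hl1 hp.le hx0
  have hpe1 : p * Real.exp (-l) ≤ 1 := hpe.trans hc₀1
  set u : ℝ := F.U t c l (F.e c x) with hu
  set a : Cn N := F.y j x with ha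
  obtain ⟨χ, h, hhol, hχ, hχ1, hχ0, hint⟩ := hC t ht p hp.le (hpT.trans hc₀H) j a r (Wt n a ε)
    (by linarith) hr0 hr1 (Wt_smooth n a hε0 _) (fun y _ v => Wt_psh n a hε0 y v)
  have hy81 : nsq a ≤ 81 := by linarith
  -- the set of the tube
  set Nn : Set M := {x' | dist (F.f x) (F.f x') ≤ Real.exp (-(Λ * l))} with hNn
  have hsq : ∀ x', nsq (F.y j x' - a) ≤ r ^ 2 → √(nsq (F.y j x' - a)) ≤ r := fun x' hx' =>
    (Real.sqrt_le_sqrt hx').trans_eq (Real.sqrt_sq hr0.le)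
  have hNsub : ∀ x' ∈ F.V j, nsq (F.y j x' - a) ≤ r ^ 2 → x' ∈ Nn := by
    intro x' hx' hxr
    change dist (F.f x) (F.f x') ≤ Real.exp (-(Λ * l))
    rw [dist_comm]
    refine (hz j x x' hj hy81 hx'.1 hx'.2.le).trans ?_
    refine (mul_le_mul_of_nonneg_left (hsq x' hxr) hCz.le).trans ?_
    rw [hr, mul_div_assoc', div_le_iff₀ (by linarith), mul_comm]
    exact mul_le_mul_of_nonneg_left (by linarith) (Real.exp_pos _).le
  have hKvar : ∀ x' ∈ F.V j, nsq (F.y j x' - a) ≤ r ^ 2 →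
      |p * F.K j (F.y j x') - p * F.K j a| ≤ B := by
    intro x' hx' hxr
    have h1 := (hK j (F.y j x') hx'.2.le).2.1 a hy81
    rw [← mul_sub, abs_mul, abs_of_pos hp]
    calc p * |F.K j (F.y j x') - F.K j a| ≤ p * (CK * √(nsq (F.y j x' - a))) :=
          mul_le_mul_of_nonneg_left h1 hp.le
      _ ≤ p * (CK * Real.exp (-l)) := by
          have := (hsq x' hxr).trans hrl
          gcongr
      _ = CK * (p * Real.exp (-l)) := by ring
      _ ≤ CK * 1 := mul_le_mul_of_nonneg_left hpe1 hCK.le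
      _ ≤ B := by rw [hBdef]; linarith
  have hI := hT t ht c x l hlT' hc hxc p hp.le fun x₁ hx₁ =>
    (hpA x₁ hx₁).trans (mul_le_mul_of_nonneg_right hc₀T (by linarith))
  -- the ball
  obtain ⟨c', hc', hxc', hball⟩ := hg j x hj (by linarith)
  set ρ : ℝ := ε / (2 * Cg) with hρ
  have hρ0 : 0 < ρ := by positivity
  have hρε : Cg * (2 * ρ) = ε := by
    rw [hρ]
    field_simp
  have h2ρ : 2 * ρ ≤ ε := by
    rw [← hρε]
    exact le_mul_of_one_le_left (by linarith) hCg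
  have hball' : ∀ v, nsq (v - F.e c' x) ≤ (2 * ρ) ^ 2 → v ∈ (F.e c').target ∧
      dist x ((F.e c').symm v) ≤ ε ∧ (F.e c').symm v ∈ F.V j ∧
        √(nsq (F.y j ((F.e c').symm v) - a)) ≤ ε := by
    intro v hv
    have h1 := hball (2 * ρ) (by linarith) (h2ρ.trans hk4) v hv
    rwa [hρε] at h1
  set Bl : Set M := (F.e c').symm '' {v | nsq (v - F.e c' x) ≤ ρ ^ 2} with hBl
  have hsubρ : ∀ v, nsq (v - F.e c' x) ≤ ρ ^ 2 → nsq (v - F.e c' x) ≤ (2 * ρ) ^ 2 :=
    fun v hv => hv.trans (pow_le_pow_left₀ hρ0.le (by linarith) 2)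
  have hBlm : MeasurableSet Bl := by
    refine (IsCompact.image_of_continuousOn (KRFX.RegK.isCompact_ball_sub _ _)
      ((F.e c').continuousOn_symm.mono fun v hv => ?_)).isClosed.measurableSet
    exact (hball' v (hsubρ v hv)).1
  have hBlp : ∀ x' ∈ Bl, x' ∈ F.V j ∧ nsq (F.y j x' - a) ≤ ε ^ 2 ∧
      p * F.Phi t x' ≤ p * u + B := by
    rintro x' ⟨v, hv, rfl⟩
    obtain ⟨h1, h2, h3, h4⟩ := hball' v (hsubρ v hv)
    refine ⟨h3, ?_, ?_⟩
    · exact (Real.sqrt_le_left hε0.le).1 h4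
    · have h5 := hB t ht c x l hlB' hc hxc p c₀ hp.le hx0 ((F.e c').symm v)
        (h2.trans (hk3.trans (by linarith [Real.exp_pos (-l)])))
      refine h5.trans ?_
      have h6 : B₀ * c₀ ≤ B₀ * 1 := mul_le_mul_of_nonneg_left hc₀1 hB₀
      rw [hBdef]
      linarith
  obtain ⟨hR1, hR2⟩ := core ht (by linarith) hr0 hε0 (by rw [hr]; exact hk2) hε1 hCh
    (Real.exp_pos (CT * l)).le hχ hχ1 hχ0 hint hNsub hKvar hI hBlm hBlp
  -- the value at the centre
  have hmv := hM c' (F.e c' x) ρ (fun x => 1 - h x) hρ0 (by linarith) (by linarith)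
    (hol_one_sub hhol c' fun v hv => ⟨(hball' v (le_of_lt hv)).1, (hball' v (le_of_lt hv)).2.2.1⟩)
  rw [(F.e c').left_inv hc'] at hmv
  have hval : ‖1 - h x‖ ^ 2 ≤ 1 / 4 := by
    have h1 := hmv.trans (mul_le_mul_right hR1 _)
    rw [← ENNReal.ofReal_mul (by positivity)] at h1
    have h2 := (ENNReal.ofReal_le_ofReal_iff (by positivity)).1 h1
    refine h2.trans (le_trans (le_of_eq ?_) hk1)
    have e1 : Real.exp (G * l) = Real.exp (CT * l) * Real.exp (Λ * l) ^ (2 * (n + 2)) := by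
      rw [← Real.exp_nat_mul, ← Real.exp_add, hG]
      push_cast
      ring_nf
    have e2 : r = (Real.exp (Λ * l) * (Cz + 1))⁻¹ := by
      rw [hr, Real.exp_neg]
      field_simp
    rw [e1, e2, hρ, prod_eq n (by positivity) hε0.ne' (by positivity), hD, mul_pow]
    generalize Cz + 1 = s
    ring
  have hhx : 1 / 4 ≤ ‖h x‖ ^ 2 := by
    have h1 : ‖1 - h x‖ ≤ 1 / 2 := by
      refine abs_le_of_sq_le_sq' (a := ‖1 - h x‖) (b := 1 / 2) ?_ (by norm_num) |>.2
      exact hval.trans_eq (by norm_num)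
    have h2 : ‖(1 : ℂ)‖ ≤ ‖1 - h x‖ + ‖h x‖ := by
      calc ‖(1 : ℂ)‖ = ‖(1 - h x) + h x‖ := by rw [sub_add_cancel]
        _ ≤ _ := norm_add_le _ _
    rw [norm_one] at h2
    have h3 : (1 / 2 : ℝ) ≤ ‖h x‖ := by linarith
    calc (1 / 4 : ℝ) = (1 / 2) ^ 2 := by norm_num
      _ ≤ ‖h x‖ ^ 2 := pow_le_pow_left₀ (by norm_num) h3 2
  -- the norm
  set E : ℝ := p * (F.K j a + u) with hE
  have hnorm : ∫⁻ x in F.V j, ENNReal.ofReal (‖h x‖ ^ 2 * Real.exp (-(p * F.pK t j x))) ∂μ ≤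
      ENNReal.ofReal (Real.exp ((G + D₂) * l - E)) := by
    refine hR2.trans (ENNReal.ofReal_le_ofReal ?_)
    have e2 : r = (Real.exp (Λ * l) * (Cz + 1))⁻¹ := by
      rw [hr, Real.exp_neg]
      field_simp
    have e3 : Ch / r ^ 2 * ((4 / r ^ 2) ^ (n + 1) * Real.exp (CT * l)) =
        Ch * 4 ^ (n + 1) * (Cz + 1) ^ (2 * (n + 2)) * Real.exp (G * l) := by
      have e4 : Real.exp (G * l) = Real.exp (CT * l) * Real.exp (Λ * l) ^ (2 * (n + 2)) := by
        rw [← Real.exp_nat_mul, ← Real.exp_add, hG]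
        push_cast
        ring_nf
      have h5 : (Real.exp (Λ * l) * (Cz + 1)) ≠ 0 := by positivity
      have e5 : Ch / r ^ 2 = Ch * (Real.exp (Λ * l) * (Cz + 1)) ^ 2 := by
        rw [e2]
        field_simp
      have e6 : (4 / r ^ 2) ^ (n + 1) =
          4 ^ (n + 1) * (Real.exp (Λ * l) * (Cz + 1)) ^ (2 * (n + 1)) := by
        have : 4 / r ^ 2 = 4 * (Real.exp (Λ * l) * (Cz + 1)) ^ 2 := by
          rw [e2]
          field_simp
        rw [this, mul_pow, ← pow_mul]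
      rw [e4, e5, e6, mul_pow, mul_pow]
      generalize Cz + 1 = s
      ring
    rw [e3]
    have h6 : Real.exp (CT * l) ≤ Real.exp (G * l) := by
      refine Real.exp_le_exp.2 (mul_le_mul_of_nonneg_right ?_ (by linarith))
      rw [hG]
      have : 0 ≤ 2 * ((n : ℝ) + 2) * Λ := by positivity
      linarith
    have h7 : D₂ ≤ Real.exp (D₂ * l) := by
      have h8 := Real.add_one_le_exp (D₂ * l)
      have h9 : D₂ ≤ D₂ * l := le_mul_of_one_le_right hD₂0 hl1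
      linarith
    calc Real.exp (B - E) * (2 * 200 ^ (n + 1) * (Ch * 4 ^ (n + 1) * (Cz + 1) ^ (2 * (n + 2)) *
          Real.exp (G * l)) + 2 * Real.exp (CT * l)) ≤
        Real.exp (B - E) * (2 * 200 ^ (n + 1) * (Ch * 4 ^ (n + 1) * (Cz + 1) ^ (2 * (n + 2)) *
          Real.exp (G * l)) + 2 * Real.exp (G * l)) := by gcongr
      _ = D₂ * Real.exp (G * l) * Real.exp (-E) := by
          rw [sub_eq_add_neg, Real.exp_add, hD₂]
          ring
      _ ≤ Real.exp (D₂ * l) * Real.exp (G * l) * Real.exp (-E) := by gcongr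
      _ = Real.exp ((G + D₂) * l - E) := by
          rw [← Real.exp_add, ← Real.exp_add]
          ring_nf
  -- the multiple
  set w : ℝ := Real.exp ((E - (G + D₂) * l) / 2) with hw
  have hw0 : 0 < w := Real.exp_pos _
  have hw2 : w ^ 2 = Real.exp (E - (G + D₂) * l) := by
    rw [hw, ← Real.exp_nat_mul]
    push_cast
    ring_nf
  have hnw : ∀ x, ‖(w : ℂ) * h x‖ ^ 2 = w ^ 2 * ‖h x‖ ^ 2 := fun x => by
    rw [norm_mul, mul_pow, Complex.norm_real, Real.norm_eq_abs, sq_abs]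
  refine ⟨fun x => (w : ℂ) * h x, ⟨hol_const_mul hhol _, ?_⟩, ?_, ?_⟩
  · calc ∫⁻ x in F.V j, ENNReal.ofReal (‖(w : ℂ) * h x‖ ^ 2 * Real.exp (-(p * F.pK t j x))) ∂μ =
          ∫⁻ x in F.V j, ENNReal.ofReal (w ^ 2) *
            ENNReal.ofReal (‖h x‖ ^ 2 * Real.exp (-(p * F.pK t j x))) ∂μ := by
          congr 1
          funext x
          rw [hnw, ← ENNReal.ofReal_mul (by positivity), mul_assoc]
      _ = ENNReal.ofReal (w ^ 2) *
            ∫⁻ x in F.V j, ENNReal.ofReal (‖h x‖ ^ 2 * Real.exp (-(p * F.pK t j x))) ∂μ :=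
          lintegral_const_mul' _ _ ENNReal.ofReal_ne_top
      _ ≤ ENNReal.ofReal (w ^ 2) * ENNReal.ofReal (Real.exp ((G + D₂) * l - E)) :=
          mul_le_mul_right hnorm _
      _ = 1 := by
          rw [← ENNReal.ofReal_mul (by positivity), hw2, ← Real.exp_add]
          rw [show E - (G + D₂) * l + ((G + D₂) * l - E) = 0 by ring, Real.exp_zero,
            ENNReal.ofReal_one]
  · have h1 : h x ≠ 0 := by
      intro h0
      rw [h0, norm_zero] at hhx
      norm_num at hhx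
    have h2 : (w : ℂ) ≠ 0 := by exact_mod_cast hw0.ne'
    exact mul_ne_zero h2 h1
  · unfold Semi.val
    simp only
    rw [hnw, Real.log_mul (by positivity) (by linarith), hw2, Real.log_exp]
    have h1 : Real.log (1 / 4) ≤ Real.log (‖h x‖ ^ 2) := Real.log_le_log (by norm_num) hhx
    have h2 : -2 ≤ Real.log (1 / 4) := by
      have h3 : Real.log (1 / 4) = -(2 * Real.log 2) := by
        rw [one_div, Real.log_inv, show (4 : ℝ) = 2 ^ 2 by norm_num, Real.log_pow]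
        push_cast
        ring
      have h4 := Real.log_two_lt_d9
      rw [h3]
      linarith
    have h5 : E - (G + D₂) * l - 2 * l ≤ E - (G + D₂) * l + Real.log (‖h x‖ ^ 2) := by linarith
    have h6 : 1 / p * (E - (G + D₂) * l - 2 * l) ≤
        1 / p * (E - (G + D₂) * l + Real.log (‖h x‖ ^ 2)) :=
      mul_le_mul_of_nonneg_left h5 (by positivity)
    have h7 : 1 / p * (E - (G + D₂) * l - 2 * l) = F.K j a + u - (G + D₂ + 2) * l / p := by
      rw [hE]
      field_simp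
      ring
    rw [h7] at h6
    linarith

end

end Peak

end Pool.Agent.KRFZ

end
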